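import Pool.Agent.H86.SM.St

/-! # The solutions with `15 m ≤ log t` -/

namespace Pool.Agent.H86.SM

open Finset

namespace OuterA

/-- A set of positive integers below `X` has at most `X` elements. -/
lemma card_le_of_le (X : ℝ) (hX : 0 ≤ X) (S : Finset ℕ) (hS : ∀ m ∈ S, 1 ≤ m ∧ (m : ℝ) ≤ X) :
    (S.card : ℝ) ≤ X := by
  have h1 : S ⊆ Finset.Icc 1 ⌊X⌋₊ := by
    intro m hm
    rw [Finset.mem_Icc]
    exact ⟨(hS m hm).1, Nat.le_floor (hS m hm).2⟩
  have h2 : S.card ≤ ⌊X⌋₊ := by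
    have := Finset.card_le_card h1
    rwa [Nat.card_Icc, Nat.add_sub_cancel] at this
  calc (S.card : ℝ) ≤ (⌊X⌋₊ : ℝ) := by exact_mod_cast h2
    _ ≤ X := Nat.floor_le hX

/-- The block of `m`. -/
lemma block_of (M₀ m : ℝ) (hM : 0 < M₀) (hm : M₀ ≤ m) :
    M₀ * (11 / 10 : ℝ) ^ ⌊Real.logb (11 / 10) (m / M₀)⌋₊ ≤ m ∧
      m ≤ 11 / 10 * (M₀ * (11 / 10 : ℝ) ^ ⌊Real.logb (11 / 10) (m / M₀)⌋₊) := by
  have hb : (1 : ℝ) < 11 / 10 := by norm_num
  have hq : 1 ≤ m / M₀ := (one_le_div hM).2 hm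
  have hq0 : 0 < m / M₀ := lt_of_lt_of_le one_pos hq
  have hl : 0 ≤ Real.logb (11 / 10) (m / M₀) := Real.logb_nonneg hb hq
  constructor
  · have h1 : (⌊Real.logb (11 / 10) (m / M₀)⌋₊ : ℝ) ≤ Real.logb (11 / 10) (m / M₀) :=
      Nat.floor_le hl
    have h2 := (Real.le_logb_iff_rpow_le hb hq0).1 h1
    rw [Real.rpow_natCast, le_div_iff₀ hM] at h2
    rw [mul_comm]
    exact h2
  · have h1 : Real.logb (11 / 10) (m / M₀) < (⌊Real.logb (11 / 10) (m / M₀)⌋₊ : ℝ) + 1 :=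
      Nat.lt_floor_add_one _
    have h2 : Real.logb (11 / 10) (m / M₀) <
        ((⌊Real.logb (11 / 10) (m / M₀)⌋₊ + 1 : ℕ) : ℝ) := by push_cast; exact h1
    have h3 := (Real.logb_lt_iff_lt_rpow hb hq0).1 h2
    rw [Real.rpow_natCast, div_lt_iff₀ hM, pow_succ] at h3
    nlinarith [h3]

end OuterA

theorem outer (B : BlockSt) : OuterSt := by
  intro δ hδ
  set δ' : ℝ := min δ (1 / 4) with hδ'
  have hδ'0 : 0 < δ' := lt_min hδ (by norm_num)
  have hδ'1 : δ' ≤ 1 / 4 := min_le_right _ _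
  have hδ'2 : δ' ≤ δ := min_le_left _ _
  obtain ⟨L₀, hL₀⟩ := B δ' hδ'0 hδ'1
  set L₁ : ℝ := max L₀ 1 with hL₁
  have hL₁0 : L₀ ≤ L₁ := le_max_left _ _
  have hL₁1 : 1 ≤ L₁ := le_max_right _ _
  have hlog2 : 0 < Real.log 2 := Real.log_pos (by norm_num)
  set c : ℝ := Real.log 2 ^ (1 / 2 + δ) with hc
  have hc0 : 0 < c := Real.rpow_pos_of_pos hlog2 _
  have hb : (1 : ℝ) < 11 / 10 := by norm_num
  have hlb : 0 < Real.log (11 / 10) := Real.log_pos hb
  set C₁ : ℝ := L₁ / c with hC₁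
  have hC₁0 : 0 < C₁ := by positivity
  set C₂ : ℝ := 1 / (δ * Real.log (11 / 10)) with hC₂
  have hC₂0 : 0 < C₂ := by positivity
  refine ⟨C₁ + (1 + (C₂ + 1)), ?_⟩
  intro t S ht hS
  set L : ℝ := Real.log t with hL
  have ht' : (2 : ℝ) ≤ t := by exact_mod_cast ht
  have hL2 : Real.log 2 ≤ L := Real.log_le_log (by norm_num) ht'
  have hLpos : 0 < L := lt_of_lt_of_le hlog2 hL2
  have hLd0 : 0 < L ^ (1 / 2 + δ) := Real.rpow_pos_of_pos hLpos _
  by_cases hcase : L ≤ L₁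
  · have h1 : (S.card : ℝ) ≤ L := by
      apply OuterA.card_le_of_le L hLpos.le
      intro m hm
      obtain ⟨h1, h2⟩ := hS m hm
      have hm0 : (0 : ℝ) ≤ m := Nat.cast_nonneg m
      exact ⟨h1.1, by linarith⟩
    have h2 : c ≤ L ^ (1 / 2 + δ) :=
      Real.rpow_le_rpow hlog2.le hL2 (by linarith)
    have h3 : L₁ ≤ C₁ * L ^ (1 / 2 + δ) := by
      have : L₁ = C₁ * c := by rw [hC₁]; field_simp
      calc L₁ = C₁ * c := this
        _ ≤ C₁ * L ^ (1 / 2 + δ) := mul_le_mul_of_nonneg_left h2 hC₁0.le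
    have h4 : 0 ≤ (1 + (C₂ + 1)) * L ^ (1 / 2 + δ) := by positivity
    calc (S.card : ℝ) ≤ L := h1
      _ ≤ L₁ := hcase
      _ ≤ C₁ * L ^ (1 / 2 + δ) := h3
      _ ≤ (C₁ + (1 + (C₂ + 1))) * L ^ (1 / 2 + δ) := by rw [add_mul]; linarith
  · have hcase' : L₁ < L := not_le.1 hcase
    have hL1 : 1 < L := lt_of_le_of_lt hL₁1 hcase'
    set M₀ : ℝ := L ^ (1 / 2 + δ') with hM₀
    have hM₀pos : 0 < M₀ := Real.rpow_pos_of_pos hLpos _
    have hM₀1 : 1 ≤ M₀ := Real.one_le_rpow hL1.le (by linarith)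
    have hM₀L : M₀ ≤ L ^ (1 / 2 + δ) :=
      Real.rpow_le_rpow_of_exponent_le hL1.le (by linarith)
    -- the small solutions
    set S₀ := S.filter (fun m : ℕ => (m : ℝ) < M₀) with hS₀
    set S₁ := S.filter (fun m : ℕ => ¬ ((m : ℝ) < M₀)) with hS₁
    have hcard : S.card = S₀.card + S₁.card :=
      (Finset.card_filter_add_card_filter_not (s := S) (fun m : ℕ => (m : ℝ) < M₀)).symm
    have hS₀c : (S₀.card : ℝ) ≤ L ^ (1 / 2 + δ) := by
      refine le_trans (OuterA.card_le_of_le M₀ hM₀pos.le S₀ ?_) hM₀L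
      intro m hm
      obtain ⟨h1, h2⟩ := Finset.mem_filter.1 hm
      exact ⟨(hS m h1).1.1, h2.le⟩
    -- the blocks
    set kk : ℕ → ℕ := fun m => ⌊Real.logb (11 / 10) ((m : ℝ) / M₀)⌋₊ with hkk
    set K : ℕ := ⌊Real.logb (11 / 10) L⌋₊ with hK
    have hmaps : ∀ m ∈ S₁, kk m ∈ Finset.range (K + 1) := by
      intro m hm
      obtain ⟨h1, h2⟩ := Finset.mem_filter.1 hm
      have h2' : M₀ ≤ (m : ℝ) := not_lt.1 h2
      have h3 := (hS m h1).2
      have hm0 : (0 : ℝ) < m := lt_of_lt_of_le hM₀pos h2'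
      rw [Finset.mem_range]
      refine Nat.lt_succ_of_le (Nat.floor_le_floor ?_)
      apply Real.logb_le_logb_of_le hb (by positivity)
      rw [div_le_iff₀ hM₀pos]
      nlinarith
    have hfib : ∀ k ∈ Finset.range (K + 1),
        ((S₁.filter (fun m => kk m = k)).card : ℝ) ≤ L ^ (1 / 2 : ℝ) := by
      intro k _
      by_cases hemp : (S₁.filter (fun m => kk m = k)).Nonempty
      · obtain ⟨m₀, hm₀⟩ := hemp
        set M : ℝ := M₀ * (11 / 10 : ℝ) ^ k with hM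
        have hpt : ∀ m ∈ S₁.filter (fun m => kk m = k),
            m ∈ Sol t ∧ M ≤ m ∧ (m : ℝ) ≤ 11 / 10 * M := by
          intro m hm
          obtain ⟨h1, h2⟩ := Finset.mem_filter.1 hm
          obtain ⟨h3, h4⟩ := Finset.mem_filter.1 h1
          have h5 := OuterA.block_of M₀ m hM₀pos (not_lt.1 h4)
          have h6 : ⌊Real.logb (11 / 10) ((m : ℝ) / M₀)⌋₊ = k := h2
          rw [h6] at h5
          exact ⟨(hS m h3).1, h5.1, h5.2⟩
        have hM1 : M₀ ≤ M := by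
          rw [hM]
          exact le_mul_of_one_le_right hM₀pos.le (one_le_pow₀ hb.le)
        have hM2 : 15 * M ≤ L := by
          have h1 := (hpt m₀ hm₀).2.1
          have h2 := (hS m₀ (Finset.mem_filter.1 (Finset.mem_filter.1 hm₀).1).1).2
          have h3 : 15 * M ≤ 15 * (m₀ : ℝ) := by linarith
          exact le_trans h3 h2
        exact hL₀ t M _ (by linarith) hM1 hM2 hpt
      · rw [Finset.not_nonempty_iff_eq_empty.1 hemp]
        simp only [Finset.card_empty, Nat.cast_zero]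
        positivity
    have hS₁c : (S₁.card : ℝ) ≤ ((K : ℝ) + 1) * L ^ (1 / 2 : ℝ) := by
      rw [Finset.card_eq_sum_card_fiberwise hmaps]
      push_cast
      refine le_trans (Finset.sum_le_sum hfib) ?_
      rw [Finset.sum_const, Finset.card_range, nsmul_eq_mul]
      push_cast
      exact le_rfl
    have hKb : (K : ℝ) ≤ C₂ * L ^ δ := by
      have hlogL : 0 ≤ Real.log L := Real.log_nonneg hL1.le
      have h1 : (K : ℝ) ≤ Real.logb (11 / 10) L :=
        Nat.floor_le (Real.logb_nonneg hb hL1.le)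
      have h2 : Real.log L ≤ L ^ δ / δ := Real.log_le_rpow_div hLpos.le hδ
      rw [Real.logb] at h1
      calc (K : ℝ) ≤ Real.log L / Real.log (11 / 10) := h1
        _ ≤ (L ^ δ / δ) / Real.log (11 / 10) := div_le_div_of_nonneg_right h2 hlb.le
        _ = C₂ * L ^ δ := by rw [hC₂]; field_simp
    have hLδ : 1 ≤ L ^ δ := Real.one_le_rpow hL1.le hδ.le
    have hsplit : L ^ (1 / 2 + δ) = L ^ δ * L ^ (1 / 2 : ℝ) := by
      rw [← Real.rpow_add hLpos, add_comm]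
    have hS₁d : (S₁.card : ℝ) ≤ (C₂ + 1) * L ^ (1 / 2 + δ) := by
      refine le_trans hS₁c ?_
      rw [hsplit, ← mul_assoc]
      apply mul_le_mul_of_nonneg_right _ (by positivity)
      rw [add_mul, one_mul]
      linarith
    have h0 : 0 ≤ C₁ * L ^ (1 / 2 + δ) := by positivity
    have hfin : (S.card : ℝ) = S₀.card + S₁.card := by exact_mod_cast hcard
    calc (S.card : ℝ) = S₀.card + S₁.card := hfin
      _ ≤ L ^ (1 / 2 + δ) + (C₂ + 1) * L ^ (1 / 2 + δ) := add_le_add hS₀c hS₁d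
      _ ≤ (C₁ + (1 + (C₂ + 1))) * L ^ (1 / 2 + δ) := by
          have h9 : (C₁ + (1 + (C₂ + 1))) * L ^ (1 / 2 + δ) = C₁ * L ^ (1 / 2 + δ) +
              (L ^ (1 / 2 + δ) + (C₂ + 1) * L ^ (1 / 2 + δ)) := by ring
          rw [h9]; linarith

end Pool.Agent.H86.SM
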