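import Pool.Agent.H86.SM.St

/-! # Elementary bounds for binomial coefficients -/

namespace Pool.Agent.H86.SM

open Finset

namespace ArithA

theorem desc_cast (n m : ℕ) (hmn : m ≤ n) :
    (n.descFactorial m : ℝ) = ∏ i ∈ Finset.range m, ((n : ℝ) - i) := by
  rw [Nat.descFactorial_eq_prod_range]
  push_cast
  refine Finset.prod_congr rfl fun i hi => ?_
  rw [Nat.cast_sub]
  have := Finset.mem_range.1 hi
  omega

/-- `log C(n,m) = m log n + ∑ log(1 - i/n) - log m!` -/
theorem exact (n m : ℕ) (hm : 1 ≤ m) (hmn : m ≤ n) : Real.log (n.choose m) =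
    m * Real.log n + ∑ i ∈ Finset.range m, Real.log (1 - (i : ℝ) / n) -
      Real.log (m.factorial) := by
  have hn0 : (0 : ℝ) < n := by
    have : 0 < n := by omega
    exact_mod_cast this
  have hf : (0 : ℝ) < (m.factorial : ℝ) := by exact_mod_cast Nat.factorial_pos m
  have hc : (0 : ℝ) < (n.choose m : ℝ) := by exact_mod_cast Nat.choose_pos hmn
  have h1 : (n.descFactorial m : ℝ) = m.factorial * n.choose m := by
    exact_mod_cast Nat.descFactorial_eq_factorial_mul_choose n m
  have h2 := desc_cast n m hmn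
  have h3 : ∏ i ∈ Finset.range m, ((n : ℝ) - i) =
      (n : ℝ) ^ m * ∏ i ∈ Finset.range m, (1 - (i : ℝ) / n) := by
    rw [← Finset.card_range m, ← Finset.prod_const, Finset.card_range,
      ← Finset.prod_mul_distrib]
    refine Finset.prod_congr rfl fun i _ => ?_
    field_simp
  have hpos : ∀ i ∈ Finset.range m, 0 < 1 - (i : ℝ) / n := by
    intro i hi
    have h4 : (i : ℝ) < n := by
      have := Finset.mem_range.1 hi
      have h5 : i < n := by omega
      exact_mod_cast h5
    rw [sub_pos, div_lt_one hn0]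
    exact h4
  have h6 : Real.log (m.factorial * n.choose m : ℝ) =
      m * Real.log n + ∑ i ∈ Finset.range m, Real.log (1 - (i : ℝ) / n) := by
    rw [← h1, h2, h3, Real.log_mul (by positivity)
      (Finset.prod_pos hpos).ne', Real.log_pow, Real.log_prod (fun i hi => (hpos i hi).ne')]
  rw [Real.log_mul hf.ne' hc.ne'] at h6
  linarith

theorem low (n m : ℕ) (hm : 1 ≤ m) (hmn : m ≤ n) :
    (m : ℝ) * Real.log (n / m) ≤ Real.log (n.choose m) := by
  have hm0 : (0 : ℝ) < m := by exact_mod_cast hm
  have hn0 : (0 : ℝ) < n := by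
    have : 0 < n := by omega
    exact_mod_cast this
  have hf : (0 : ℝ) < (m.factorial : ℝ) := by exact_mod_cast Nat.factorial_pos m
  rw [← Real.log_pow]
  apply Real.log_le_log (by positivity)
  rw [div_pow, div_le_iff₀ (by positivity)]
  have h1 : (n.descFactorial m : ℝ) = m.factorial * n.choose m := by
    exact_mod_cast Nat.descFactorial_eq_factorial_mul_choose n m
  have h2 : ((m.descFactorial m : ℕ) : ℝ) = m.factorial := by
    rw [Nat.descFactorial_self]
  have h3 : (n : ℝ) ^ m * (m.descFactorial m : ℕ) ≤ (n.descFactorial m : ℕ) * (m : ℝ) ^ m := by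
    rw [desc_cast n m hmn, desc_cast m m le_rfl]
    have e1 : ∀ x : ℝ, x ^ m = ∏ _i ∈ Finset.range m, x := by
      intro x
      rw [Finset.prod_const, Finset.card_range]
    rw [e1 (n : ℝ), e1 (m : ℝ), ← Finset.prod_mul_distrib, ← Finset.prod_mul_distrib]
    refine Finset.prod_le_prod (fun i hi => ?_) (fun i hi => ?_)
    · have h4 : (i : ℝ) ≤ m := by
        have := (Finset.mem_range.1 hi).le
        exact_mod_cast this
      exact mul_nonneg hn0.le (by linarith)
    · have h5 : (i : ℝ) * m ≤ i * n :=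
        mul_le_mul_of_nonneg_left (by exact_mod_cast hmn) (Nat.cast_nonneg i)
      nlinarith
  rw [h2, h1] at h3
  have h6 : (m.factorial : ℝ) * (n : ℝ) ^ m ≤ m.factorial * (n.choose m * (m : ℝ) ^ m) := by
    linarith
  exact le_of_mul_le_mul_left h6 hf

theorem up (n m : ℕ) (hm : 1 ≤ m) (hmn : m ≤ n) :
    Real.log (n.choose m) ≤ m * (1 + Real.log (n / m)) := by
  have hm0 : (0 : ℝ) < m := by exact_mod_cast hm
  have hn0 : (0 : ℝ) < n := by
    have : 0 < n := by omega
    exact_mod_cast this
  have hf : (0 : ℝ) < (m.factorial : ℝ) := by exact_mod_cast Nat.factorial_pos m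
  have hc : (0 : ℝ) < (n.choose m : ℝ) := by exact_mod_cast Nat.choose_pos hmn
  have h1 : (n.choose m : ℝ) ≤ (n : ℝ) ^ m / m.factorial := Nat.choose_le_pow_div m n
  have h2 : (m : ℝ) ^ m / m.factorial ≤ Real.exp m :=
    Real.pow_div_factorial_le_exp (m : ℝ) hm0.le m
  have h3 : (n.choose m : ℝ) ≤ Real.exp m * (n / m) ^ m := by
    calc (n.choose m : ℝ) ≤ (n : ℝ) ^ m / m.factorial := h1
      _ = (m : ℝ) ^ m / m.factorial * (n / m) ^ m := by
          rw [div_pow]; field_simp
      _ ≤ Real.exp m * (n / m) ^ m := mul_le_mul_of_nonneg_right h2 (by positivity)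
  calc Real.log (n.choose m) ≤ Real.log (Real.exp m * (n / m) ^ m) := Real.log_le_log hc h3
    _ = m * (1 + Real.log (n / m)) := by
        rw [Real.log_mul (Real.exp_pos _).ne' (by positivity), Real.log_exp, Real.log_pow]
        ring

theorem half (t n m : ℕ) (_hm : 1 ≤ m) (hmn : m ≤ n) (ht : n.choose m = t)
    (h : 15 * (m : ℝ) ≤ Real.log t) : 2 * m ≤ n := by
  have hc : (0 : ℝ) < (n.choose m : ℝ) := by exact_mod_cast Nat.choose_pos hmn
  have h1 : (n.choose m : ℝ) ≤ 2 ^ n := by
    exact_mod_cast Nat.choose_le_two_pow n m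
  have h2 : Real.log t ≤ n * Real.log 2 := by
    rw [← ht, ← Real.log_pow]
    exact Real.log_le_log hc h1
  have h3 := Real.log_two_lt_d9
  have h4 : (n : ℝ) * Real.log 2 ≤ n * 1 :=
    mul_le_mul_of_nonneg_left (by linarith) (Nat.cast_nonneg n)
  have h5 : (2 * m : ℝ) ≤ n := by
    have : (0 : ℝ) ≤ m := Nat.cast_nonneg m
    linarith
  exact_mod_cast h5

end ArithA

theorem arith : ArithSt where
  low := ArithA.low
  up := ArithA.up
  exact := ArithA.exact
  half := ArithA.half

end Pool.Agent.H86.SM
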