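import Pool.Agent.H86.SM.St

/-! # The Blaschke estimate in the unit disc -/

namespace Pool.Agent.H86.SM

open Metric Set Topology

namespace BlaschkeA

theorem norm_eq {a w : ℂ} (hw : ‖w‖ = 1) : ‖1 - (starRingEnd ℂ) a * w‖ = ‖w - a‖ := by
  have h1 : (starRingEnd ℂ) w * w = 1 := by
    rw [mul_comm, Complex.mul_conj, Complex.normSq_eq_norm_sq, hw]
    simp
  have h2 : 1 - (starRingEnd ℂ) a * w = (starRingEnd ℂ) (w - a) * w := by
    rw [map_sub, sub_mul, h1]
  rw [h2, norm_mul, hw, mul_one, RCLike.norm_conj]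

theorem ne_zero {a z : ℂ} (ha : ‖a‖ < 1) (hz : ‖z‖ < 1) : 1 - (starRingEnd ℂ) a * z ≠ 0 := by
  intro h
  have h1 : (starRingEnd ℂ) a * z = 1 := (sub_eq_zero.1 h).symm
  have h2 : ‖(starRingEnd ℂ) a * z‖ = 1 := by rw [h1, norm_one]
  rw [norm_mul, RCLike.norm_conj] at h2
  nlinarith [norm_nonneg a, norm_nonneg z]

theorem main (A : ℝ) (Z : Finset ℂ) : ∀ (g : ℂ → ℂ),
    DiffContOnCl ℂ g (ball 0 1) → (∀ w ∈ sphere (0 : ℂ) 1, ‖g w‖ ≤ A) →
    (∀ a ∈ Z, ‖a‖ < 1 ∧ g a = 0) → ∀ z : ℂ, ‖z‖ < 1 →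
    ‖g z‖ ≤ A * ∏ a ∈ Z, ‖(z - a) / (1 - (starRingEnd ℂ) a * z)‖ := by
  classical
  induction Z using Finset.induction_on with
  | empty =>
    intro g hg hA _ z hz
    rw [Finset.prod_empty, mul_one]
    refine Complex.norm_le_of_forall_mem_frontier_norm_le isBounded_ball hg (fun w hw => ?_)
      (subset_closure (mem_ball_zero_iff.2 hz))
    rw [frontier_ball (0 : ℂ) one_ne_zero] at hw
    exact hA w hw
  | insert a Z haZ ih =>
    intro g hg hA hZ z hz
    obtain ⟨ha, hga⟩ := hZ a (Finset.mem_insert_self a Z)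
    set g1 : ℂ → ℂ := dslope g a with hg1
    have hsub : ∀ w, (w - a) * g1 w = g w := by
      intro w
      have := sub_smul_dslope g a w
      rw [smul_eq_mul, hga, sub_zero] at this
      exact this
    have hab : ball (0 : ℂ) 1 ∈ 𝓝 a := isOpen_ball.mem_nhds (mem_ball_zero_iff.2 ha)
    have hd1 : DiffContOnCl ℂ g1 (ball 0 1) := by
      refine ⟨(Complex.differentiableOn_dslope hab).2 hg.differentiableOn, ?_⟩
      rw [hg1, continuousOn_dslope (Filter.mem_of_superset hab subset_closure)]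
      exact ⟨hg.continuousOn, hg.differentiableOn.differentiableAt hab⟩
    have hd2 : DiffContOnCl ℂ (fun w => g1 w * (1 - (starRingEnd ℂ) a * w)) (ball 0 1) := by
      have h2 : DiffContOnCl ℂ (fun w : ℂ => 1 - (starRingEnd ℂ) a * w) (ball 0 1) :=
        ((differentiable_const _).sub ((differentiable_const _).mul differentiable_id)).diffContOnCl
      exact hd1.smul h2
    have h3 := ih (fun w => g1 w * (1 - (starRingEnd ℂ) a * w)) hd2 ?_ ?_ z hz
    · have h4 := ne_zero ha hz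
      rw [Finset.prod_insert haZ, ← hsub z]
      have h5 : ‖(z - a) * g1 z‖ = ‖(z - a) / (1 - (starRingEnd ℂ) a * z)‖ *
          ‖g1 z * (1 - (starRingEnd ℂ) a * z)‖ := by
        rw [← norm_mul]
        congr 1
        have h9 : (z - a) / (1 - (starRingEnd ℂ) a * z) * (g1 z * (1 - (starRingEnd ℂ) a * z)) =
            (z - a) * g1 z * ((1 - (starRingEnd ℂ) a * z) / (1 - (starRingEnd ℂ) a * z)) := by ring
        rw [h9, div_self h4, mul_one]
      rw [h5]
      calc ‖(z - a) / (1 - (starRingEnd ℂ) a * z)‖ * ‖g1 z * (1 - (starRingEnd ℂ) a * z)‖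
          ≤ ‖(z - a) / (1 - (starRingEnd ℂ) a * z)‖ *
            (A * ∏ a ∈ Z, ‖(z - a) / (1 - (starRingEnd ℂ) a * z)‖) :=
            mul_le_mul_of_nonneg_left h3 (norm_nonneg _)
        _ = _ := by ring
    · intro w hw
      have hw1 : ‖w‖ = 1 := mem_sphere_zero_iff_norm.1 hw
      rw [norm_mul, norm_eq hw1, mul_comm, ← norm_mul, hsub w]
      exact hA w hw
    · intro b hb
      obtain ⟨h6, h7⟩ := hZ b (Finset.mem_insert_of_mem hb)
      refine ⟨h6, ?_⟩
      have hba : b ≠ a := fun h => haZ (h ▸ hb)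
      have h8 := hsub b
      rw [h7] at h8
      rw [(mul_eq_zero.1 h8).resolve_left (sub_ne_zero.2 hba), zero_mul]

end BlaschkeA

theorem blaschke : BlaschkeSt := fun g A Z z hg hA hZ hz => BlaschkeA.main A Z g hg hA hZ z hz

end Pool.Agent.H86.SM
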