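import Pool.Agent.H86.SM.St

/-! # Singmaster: the number of solutions in a block, choice of the parameters -/

namespace Pool.Agent.H86.SM

open Metric Set

namespace BlockA

theorem log_two_le : Real.log 2 ≤ 7 / 10 := by
  have := Real.log_two_lt_d9
  linarith

theorem one_le_log_three : 1 ≤ Real.log 3 := by
  rw [Real.le_log_iff_exp_le (by norm_num)]
  have := Real.exp_one_lt_d9
  linarith

theorem log_four : Real.log 4 ≤ 2 := by
  have h : (4:ℝ) = 2 ^ 2 := by norm_num
  rw [h, Real.log_pow]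
  have := log_two_le
  push_cast
  linarith

theorem log_thirtytwo : Real.log 32 ≤ 4 := by
  have h : (32:ℝ) = 2 ^ 5 := by norm_num
  rw [h, Real.log_pow]
  have := log_two_le
  push_cast
  linarith

/-- `log X ≤ X / 16 + 2` -/
theorem log_le_sixteen {X : ℝ} (hX : 0 < X) : Real.log X ≤ X / 16 + 2 := by
  have h1 := Real.log_le_sub_one_of_pos (div_pos hX (by norm_num : (0:ℝ) < 16))
  rw [Real.log_div hX.ne' (by norm_num)] at h1
  have h2 : Real.log 16 ≤ 3 := by
    have h : (16:ℝ) = 2 ^ 4 := by norm_num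
    rw [h, Real.log_pow]
    have := log_two_le
    push_cast
    linarith
  linarith

/-- the first numerical hypothesis -/
theorem cond_a {I J y l lam X a : ℝ} (hy : 1000 ≤ y) (hl : 15 ≤ l) (hI : l * y ≤ I) (hJ : y ≤ J)
    (hlam : lam ≤ y / 10) (ha : a ≤ y / 10) (hX : X = (I + 1) * (J + 1)) :
    2 * I * a + 2 * Real.log X + J * (5 / 2 * l + 2 * lam + 6) < 4 / 5 * (X - 1) := by
  have hI0 : 15 * y ≤ I := by nlinarith
  have hI1 : 0 < I := by linarith
  have hJ1 : 0 < J := by linarith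
  have hl1 : 1000 * l ≤ I := by nlinarith
  have hIJ : 0 < I * J := mul_pos hI1 hJ1
  have hIJ' : 15000 * 1000 ≤ I * J := mul_le_mul (by linarith) (by linarith) (by norm_num) hI1.le
  have hXe : X = I * J + I + J + 1 := by rw [hX]; ring
  have hX0 : 0 < X := by rw [hXe]; positivity
  have h1 := log_le_sixteen hX0
  have h2 : 2 * I * a ≤ I * J / 5 := by
    have : 2 * I * a ≤ 2 * I * (J / 10) := mul_le_mul_of_nonneg_left (by linarith) (by linarith)
    linarith
  have h3 : J * (5 / 2 * l + 2 * lam + 6) ≤ J * (I / 10) :=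
    mul_le_mul_of_nonneg_left (by linarith) hJ1.le
  have h4 : I * J ≤ X := by rw [hXe]; linarith
  have h5 : J * (I / 10) = I * J / 10 := by ring
  linarith

/-- the second numerical hypothesis -/
theorem cond_b {I J y l lam a : ℝ} (hy : 1000 ≤ y) (hl : 15 ≤ l)
    (hI : I ≤ l * y + 1) (hJ0 : 0 ≤ J) (hJ : J ≤ y + 1)
    (hlam : lam ≤ y / 10) (ha : a ≤ y) (ha0 : 0 ≤ a) :
    8 * (J + 1) * (lam + 6 + (I + 1) * a) ≤ l * y ^ 4 := by
  have hly : 15000 ≤ l * y := by
    have := mul_le_mul hl hy (by norm_num) (by linarith : (0:ℝ) ≤ l)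
    linarith
  have h1 : (I + 1) * a ≤ (2 * (l * y)) * y :=
    mul_le_mul (by linarith) ha ha0 (by linarith)
  have h2 : lam + 6 + (I + 1) * a ≤ 3 * (l * y * y) := by
    have : 15000 * y ≤ l * y * y := mul_le_mul_of_nonneg_right hly (by linarith)
    linarith
  have h3 : 8 * (J + 1) ≤ 16 * y := by linarith
  have h0 : 0 ≤ l * y * y := by
    have : 0 ≤ y := by linarith
    have : 0 ≤ l * y := by linarith
    positivity
  calc 8 * (J + 1) * (lam + 6 + (I + 1) * a) ≤ 8 * (J + 1) * (3 * (l * y * y)) :=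
        mul_le_mul_of_nonneg_left h2 (by linarith)
    _ ≤ 16 * y * (3 * (l * y * y)) := mul_le_mul_of_nonneg_right h3 (by linarith)
    _ = 48 * (l * y ^ 3) := by ring
    _ ≤ y * (l * y ^ 3) := by
        refine mul_le_mul_of_nonneg_right (by linarith) ?_
        have : 0 ≤ y := by linarith
        have : 0 ≤ l := by linarith
        positivity
    _ = l * y ^ 4 := by ring

theorem block_alg (C : CoreSt) (t : ℕ) (M y : ℝ) (S : Finset ℕ) (hy : 1000 ≤ y)
    (hL : 0 < Real.log t) (hlog : 10 * Real.log (Real.log t) ≤ y)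
    (hM : Real.sqrt (Real.log t) * y ^ 20 ≤ M) (h15 : 15 * M ≤ Real.log t)
    (hS : ∀ m ∈ S, m ∈ Sol t ∧ M ≤ m ∧ (m : ℝ) ≤ 11 / 10 * M) :
    (S.card : ℝ) ≤ Real.log t / M * y ^ 20 ∧
      Real.log t / M * y ^ 20 ≤ Real.sqrt (Real.log t) := by
  set L : ℝ := Real.log t with hLdef
  set r : ℝ := Real.sqrt L with hr
  have ht : 2 ≤ t := by
    by_contra h
    have : t = 0 ∨ t = 1 := by omega
    rcases this with h | h <;> rw [hLdef, h] at hL <;> simp at hL
  have hr0 : 0 < r := Real.sqrt_pos.2 hL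
  have hrr : r * r = L := Real.mul_self_sqrt hL.le
  have hy0 : 0 < y := by linarith
  have hy1 : 1 ≤ y := by linarith
  have hp : ∀ n : ℕ, 0 < y ^ n := fun n => pow_pos hy0 n
  have hM0 : 0 < M := lt_of_lt_of_le (mul_pos hr0 (hp 20)) hM
  have hry : 15 * y ^ 20 ≤ r := by
    have h1 : r * (15 * y ^ 20) ≤ r * r := by
      rw [hrr]; linarith
    exact le_of_mul_le_mul_left h1 hr0
  have hyr : y ≤ y ^ 20 := by
    calc y = y ^ 1 := (pow_one y).symm
      _ ≤ y ^ 20 := pow_le_pow_right₀ hy1 (by norm_num)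
  have hr1 : 1 ≤ r := by linarith
  have hrL : r ≤ L := by
    rw [← hrr]
    exact le_mul_of_one_le_right hr0.le hr1
  have hyL : y ≤ L := by linarith
  set l : ℝ := L / M with hl
  have hlM : l * M = L := div_mul_cancel₀ L hM0.ne'
  have hl15 : 15 ≤ l := by
    rw [hl, le_div_iff₀ hM0]; exact h15
  have hl0 : 0 < l := by linarith
  have hlr : l * y ^ 20 ≤ r := by
    have h1 : (l * y ^ 20) * M ≤ r * M := by
      calc (l * y ^ 20) * M = (l * M) * y ^ 20 := by ring
        _ = r * (r * y ^ 20) := by rw [hlM, ← hrr]; ring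
        _ ≤ r * M := mul_le_mul_of_nonneg_left hM hr0.le
    exact le_of_mul_le_mul_right h1 hM0
  refine ⟨?_, hlr⟩
  by_contra hcon
  rw [not_le] at hcon
  have hlM' : l * y ^ 40 ≤ M := by
    calc l * y ^ 40 = (l * y ^ 20) * y ^ 20 := by ring
      _ ≤ r * y ^ 20 := mul_le_mul_of_nonneg_right hlr (hp 20).le
      _ ≤ M := hM
  have hM2 : 2 ≤ M := by
    have : 1 ≤ y ^ 20 := by linarith
    have : r ≤ r * y ^ 20 := le_mul_of_one_le_right hr0.le this
    linarith
  have hlogL : Real.log L ≤ y / 10 := by linarith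
  have hlogL0 : 0 ≤ Real.log L := Real.log_nonneg (by linarith)
  have hlogy : Real.log y ≤ Real.log L := Real.log_le_log hy0 hyL
  have hlogM : Real.log M ≤ Real.log L := Real.log_le_log hM0 (by linarith)
  have hlam : Real.log (2 * M) ≤ y / 10 :=
    (Real.log_le_log (by linarith) (by linarith)).trans hlogL
  have ha : Real.log (11 / 10 * M) ≤ y / 10 :=
    (Real.log_le_log (by linarith) (by linarith)).trans hlogL
  -- the parameters
  have hly : 0 < l * y := mul_pos hl0 hy0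
  set J : ℕ := ⌈y⌉₊ with hJ
  set I : ℕ := ⌈l * y⌉₊ with hI
  have hJ1 : y ≤ J := Nat.le_ceil y
  have hJ2 : (J : ℝ) ≤ y + 1 := (Nat.ceil_lt_add_one hy0.le).le
  have hI1 : l * y ≤ I := Nat.le_ceil _
  have hI2 : (I : ℝ) ≤ l * y + 1 := (Nat.ceil_lt_add_one hly.le).le
  set K : ℕ := ⌈4 * (l * y ^ 11)⌉₊ with hK
  have hly11 : 0 < l * y ^ 11 := mul_pos hl0 (hp 11)
  have hK1 : 4 * (l * y ^ 11) ≤ K := Nat.le_ceil _
  have hK2 : (K : ℝ) ≤ 4 * (l * y ^ 11) + 1 := (Nat.ceil_lt_add_one (by linarith)).le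
  set N : ℕ := ⌊l * y ^ 10⌋₊ + 1 with hN
  have hly10 : 0 < l * y ^ 10 := mul_pos hl0 (hp 10)
  have hN1 : l * y ^ 10 < N := by
    rw [hN]; push_cast; exact Nat.lt_floor_add_one _
  have hN2 : (N : ℝ) ≤ l * y ^ 10 + 1 := by
    rw [hN]; push_cast
    have := Nat.floor_le hly10.le
    linarith
  have hy10 : 1000 ≤ y ^ 10 := by
    calc (1000:ℝ) ≤ y := hy
      _ = y ^ 1 := (pow_one y).symm
      _ ≤ y ^ 10 := pow_le_pow_right₀ hy1 (by norm_num)
  have hbig : 15000 ≤ l * y ^ 10 := by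
    have := mul_le_mul hl15 hy10 (by norm_num) hl0.le
    linarith
  have h1020 : l * y ^ 10 * 1000 ≤ l * y ^ 20 := by
    calc l * y ^ 10 * 1000 ≤ l * y ^ 10 * y ^ 10 := mul_le_mul_of_nonneg_left hy10 hly10.le
      _ = l * y ^ 20 := by ring
  have hNr : (N : ℝ) + 1 ≤ r := by linarith
  have h1011 : l * y ^ 10 * y = l * y ^ 11 := by ring
  have hbig11 : l * y ^ 10 ≤ l * y ^ 11 := by
    rw [← h1011]; exact le_mul_of_one_le_right hly10.le hy1
  -- the subset
  have hNS : N ≤ S.card := by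
    have : (N : ℝ) < S.card := by linarith only [hN2, h1020, hcon, hbig]
    exact_mod_cast this.le
  obtain ⟨S', hS', hc⟩ := Finset.exists_subset_card_eq hNS
  have hTL : l * y ^ 4 / L = y ^ 4 / M := by
    rw [hl]; field_simp
  have key := C t I J K M (l * y ^ 4) S' ht
    (Nat.one_le_iff_ne_zero.2 (Nat.ceil_pos.2 (by linarith)).ne')
    (Nat.one_le_iff_ne_zero.2 (Nat.ceil_pos.2 hly).ne')
    (Nat.one_le_iff_ne_zero.2 (Nat.ceil_pos.2 hy0).ne') hM2 h15 (fun m hm => hS m (hS' hm))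
    (cond_a hy hl15 hI1 hJ1 hlam ha rfl)
    (cond_b hy hl15 hI2 (Nat.cast_nonneg J) hJ2 hlam ?_ ?_)
    ?_ ?_ ?_
  · -- conclusion
    rw [hc] at key
    have e1 : 30 * (J : ℝ) * (l * y ^ 4) ^ 2 * M / L = 30 * J * (l * y ^ 8) := by
      rw [div_eq_iff hL.ne']
      calc 30 * (J : ℝ) * (l * y ^ 4) ^ 2 * M = 30 * J * (l * y ^ 8) * (l * M) := by ring
        _ = _ := by rw [hlM]
    rw [← hLdef, e1] at key
    have hly8 : 0 < l * y ^ 8 := mul_pos hl0 (hp 8)
    have e2 : 30 * (J : ℝ) * (l * y ^ 8) ≤ (y * y) * (l * y ^ 8) := by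
      refine mul_le_mul_of_nonneg_right ?_ hly8.le
      calc 30 * (J : ℝ) ≤ 60 * y := by linarith only [hJ2, hy]
        _ ≤ y * y := mul_le_mul_of_nonneg_right (by linarith only [hy]) hy0.le
    have e3 : (y * y) * (l * y ^ 8) = l * y ^ 10 := by ring
    linarith
  · -- log (16 (J+1)) ≤ y
    have h1 : Real.log (16 * ((J : ℝ) + 1)) ≤ Real.log (32 * y) :=
      Real.log_le_log (by positivity) (by linarith)
    rw [Real.log_mul (by norm_num) hy0.ne'] at h1
    have := log_thirtytwo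
    linarith
  · exact Real.log_nonneg (by linarith)
  · -- l ≤ T
    exact le_mul_of_one_le_right hl0.le (one_le_pow₀ hy1)
  · -- the disc is in the domain
    rw [← hLdef, hTL]
    have e1 : 2 * (y ^ 4 / M) + 1 / (2 * M) ≤ 3 * y ^ 4 / M := by
      have : 2 * (y ^ 4 / M) + 1 / (2 * M) = (2 * y ^ 4 + 1 / 2) / M := by
        field_simp
      rw [this]
      refine div_le_div_of_nonneg_right ?_ hM0.le
      have : 1 ≤ y ^ 4 := one_le_pow₀ hy1
      linarith
    have e2 : 2 * ((K : ℝ) + 1) ≤ 10 * (l * y ^ 11) := by linarith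
    have e0 : 0 ≤ 2 * (y ^ 4 / M) + 1 / (2 * M) := by positivity
    calc 2 * ((K : ℝ) + 1) * (2 * (y ^ 4 / M) + 1 / (2 * M))
        ≤ 10 * (l * y ^ 11) * (3 * y ^ 4 / M) := mul_le_mul e2 e1 e0 (by linarith)
      _ = 30 * (l * y ^ 15) / M := by ring
      _ < 1 := by
        rw [div_lt_one hM0]
        refine lt_of_lt_of_le ?_ hlM'
        have h15 : 0 < l * y ^ 15 := mul_pos hl0 (hp 15)
        have h16 : l * y ^ 40 = l * y ^ 15 * y ^ 25 := by ring
        have h25 : y ≤ y ^ 25 := by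
          calc y = y ^ 1 := (pow_one y).symm
            _ ≤ y ^ 25 := pow_le_pow_right₀ hy1 (by norm_num)
        rw [h16]
        have h17 : l * y ^ 15 * 1000 ≤ l * y ^ 15 * y ^ 25 :=
          mul_le_mul_of_nonneg_left (by linarith) h15.le
        linarith
  · -- the approximation
    rw [hc, ← hLdef, hTL]
    have e1 : 4 * (y ^ 4 / M) * M ^ 2 = 4 * y ^ 4 * M := by
      field_simp
    have e2 : Real.log (4 * y ^ 4 * M) ≤ y := by
      rw [Real.log_mul (by positivity) hM0.ne', Real.log_mul (by norm_num) (hp 4).ne',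
        Real.log_pow]
      have := log_four
      push_cast
      linarith
    have e3 : Real.log (4 * ((N : ℝ) + 1) * M) ≤ y := by
      rw [Real.log_mul (by positivity) hM0.ne', Real.log_mul (by norm_num) (by positivity)]
      have h1 := log_four
      have h2 : Real.log ((N : ℝ) + 1) ≤ Real.log L :=
        Real.log_le_log (by positivity) (by linarith)
      linarith
    rw [e1]
    have e4 : (N : ℝ) * Real.log (4 * y ^ 4 * M) ≤ N * y :=
      mul_le_mul_of_nonneg_left e2 (Nat.cast_nonneg N)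
    have e5 : (N : ℝ) * y ≤ (l * y ^ 10 + 1) * y := mul_le_mul_of_nonneg_right hN2 hy0.le
    have e6 : (l * y ^ 10 + 1) * y = l * y ^ 11 + y := by ring
    have e7 : y ≤ l * y ^ 11 := by
      rw [← h1011]
      exact le_mul_of_one_le_left hy0.le (by linarith)
    have e8 : l ≤ l * y ^ 11 := le_mul_of_one_le_right hl0.le (one_le_pow₀ hy1)
    have e9 : (K : ℝ) ≤ K * Real.log 3 :=
      le_mul_of_one_le_right (Nat.cast_nonneg K) one_le_log_three
    linarith

end BlockA

theorem block (C : CoreSt) : BlockSt := by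
  intro δ hδ _
  have h1 : Filter.Tendsto (fun x : ℝ => x ^ (δ / 20)) Filter.atTop Filter.atTop :=
    tendsto_rpow_atTop (by linarith)
  have h2 := (isLittleO_log_rpow_atTop (by linarith : 0 < δ / 20)).bound
    (by norm_num : (0:ℝ) < 1 / 10)
  have h3 := (h1.eventually_ge_atTop 1000).and (h2.and (Filter.eventually_ge_atTop (1:ℝ)))
  obtain ⟨L₀, hL₀⟩ := Filter.eventually_atTop.1 h3
  refine ⟨L₀, fun t M S hL hM h15 hS => ?_⟩
  obtain ⟨hy, hlog, h1L⟩ := hL₀ _ hL
  have hLp : 0 < Real.log t := by linarith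
  have hyp : 0 < Real.log t ^ (δ / 20) := by linarith
  rw [← Real.sqrt_eq_rpow]
  have key := BlockA.block_alg C t M (Real.log t ^ (δ / 20)) S hy hLp ?_ ?_ h15 hS
  · exact key.1.trans key.2
  · rw [Real.norm_of_nonneg (Real.log_nonneg h1L), Real.norm_of_nonneg hyp.le] at hlog
    linarith
  · refine le_trans (le_of_eq ?_) hM
    rw [Real.sqrt_eq_rpow, ← Real.rpow_natCast, ← Real.rpow_mul hLp.le, ← Real.rpow_add hLp]
    congr 1
    push_cast
    ring

end Pool.Agent.H86.SM
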