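import Pool.Agent.H86.SM.St

/-! # Singmaster: statements for the final form -/

namespace Pool.Agent.H86.SM

open Metric Set

noncomputable section

/-! ### Block2.lean -/

/-- The number of solutions in a block (sharper than `BlockSt`). -/
def BlockSt2 : Prop := ∀ δ : ℝ, 0 < δ → δ ≤ 1 / 4 → ∃ L₀ : ℝ, ∀ (t : ℕ) (M : ℝ) (S : Finset ℕ),
  L₀ ≤ Real.log t → Real.log t ^ (1 / 2 + δ) ≤ M → 15 * M ≤ Real.log t →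
  (∀ m ∈ S, m ∈ Sol t ∧ M ≤ m ∧ (m : ℝ) ≤ 11 / 10 * M) →
  (S.card : ℝ) ≤ Real.log t ^ (1 + δ) / M

/-! ### Outer2.lean -/

/-- The number of solutions with `M ≤ m ≤ (log t)/15`. -/
def OuterSt2 : Prop := ∀ δ : ℝ, 0 < δ → ∃ C : ℝ, ∀ (t : ℕ) (M : ℝ) (S : Finset ℕ), 2 ≤ t → 1 ≤ M →
  (∀ m ∈ S, m ∈ Sol t ∧ M ≤ m ∧ 15 * (m : ℝ) ≤ Real.log t) →
  (S.card : ℝ) ≤ C * (Real.log t ^ (1 + δ) / M) ∧ (S.card : ℝ) ≤ C * Real.log t ^ (1 / 2 + δ)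

/-! ### Center.lean (helper43) -/

/-- The number of solutions with `log t ≤ c m`. -/
def CenterSt : Prop := ∀ c η : ℝ, 0 < c → 0 < η → ∃ C : ℝ, ∀ (t : ℕ) (S : Finset ℕ), 2 ≤ t →
  (∀ m ∈ S, 1 ≤ m ∧ (∃ n : ℕ, 2 * m ≤ n ∧ n.choose m = t) ∧ Real.log t ≤ c * m) →
  (S.card : ℝ) ≤ C * Real.log t ^ η

/-! ### Count2.lean -/

/-- Positions and solutions with a lower bound `M`. -/
def CountSt2 : Prop := ∀ (t : ℕ) (M : ℝ), 2 ≤ t →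
  {p : ℕ × ℕ | p.2 ≤ p.1 ∧ p.1.choose p.2 = t ∧ M ≤ p.2 ∧ M ≤ (p.1 : ℝ) - p.2}.ncard ≤
    2 * {m | m ∈ Sol t ∧ M ≤ m}.ncard

/-- The final theorem. -/
def MainSt2 : Prop := ∀ δ : ℝ, 0 < δ → ∃ C : ℝ, ∀ t : ℕ, 2 ≤ t →
  {p : ℕ × ℕ | p.2 ≤ p.1 ∧ p.1.choose p.2 = t}.Finite ∧
  ({p : ℕ × ℕ | p.2 ≤ p.1 ∧ p.1.choose p.2 = t}.ncard : ℝ) ≤ C * Real.log t ^ (1 / 2 + δ) ∧
  ∀ M : ℝ, 1 ≤ M →
    ({p : ℕ × ℕ | p.2 ≤ p.1 ∧ p.1.choose p.2 = t ∧ M ≤ p.2 ∧ M ≤ (p.1 : ℝ) - p.2}.ncard : ℝ) ≤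
      C * (Real.log t ^ (1 + δ) / M)

end

end Pool.Agent.H86.SM
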