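import Pool.Agent.H86.SM.Block
import Pool.Agent.H86.SM.St2

/-! # Singmaster: the number of solutions in a block, sharper form -/

namespace Pool.Agent.H86.SM

theorem block2 (C : CoreSt) : BlockSt2 := by
  intro δ hδ _
  have h1 : Filter.Tendsto (fun x : ℝ => x ^ (δ / 20)) Filter.atTop Filter.atTop :=
    tendsto_rpow_atTop (by linarith)
  have h2 := (isLittleO_log_rpow_atTop (by linarith : 0 < δ / 20)).bound
    (by norm_num : (0:ℝ) < 1 / 10)
  have h3 := (h1.eventually_ge_atTop 1000).and (h2.and (Filter.eventually_ge_atTop (1:ℝ)))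
  obtain ⟨L₀, hL₀⟩ := Filter.eventually_atTop.1 h3
  refine ⟨L₀, fun t M S hL hM h15 hS => ?_⟩
  obtain ⟨hy, hlog, h1L⟩ := hL₀ _ hL
  have hLp : 0 < Real.log t := by linarith
  have hyp : 0 < Real.log t ^ (δ / 20) := by linarith
  have hy20 : (Real.log t ^ (δ / 20)) ^ 20 = Real.log t ^ δ := by
    rw [← Real.rpow_natCast, ← Real.rpow_mul hLp.le]
    congr 1
    push_cast
    ring
  have key := BlockA.block_alg C t M (Real.log t ^ (δ / 20)) S hy hLp ?_ ?_ h15 hS
  · refine key.1.trans (le_of_eq ?_)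
    rw [hy20, Real.rpow_add hLp, Real.rpow_one]
    ring
  · rw [Real.norm_of_nonneg (Real.log_nonneg h1L), Real.norm_of_nonneg hyp.le] at hlog
    linarith
  · refine le_trans (le_of_eq ?_) hM
    rw [hy20, Real.sqrt_eq_rpow, ← Real.rpow_add hLp]

end Pool.Agent.H86.SM
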