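import Pool.Agent.H86.SM.St

/-! # The number of solutions in a block with explicit parameters -/

namespace Pool.Agent.H86.SM

open Metric Set Polynomial

namespace CoreA

/-- the polynomial `∑_i p_i (c + R X)^(I-i)` times a constant -/
noncomputable def Qp (I : ℕ) (p : ℕ → ℤ) (e c R : ℂ) : ℂ[X] :=
  ∑ i ∈ Finset.range (I + 1), C ((p i : ℂ) * e) * (C c + C R * X) ^ (I - i)

theorem Qp_eval (I : ℕ) (p : ℕ → ℤ) (e c R v : ℂ) :
    (Qp I p e c R).eval v = e * ∑ i ∈ Finset.range (I + 1), (p i : ℂ) * (c + R * v) ^ (I - i) := by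
  unfold Qp
  rw [eval_finsetSum, Finset.mul_sum]
  refine Finset.sum_congr rfl fun i _ => ?_
  simp only [eval_mul, eval_C, eval_pow, eval_add, eval_X]
  ring

theorem Qp_deg (I : ℕ) (p : ℕ → ℤ) (e c R : ℂ) : (Qp I p e c R).natDegree ≤ I := by
  unfold Qp
  refine natDegree_sum_le_of_forall_le _ _ fun i _ => ?_
  refine (natDegree_C_mul_le _ _).trans ?_
  refine natDegree_pow_le.trans ?_
  have h1 : (C c + C R * X).natDegree ≤ 1 := by
    refine (natDegree_add_le _ _).trans ?_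
    rw [natDegree_C]
    exact max_le (Nat.zero_le _) ((natDegree_C_mul_le _ _).trans natDegree_X_le)
  calc (I - i) * (C c + C R * X).natDegree ≤ (I - i) * 1 := Nat.mul_le_mul_left _ h1
    _ ≤ I := by omega

theorem Qp_ne {I : ℕ} {p : ℕ → ℤ} {e c R : ℂ} (he : e ≠ 0) (hR : R ≠ 0)
    (hp : ∃ i ≤ I, p i ≠ 0) : Qp I p e c R ≠ 0 := by
  intro h0
  obtain ⟨i, hi, hpi⟩ := hp
  have h1 : ∀ s : ℂ, (∑ i ∈ Finset.range (I + 1), C (p i : ℂ) * X ^ (I - i) : ℂ[X]).eval s = 0 := by
    intro s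
    have h2 := Qp_eval I p e c R ((s - c) / R)
    rw [h0, eval_zero] at h2
    have h3 : c + R * ((s - c) / R) = s := by field_simp; ring
    rw [h3] at h2
    rw [eval_finsetSum]
    have h4 := (mul_eq_zero.1 h2.symm).resolve_left he
    rw [← h4]
    refine Finset.sum_congr rfl fun i _ => ?_
    simp
  have h5 : (∑ i ∈ Finset.range (I + 1), C (p i : ℂ) * X ^ (I - i) : ℂ[X]) = 0 :=
    Polynomial.funext fun s => by rw [h1 s, eval_zero]
  have h6 := congrArg (fun q => coeff q (I - i)) h5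
  simp only [finsetSum_coeff, coeff_C_mul, coeff_X_pow, coeff_zero] at h6
  rw [Finset.sum_eq_single i] at h6
  · simp at h6
    exact hpi h6
  · intro b hb hbi
    have hb' : b ≤ I := by
      have := Finset.mem_range.1 hb
      omega
    rw [if_neg (by omega), mul_zero]
  · intro hi'
    exact absurd (Finset.mem_range.2 (by omega)) hi'

end CoreA

open CoreA

theorem core (A : ArithSt) (Ip : InterpSt) (Ze : ZeroSt) (E : ExtrapSt) : CoreSt := by
  intro t I J K M T S ht hK hI hJ hM hML hS hX hT hT' hK1 hK2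
  have hMpos : 0 < M := by linarith
  have hL : 0 < Real.log t := by linarith
  set L : ℝ := Real.log t with hLdef
  have hTpos : 0 < T := lt_of_lt_of_le (by positivity) hT'
  set R : ℝ := T / L with hR
  have hRpos : 0 < R := by positivity
  set c : ℝ := R + 1 / (2 * M) with hc
  have hMR : 1 / M ≤ R := by
    rw [hR, le_div_iff₀ hL]
    calc 1 / M * L = L / M := by ring
      _ ≤ T := hT'
  -- the solutions
  classical
  have hν : ∀ m ∈ S, ∃ n : ℕ, 2 * m ≤ n ∧ n.choose m = t := fun m hm => (hS m hm).1.2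
  choose! ν hν1 hν2 using hν
  have hSm : ∀ m ∈ S, M ≤ m ∧ (m : ℝ) ≤ 11 / 10 * M ∧ m ≤ ν m ∧ (ν m).choose m = t := by
    intro m hm
    exact ⟨(hS m hm).2.1, (hS m hm).2.2, by have := hν1 m hm; omega, hν2 m hm⟩
  obtain ⟨f, hf1, hf2, hf3⟩ := Ip t K M R S ν ht hK hM hML hMR hSm hK1 hK2
  -- the polynomial
  set F : ℝ := Real.exp (3 / 2 * (L / M) + Real.log (2 * M) + 6) with hF
  set N₁ : ℝ := 11 / 10 * M * Real.exp (L / M) with hN
  have hlog2M : 0 ≤ Real.log (2 * M) := Real.log_nonneg (by linarith)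
  have hLM : 0 ≤ L / M := by positivity
  have hF1 : 1 ≤ F := by
    rw [hF]
    exact Real.one_le_exp (by positivity)
  have hN1 : 1 ≤ N₁ := by
    have h1 : 1 ≤ Real.exp (L / M) := Real.one_le_exp hLM
    have h2 : 1 ≤ 11 / 10 * M := by linarith
    calc (1 : ℝ) = 1 * 1 := by ring
      _ ≤ _ := mul_le_mul h2 h1 (by norm_num) (by positivity)
  have hmpos : ∀ m ∈ S, (0 : ℝ) < m := fun m hm => lt_of_lt_of_le hMpos (hSm m hm).1
  have hSE : ∀ m ∈ S, M ≤ m ∧ (m : ℝ) ≤ 11 / 10 * M ∧ (ν m : ℝ) ≤ N₁ ∧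
      f ((m : ℂ)⁻¹) = ((ν m : ℕ) : ℂ) := by
    intro m hm
    obtain ⟨h1, h2, h3, h4⟩ := hSm m hm
    refine ⟨h1, h2, ?_, hf3 m hm⟩
    have hm0 := hmpos m hm
    have hm1 : 1 ≤ m := by exact_mod_cast hm0
    have h5 := A.low (ν m) m hm1 h3
    rw [h4] at h5
    have hν0 : (0 : ℝ) < ν m := lt_of_lt_of_le hm0 (by exact_mod_cast h3)
    have h6 : Real.log ((ν m : ℝ) / m) ≤ L / M := by
      have h7 : Real.log ((ν m : ℝ) / m) ≤ L / m := by
        rw [le_div_iff₀ hm0]
        linarith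
      refine h7.trans ?_
      exact div_le_div_of_nonneg_left hL.le hMpos h1
    have h8 : (ν m : ℝ) / m ≤ Real.exp (L / M) := by
      rw [← Real.exp_log (div_pos hν0 hm0)]
      exact Real.exp_le_exp.2 h6
    rw [div_le_iff₀ hm0] at h8
    rw [hN]
    calc (ν m : ℝ) ≤ Real.exp (L / M) * m := h8
      _ ≤ Real.exp (L / M) * (11 / 10 * M) := by gcongr
      _ = _ := by ring
  have hsub : closedBall (((1 / M : ℝ)) : ℂ) (1 / (2 * M)) ⊆ closedBall ((c : ℝ) : ℂ) R := by
    refine closedBall_subset_closedBall' ?_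
    rw [Complex.dist_eq, ← Complex.ofReal_sub, Complex.norm_real, Real.norm_eq_abs, hc]
    have h1 : 1 / M = 1 / (2 * M) + 1 / (2 * M) := by field_simp; norm_num
    rw [abs_of_nonpos (by linarith)]
    linarith
  have hsub' : ball (((1 / M : ℝ)) : ℂ) (1 / (2 * M)) ⊆ ball ((c : ℝ) : ℂ) R := by
    refine ball_subset_ball' ?_
    rw [Complex.dist_eq, ← Complex.ofReal_sub, Complex.norm_real, Real.norm_eq_abs, hc]
    have h1 : 1 / M = 1 / (2 * M) + 1 / (2 * M) := by field_simp; norm_num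
    rw [abs_of_nonpos (by linarith)]
    linarith
  have hre : ∀ s ∈ closedBall (((1 / M : ℝ)) : ℂ) (1 / (2 * M)), s.re ≤ 3 / 2 * (1 / M) := by
    intro s hs
    rw [mem_closedBall, Complex.dist_eq] at hs
    have h1 := (Complex.re_le_norm (s - ((1 / M : ℝ) : ℂ))).trans hs
    rw [Complex.sub_re, Complex.ofReal_re] at h1
    have h2 : 1 / (2 * M) = 1 / 2 * (1 / M) := by field_simp
    rw [h2] at h1
    linarith
  have hFb : ∀ s ∈ closedBall (((1 / M : ℝ)) : ℂ) (1 / (2 * M)), ‖f s‖ ≤ F := by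
    intro s hs
    obtain ⟨h1, h2⟩ := hf2 s (hsub hs)
    have h3 := (abs_le.1 h2).2
    have h4 : L * s.re ≤ 3 / 2 * (L / M) := by
      calc L * s.re ≤ L * (3 / 2 * (1 / M)) := by
            exact mul_le_mul_of_nonneg_left (hre s hs) hL.le
        _ = _ := by ring
    rw [hF, ← Real.exp_log (norm_pos_iff.2 h1)]
    exact Real.exp_le_exp.2 (by linarith)
  have hlogN : Real.log N₁ = Real.log (11 / 10 * M) + L / M := by
    rw [hN, Real.log_mul (by positivity) (Real.exp_ne_zero _), Real.log_exp]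
  have hlogF : Real.log F = 3 / 2 * (L / M) + Real.log (2 * M) + 6 := by rw [hF, Real.log_exp]
  have hlog11 : Real.log (11 / 10 * M) ≤ Real.log (2 * M) :=
    Real.log_le_log (by positivity) (by linarith)
  have hXX : 2 * I * Real.log (11 / 10 * M) + 2 * Real.log (((I : ℝ) + 1) * ((J : ℝ) + 1)) +
      J * (Real.log N₁ + Real.log F) < 4 / 5 * (((I : ℝ) + 1) * ((J : ℝ) + 1) - 1) := by
    refine lt_of_le_of_lt ?_ hX
    rw [hlogN, hlogF]
    have h1 : (0 : ℝ) ≤ J := Nat.cast_nonneg J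
    have h2 : Real.log (11 / 10 * M) + L / M + (3 / 2 * (L / M) + Real.log (2 * M) + 6) ≤
        5 / 2 * (L / M) + 2 * Real.log (2 * M) + 6 := by linarith
    have h3 := mul_le_mul_of_nonneg_left h2 h1
    linarith
  obtain ⟨p, hp1, hp2⟩ := E M F N₁ I J S ν f hM hI hJ hF1 hN1 hSE (hf1.mono hsub') hFb hXX
  -- normalization
  set g : ℂ → ℂ := fun v => f (c + R * v) * Complex.exp (-(L * c)) with hg
  set Q : ℕ → ℂ[X] := fun j => if j ≤ J then
    Qp I (fun i => p i j) (Complex.exp (L * c) ^ j) c R else 0 with hQ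
  have hRne : (R : ℂ) ≠ 0 := by exact_mod_cast hRpos.ne'
  have hmap : ∀ v ∈ closedBall (0 : ℂ) 1, (c : ℂ) + R * v ∈ closedBall ((c : ℝ) : ℂ) R := by
    intro v hv
    rw [mem_closedBall, Complex.dist_eq, add_sub_cancel_left, norm_mul, Complex.norm_real,
      Real.norm_eq_abs, abs_of_pos hRpos]
    rw [mem_closedBall_zero_iff] at hv
    calc R * ‖v‖ ≤ R * 1 := by gcongr
      _ = R := mul_one R
  have hmap' : MapsTo (fun v : ℂ => (c : ℂ) + R * v) (ball 0 1) (ball ((c : ℝ) : ℂ) R) := by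
    intro v hv
    rw [mem_ball, Complex.dist_eq, add_sub_cancel_left, norm_mul, Complex.norm_real,
      Real.norm_eq_abs, abs_of_pos hRpos]
    rw [mem_ball_zero_iff] at hv
    calc R * ‖v‖ < R * 1 := by gcongr
      _ = R := mul_one R
  have hgd : DiffContOnCl ℂ g (ball 0 1) := by
    have h1 : DiffContOnCl ℂ (fun v : ℂ => (c : ℂ) + R * v) (ball 0 1) :=
      (((differentiable_const _).add ((differentiable_const _).mul differentiable_id))).diffContOnCl
    exact (hf1.comp h1 hmap').smul_const _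
  have hgb : ∀ v ∈ closedBall (0 : ℂ) 1, g v ≠ 0 ∧
      |Real.log ‖g v‖ - T * v.re| ≤ Real.log (2 * M) + 6 := by
    intro v hv
    obtain ⟨h1, h2⟩ := hf2 _ (hmap v hv)
    refine ⟨mul_ne_zero h1 (Complex.exp_ne_zero _), ?_⟩
    have h3 : Real.log ‖g v‖ = Real.log ‖f (c + R * v)‖ - L * c := by
      rw [hg]
      simp only [norm_mul]
      rw [Real.log_mul (norm_ne_zero_iff.2 h1) (norm_ne_zero_iff.2 (Complex.exp_ne_zero _)),
        Complex.norm_exp, Real.log_exp]
      have : (-((L : ℂ) * (c : ℂ))).re = -(L * c) := by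
        rw [← Complex.ofReal_mul, ← Complex.ofReal_neg, Complex.ofReal_re]
      rw [this]
      ring
    have h4 : ((c : ℂ) + R * v).re = c + R * v.re := by
      rw [Complex.add_re, Complex.ofReal_re, Complex.re_ofReal_mul]
    rw [h4] at h2
    have h5 : L * R = T := by rw [hR]; field_simp
    have h6 : Real.log ‖g v‖ - T * v.re = Real.log ‖f (c + R * v)‖ - L * (c + R * v.re) := by
      rw [h3, ← h5]; ring
    rw [h6]
    exact h2
  have hQd : ∀ j, (Q j).natDegree ≤ I := by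
    intro j
    rw [hQ]
    simp only
    split_ifs
    · exact Qp_deg _ _ _ _ _
    · simp
  have hQn : ∃ j ≤ J, Q j ≠ 0 := by
    obtain ⟨i, hi, j, hj, hij⟩ := hp1
    refine ⟨j, hj, ?_⟩
    rw [hQ]
    simp only [if_pos hj]
    exact Qp_ne (pow_ne_zero _ (Complex.exp_ne_zero _)) hRne ⟨i, hi, hij⟩
  -- the zeros
  set δ : ℝ := 2 * L / (5 * M * T) with hδ
  have hδpos : 0 < δ := by positivity
  set am : ℕ → ℂ := fun m => (((m : ℝ)⁻¹ - c) / R : ℝ) with ham
  have ham' : ∀ m : ℕ, (c : ℂ) + R * am m = (m : ℂ)⁻¹ := by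
    intro m
    rw [ham]
    push_cast
    field_simp
    ring
  have hZ : ∀ a ∈ S.image am, ‖a‖ ≤ 1 - δ ∧
      ∑ j ∈ Finset.range (J + 1), (Q j).eval a * g a ^ j = 0 := by
    intro a ha
    obtain ⟨m, hm, rfl⟩ := Finset.mem_image.1 ha
    obtain ⟨h1, h2, h3, h4⟩ := hSm m hm
    have hm0 := hmpos m hm
    constructor
    · have h5 : (m : ℝ)⁻¹ ≤ 1 / M := by
        rw [← one_div]
        exact one_div_le_one_div_of_le hMpos h1
      have h6 : 10 / 11 * (1 / M) ≤ (m : ℝ)⁻¹ := by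
        rw [← one_div, div_mul_div_comm, mul_one]
        rw [div_le_div_iff₀ (by positivity) hm0]
        linarith
      have h7 : 1 / (2 * M) = 1 / 2 * (1 / M) := by field_simp
      have h8 : (m : ℝ)⁻¹ - c ≤ 0 := by
        rw [hc, h7]
        have : 0 < 1 / M := by positivity
        linarith
      have h9 : ‖am m‖ = (c - (m : ℝ)⁻¹) / R := by
        rw [ham]
        simp only
        rw [Complex.norm_real, Real.norm_eq_abs, abs_div, abs_of_nonpos h8, abs_of_pos hRpos,
          neg_sub]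
      rw [h9, div_le_iff₀ hRpos]
      have h10 : δ * R = 2 / 5 * (1 / M) := by
        rw [hδ, hR]
        field_simp
      have h11 : 0 < 1 / M := by positivity
      calc c - (m : ℝ)⁻¹ ≤ R + 1 / 2 * (1 / M) - 10 / 11 * (1 / M) := by
            rw [hc, h7]; linarith
        _ ≤ R - 2 / 5 * (1 / M) := by linarith
        _ = (1 - δ) * R := by rw [sub_mul, one_mul, h10]
    · have h5 := hp2 m hm
      have hmc : (m : ℂ) ≠ 0 := by exact_mod_cast hm0.ne'
      have h6 : ∀ j ∈ Finset.range (J + 1), (Q j).eval (am m) * g (am m) ^ j =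
          ((m : ℂ)⁻¹) ^ I * ∑ i ∈ Finset.range (I + 1), (p i j : ℂ) * (m : ℂ) ^ i *
            ((ν m : ℕ) : ℂ) ^ j := by
        intro j hj
        have hj' : j ≤ J := by
          have := Finset.mem_range.1 hj
          omega
        rw [hQ, hg]
        simp only [if_pos hj']
        rw [Qp_eval, ham' m, hf3 m hm, mul_pow, Finset.mul_sum, Finset.mul_sum, Finset.sum_mul]
        refine Finset.sum_congr rfl fun i hi => ?_
        have hi' : i ≤ I := by
          have := Finset.mem_range.1 hi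
          omega
        have h7 : ((m : ℂ)⁻¹) ^ (I - i) = ((m : ℂ)⁻¹) ^ I * (m : ℂ) ^ i := by
          have h8 : ((m : ℂ)⁻¹) ^ I = ((m : ℂ)⁻¹) ^ (I - i) * ((m : ℂ)⁻¹) ^ i := by
            rw [← pow_add]; congr 1; omega
          rw [h8, mul_assoc, ← mul_pow, inv_mul_cancel₀ hmc, one_pow, mul_one]
        rw [h7]
        have h9 : Complex.exp (L * c) ^ j * Complex.exp (-(L * c)) ^ j = 1 := by
          rw [← mul_pow, ← Complex.exp_add, add_neg_cancel, Complex.exp_zero, one_pow]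
        calc Complex.exp (L * c) ^ j * ((p i j : ℂ) * (((m : ℂ)⁻¹) ^ I * (m : ℂ) ^ i)) *
              (((ν m : ℕ) : ℂ) ^ j * Complex.exp (-(L * c)) ^ j)
            = (Complex.exp (L * c) ^ j * Complex.exp (-(L * c)) ^ j) *
              (((m : ℂ)⁻¹) ^ I * ((p i j : ℂ) * (m : ℂ) ^ i * ((ν m : ℕ) : ℂ) ^ j)) := by ring
          _ = _ := by rw [h9, one_mul]
      rw [Finset.sum_congr rfl h6, ← Finset.mul_sum]
      have h7 : (∑ j ∈ Finset.range (J + 1), ∑ i ∈ Finset.range (I + 1), (p i j : ℂ) *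
          (m : ℂ) ^ i * ((ν m : ℕ) : ℂ) ^ j) = 0 := by
        rw [Finset.sum_comm]
        have h8 := congrArg (Int.cast : ℤ → ℂ) h5
        push_cast at h8
        exact h8
      rw [h7, mul_zero]
  have hinj : Function.Injective am := by
    intro a b hab
    have h1 := ham' a
    rw [hab, ham' b] at h1
    have h2 := inv_injective h1
    exact_mod_cast h2.symm
  have hfin := Ze I J (Real.log (2 * M) + 6) T δ g Q (S.image am) hJ (by linarith) hδpos hT hgd hgb
    hQd hQn hZ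
  rw [Finset.card_image_of_injective _ hinj] at hfin
  rw [hδ] at hfin
  have h1 : (S.card : ℝ) * (2 * L) ≤ 12 * J * T * (5 * M * T) := by
    have h2 : (S.card : ℝ) * (2 * L / (5 * M * T)) = (S.card : ℝ) * (2 * L) / (5 * M * T) := by
      ring
    rw [h2, div_le_iff₀ (by positivity)] at hfin
    exact hfin
  rw [le_div_iff₀ hL]
  nlinarith [h1]

end Pool.Agent.H86.SM
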