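import Pool.Agent.H86.SM.St

/-! # Siegel's lemma and extrapolation -/

namespace Pool.Agent.H86.SM

open Metric Set

namespace ExtrapA

open Finset in
theorem sieg {α β : Type*} [Fintype α] [Fintype β] (A : Matrix α β ℤ) (B : ℝ) (hB : 1 ≤ B)
    (hA : ∀ i j, |(A i j : ℝ)| ≤ B) (hm : 2 * Fintype.card α ≤ Fintype.card β)
    (h0 : 0 < Fintype.card α) :
    ∃ t : β → ℤ, t ≠ 0 ∧ (∀ i, ∑ j, A i j * t j = 0) ∧
      ∀ j, |(t j : ℝ)| ≤ Fintype.card β * B := by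
  let _ := Matrix.seminormedAddCommGroup (m := α) (n := β) (α := ℤ)
  obtain ⟨t, ht0, ht1, ht2⟩ := Int.Matrix.exists_ne_zero_int_vec_norm_le A (by omega) h0
  refine ⟨t, ht0, fun i => ?_, fun j => ?_⟩
  · have := congrFun ht1 i
    simpa [Matrix.mulVec, dotProduct] using this
  · have hn : ‖A‖ ≤ B := by
      rw [Matrix.norm_le_iff (by linarith)]
      intro i j
      rw [Int.norm_eq_abs]
      exact_mod_cast hA i j
    have hmax : max 1 ‖A‖ ≤ B := max_le hB hn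
    have hc : (1 : ℝ) ≤ Fintype.card β := by
      have : 1 ≤ Fintype.card β := by omega
      exact_mod_cast this
    have h1 : (1 : ℝ) ≤ Fintype.card β * max 1 ‖A‖ :=
      one_le_mul_of_one_le_of_one_le hc (le_max_left _ _)
    have hexp : (Fintype.card α : ℝ) / (Fintype.card β - Fintype.card α) ≤ 1 := by
      have h2 : (2 : ℝ) * Fintype.card α ≤ Fintype.card β := by exact_mod_cast hm
      have h3 : (0 : ℝ) < Fintype.card α := by exact_mod_cast h0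
      rw [div_le_one (by linarith)]
      linarith
    have h4 : ‖t j‖ ≤ ‖t‖ := norm_le_pi_norm t j
    rw [Int.norm_eq_abs] at h4
    calc |(t j : ℝ)| ≤ ‖t‖ := by exact_mod_cast h4
      _ ≤ _ := ht2
      _ ≤ (Fintype.card β * max 1 ‖A‖) ^ (1 : ℝ) := Real.rpow_le_rpow_of_exponent_le h1 hexp
      _ = Fintype.card β * max 1 ‖A‖ := Real.rpow_one _
      _ ≤ Fintype.card β * B := by gcongr

/-- the polynomial -/
theorem exists_poly (I J : ℕ) (S : Finset ℕ) (ν : ℕ → ℕ) (B : ℝ) (hB : 1 ≤ B)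
    (hS : 2 * S.card ≤ (I + 1) * (J + 1))
    (hb : ∀ m ∈ S, ∀ i ≤ I, ∀ j ≤ J, (m : ℝ) ^ i * (ν m : ℝ) ^ j ≤ B) :
    ∃ p : ℕ → ℕ → ℤ, (∃ i ≤ I, ∃ j ≤ J, p i j ≠ 0) ∧
      (∀ i j, |(p i j : ℝ)| ≤ (((I : ℝ) + 1) * ((J : ℝ) + 1)) * B) ∧
      ∀ m ∈ S, ∑ i ∈ Finset.range (I + 1), ∑ j ∈ Finset.range (J + 1),
        p i j * (m : ℤ) ^ i * (ν m : ℤ) ^ j = 0 := by
  classical
  have hD : (1 : ℝ) ≤ (((I : ℝ) + 1) * ((J : ℝ) + 1)) := by
    have h1 : (0 : ℝ) ≤ I := Nat.cast_nonneg _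
    have h2 : (0 : ℝ) ≤ J := Nat.cast_nonneg _
    nlinarith [mul_nonneg h1 h2]
  rcases S.eq_empty_or_nonempty with rfl | hne
  · refine ⟨fun _ _ => 1, ⟨0, Nat.zero_le _, 0, Nat.zero_le _, one_ne_zero⟩, fun i j => ?_, by simp⟩
    rw [Int.cast_one, abs_one]
    exact one_le_mul_of_one_le_of_one_le hD hB
  · let A : Matrix S (Fin (I + 1) × Fin (J + 1)) ℤ :=
      fun m q => ((m : ℕ) : ℤ) ^ (q.1 : ℕ) * (ν m : ℤ) ^ (q.2 : ℕ)
    obtain ⟨t, ht0, ht1, ht2⟩ := sieg A B hB (by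
      rintro ⟨m, hm⟩ ⟨i, j⟩
      have := hb m hm i (by omega) j (by omega)
      rw [abs_of_nonneg (by positivity)]
      simpa [A] using this) (by simpa using hS) (by simpa using hne.card_pos)
    let p : ℕ → ℕ → ℤ := fun i j =>
      if h : i < I + 1 ∧ j < J + 1 then t (⟨i, h.1⟩, ⟨j, h.2⟩) else 0
    have hp : ∀ (i : Fin (I + 1)) (j : Fin (J + 1)), p i j = t (i, j) := by
      intro i j
      have : (i : ℕ) < I + 1 ∧ (j : ℕ) < J + 1 := ⟨i.2, j.2⟩
      simp only [p, dif_pos this]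
    refine ⟨p, ?_, ?_, ?_⟩
    · obtain ⟨⟨i, j⟩, hij⟩ := Function.ne_iff.1 ht0
      exact ⟨i, by omega, j, by omega, by rw [hp]; exact hij⟩
    · intro i j
      by_cases h : i < I + 1 ∧ j < J + 1
      · have h1 := ht2 (⟨i, h.1⟩, ⟨j, h.2⟩)
        simp only [p, dif_pos h]
        simpa using h1
      · simp only [p, dif_neg h, Int.cast_zero, abs_zero]
        positivity
    · intro m hm
      have h1 := ht1 ⟨m, hm⟩
      rw [Finset.sum_range]
      rw [Fintype.sum_prod_type] at h1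
      rw [← h1]
      refine Finset.sum_congr rfl fun i _ => ?_
      rw [Finset.sum_range]
      refine Finset.sum_congr rfl fun j _ => ?_
      rw [hp]
      simp only [A]
      ring

theorem factor {x y : ℝ} (hx : -(2 / 11) ≤ x) (hx' : x ≤ 0) (hy : -(2 / 11) ≤ y) (hy' : y ≤ 0) :
    ‖((x : ℂ) - (y : ℂ)) / (1 - (starRingEnd ℂ) (y : ℂ) * (x : ℂ))‖ ≤ 1 / 5 := by
  have h1 : ((x : ℂ) - (y : ℂ)) / (1 - (starRingEnd ℂ) (y : ℂ) * (x : ℂ)) =
      (((x - y) / (1 - y * x) : ℝ) : ℂ) := by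
    rw [Complex.conj_ofReal]
    push_cast
    ring
  rw [h1, Complex.norm_real, Real.norm_eq_abs, abs_div]
  have h2 : 117 / 121 ≤ 1 - y * x := by nlinarith
  rw [abs_of_pos (show (0 : ℝ) < 1 - y * x by linarith), div_le_iff₀ (by linarith)]
  rw [abs_le]
  constructor <;> linarith

theorem log5 : (8 / 5 : ℝ) < Real.log 5 := by
  rw [Real.lt_log_iff_exp_lt (by norm_num)]
  have h1 : Real.exp 1 < 2.7182818286 := Real.exp_one_lt_d9
  have h2 : Real.exp (8 / 5) ^ 5 < (5 : ℝ) ^ 5 := by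
    rw [← Real.exp_nat_mul]
    have : ((5 : ℕ) : ℝ) * (8 / 5) = ((8 : ℕ) : ℝ) * 1 := by norm_num
    rw [this, Real.exp_nat_mul]
    calc Real.exp 1 ^ 8 < 2.7182818286 ^ 8 := by gcongr
      _ < 5 ^ 5 := by norm_num
  exact lt_of_pow_lt_pow_left₀ 5 (by norm_num) h2

/-- the coordinate `v` -/
noncomputable def phi (M : ℝ) (v : ℂ) : ℂ := (1 + v / 2) / (M : ℂ)

theorem phi_sub {M : ℝ} (hM : 2 ≤ M) (v : ℂ) :
    ‖phi M v - ((1 / M : ℝ) : ℂ)‖ = ‖v‖ * (1 / (2 * M)) := by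
  have hM0 : (M : ℂ) ≠ 0 := by
    rw [Ne, Complex.ofReal_eq_zero]
    linarith
  have h1 : phi M v - ((1 / M : ℝ) : ℂ) = v * ((1 / (2 * M) : ℝ) : ℂ) := by
    unfold phi
    push_cast
    field_simp
    ring
  rw [h1, norm_mul, Complex.norm_real, Real.norm_eq_abs, abs_of_pos]
  have : 0 < M := by linarith
  positivity

theorem phi_le {M : ℝ} (hM : 2 ≤ M) {v : ℂ} (hv : ‖v‖ ≤ 1) : ‖phi M v‖ ≤ 1 := by
  unfold phi
  rw [norm_div, Complex.norm_real, Real.norm_eq_abs, abs_of_pos (by linarith),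
    div_le_one (by linarith)]
  calc ‖1 + v / 2‖ ≤ ‖(1 : ℂ)‖ + ‖v / 2‖ := norm_add_le _ _
    _ = 1 + ‖v‖ / 2 := by simp
    _ ≤ M := by linarith

theorem phi_at {M : ℝ} (hM : 2 ≤ M) {m : ℕ} (hm : M ≤ m) :
    phi M (((2 * (M / m - 1) : ℝ)) : ℂ) = ((m : ℂ)⁻¹) := by
  have hM0 : (M : ℂ) ≠ 0 := by
    rw [Ne, Complex.ofReal_eq_zero]
    linarith
  have hm0 : (m : ℂ) ≠ 0 := by
    have : (m : ℝ) ≠ 0 := by linarith
    exact_mod_cast this
  unfold phi
  push_cast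
  field_simp
  ring

theorem vrange {M : ℝ} (hM : 2 ≤ M) {m : ℕ} (hm : M ≤ m) (hm' : (m : ℝ) ≤ 11 / 10 * M) :
    -(2 / 11) ≤ 2 * (M / m - 1) ∧ 2 * (M / m - 1) ≤ 0 := by
  have hm0 : (0 : ℝ) < m := by linarith
  constructor
  · have : 10 / 11 ≤ M / m := by
      rw [le_div_iff₀ hm0]
      linarith
    linarith
  · have : M / m ≤ 1 := by
      rw [div_le_one hm0]
      exact hm
    linarith

/-- the auxiliary function is small at the remaining points -/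
theorem small (Bl : BlaschkeSt) {M F : ℝ} {I J : ℕ} {S : Finset ℕ} {ν : ℕ → ℕ} {f : ℂ → ℂ}
    (hM : 2 ≤ M) (hF : 1 ≤ F)
    (hf1 : DiffContOnCl ℂ f (ball (((1 / M : ℝ)) : ℂ) (1 / (2 * M))))
    (hf2 : ∀ s ∈ closedBall (((1 / M : ℝ)) : ℂ) (1 / (2 * M)), ‖f s‖ ≤ F)
    (hS : ∀ m ∈ S, M ≤ m ∧ (m : ℝ) ≤ 11 / 10 * M ∧ f ((m : ℂ)⁻¹) = ((ν m : ℕ) : ℂ))
    (p : ℕ → ℕ → ℤ) (B : ℝ) (hp : ∀ i j, |(p i j : ℝ)| ≤ B)
    (hp0 : ∀ m ∈ S, ∑ i ∈ Finset.range (I + 1), ∑ j ∈ Finset.range (J + 1),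
        p i j * (m : ℤ) ^ i * (ν m : ℤ) ^ j = 0)
    {k : ℕ} (hk : M ≤ k ∧ (k : ℝ) ≤ 11 / 10 * M ∧ f ((k : ℂ)⁻¹) = ((ν k : ℕ) : ℂ)) :
    |((∑ i ∈ Finset.range (I + 1), ∑ j ∈ Finset.range (J + 1),
        p i j * (k : ℤ) ^ i * (ν k : ℤ) ^ j : ℤ) : ℝ)| ≤
      (11 / 10 * M) ^ I * ((((I : ℝ) + 1) * ((J : ℝ) + 1)) * B * F ^ J) * (1 / 5) ^ S.card := by
  classical
  have hM0 : 0 < M := by linarith
  let g : ℂ → ℂ := fun v => ∑ i ∈ Finset.range (I + 1), ∑ j ∈ Finset.range (J + 1),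
    (p i j : ℂ) * phi M v ^ (I - i) * f (phi M v) ^ j
  -- value at the points
  have hval : ∀ m : ℕ, M ≤ m → f ((m : ℂ)⁻¹) = ((ν m : ℕ) : ℂ) →
      g (((2 * (M / m - 1) : ℝ)) : ℂ) = ((m : ℂ) ^ I)⁻¹ *
        ((∑ i ∈ Finset.range (I + 1), ∑ j ∈ Finset.range (J + 1),
          p i j * (m : ℤ) ^ i * (ν m : ℤ) ^ j : ℤ) : ℂ) := by
    intro m hm hfm
    have hm0 : (m : ℂ) ≠ 0 := by
      have : (m : ℝ) ≠ 0 := by linarith
      exact_mod_cast this
    simp only [g]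
    rw [phi_at hM hm, hfm, Int.cast_sum, Finset.mul_sum]
    refine Finset.sum_congr rfl fun i hi => ?_
    rw [Int.cast_sum, Finset.mul_sum]
    refine Finset.sum_congr rfl fun j hj => ?_
    have hi' : i ≤ I := by
      have := Finset.mem_range.1 hi
      omega
    have h1 : (m : ℂ) ^ I = (m : ℂ) ^ (I - i) * (m : ℂ) ^ i := by
      rw [← pow_add]
      congr 1
      omega
    push_cast
    rw [h1, inv_pow]
    field_simp
  -- regularity
  have hphi : Differentiable ℂ (phi M) := by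
    unfold phi
    fun_prop
  have hmap : MapsTo (phi M) (ball 0 1) (ball (((1 / M : ℝ)) : ℂ) (1 / (2 * M))) := by
    intro v hv
    rw [mem_ball_iff_norm, phi_sub hM]
    rw [mem_ball_zero_iff] at hv
    have : 0 < 1 / (2 * M) := by positivity
    nlinarith
  have hmap' : ∀ v : ℂ, ‖v‖ ≤ 1 → phi M v ∈ closedBall (((1 / M : ℝ)) : ℂ) (1 / (2 * M)) := by
    intro v hv
    rw [mem_closedBall_iff_norm, phi_sub hM]
    have : 0 < 1 / (2 * M) := by positivity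
    nlinarith
  have hfp : DiffContOnCl ℂ (fun v => f (phi M v)) (ball 0 1) :=
    hf1.comp hphi.diffContOnCl hmap
  have hg : DiffContOnCl ℂ g (ball 0 1) := by
    constructor
    · refine DifferentiableOn.fun_sum fun i _ => DifferentiableOn.fun_sum fun j _ => ?_
      exact ((differentiableOn_const _).mul (hphi.differentiableOn.pow _)).mul
        (hfp.differentiableOn.pow _)
    · refine continuousOn_finsetSum _ fun i _ => continuousOn_finsetSum _ fun j _ => ?_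
      exact (continuousOn_const.mul (hphi.continuous.continuousOn.pow _)).mul
        (hfp.continuousOn.pow _)
  have hbound : ∀ w ∈ sphere (0 : ℂ) 1,
      ‖g w‖ ≤ (((I : ℝ) + 1) * ((J : ℝ) + 1)) * B * F ^ J := by
    intro w hw
    have hw1 : ‖w‖ ≤ 1 := by
      rw [mem_sphere_zero_iff_norm] at hw
      exact hw.le
    have hterm : ∀ i ∈ Finset.range (I + 1), ∀ j ∈ Finset.range (J + 1),
        ‖(p i j : ℂ) * phi M w ^ (I - i) * f (phi M w) ^ j‖ ≤ B * F ^ J := by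
      intro i _ j hj
      rw [norm_mul, norm_mul, norm_pow, norm_pow, Complex.norm_intCast]
      have h1 : ‖phi M w‖ ^ (I - i) ≤ 1 := pow_le_one₀ (norm_nonneg _) (phi_le hM hw1)
      have h2 : ‖f (phi M w)‖ ^ j ≤ F ^ J := by
        have hj' : j ≤ J := by
          have := Finset.mem_range.1 hj
          omega
        calc ‖f (phi M w)‖ ^ j ≤ F ^ j := by
              gcongr
              exact hf2 _ (hmap' w hw1)
          _ ≤ F ^ J := pow_le_pow_right₀ hF hj'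
      have hB : 0 ≤ B := (abs_nonneg _).trans (hp 0 0)
      calc |(p i j : ℝ)| * ‖phi M w‖ ^ (I - i) * ‖f (phi M w)‖ ^ j ≤ B * 1 * F ^ J := by
            gcongr
            exact hp i j
        _ = B * F ^ J := by ring
    calc ‖g w‖ ≤ ∑ i ∈ Finset.range (I + 1), ∑ j ∈ Finset.range (J + 1), B * F ^ J :=
          (norm_sum_le _ _).trans (Finset.sum_le_sum fun i hi =>
            (norm_sum_le _ _).trans (Finset.sum_le_sum fun j hj => hterm i hi j hj))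
      _ = (((I : ℝ) + 1) * ((J : ℝ) + 1)) * B * F ^ J := by
          simp only [Finset.sum_const, Finset.card_range, nsmul_eq_mul]
          push_cast
          ring
  -- the zeros
  let e : ℕ → ℂ := fun m => (((2 * (M / m - 1) : ℝ)) : ℂ)
  have hinj : Set.InjOn e S := by
    intro a ha b hb hab
    have ha0 : (0 : ℝ) < a := by linarith [(hS a ha).1]
    have hb0 : (0 : ℝ) < b := by linarith [(hS b hb).1]
    have h1 : 2 * (M / a - 1) = 2 * (M / b - 1) := Complex.ofReal_injective hab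
    have h2 : M / a = M / b := by linarith
    rw [div_eq_div_iff ha0.ne' hb0.ne'] at h2
    have h3 : (b : ℝ) = a := mul_left_cancel₀ hM0.ne' h2
    exact_mod_cast h3.symm
  have hlt : ∀ m : ℕ, M ≤ m → (m : ℝ) ≤ 11 / 10 * M → ‖e m‖ < 1 := by
    intro m h1 h2
    have := vrange hM h1 h2
    simp only [e]
    rw [Complex.norm_real, Real.norm_eq_abs, abs_lt]
    constructor <;> linarith
  have hZ : ∀ a ∈ S.image e, ‖a‖ < 1 ∧ g a = 0 := by
    intro a ha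
    obtain ⟨m, hm, rfl⟩ := Finset.mem_image.1 ha
    obtain ⟨h1, h2, h3⟩ := hS m hm
    refine ⟨hlt m h1 h2, ?_⟩
    have := hval m h1 h3
    rw [hp0 m hm, Int.cast_zero, mul_zero] at this
    exact this
  have hmain := Bl g _ (S.image e) (e k) hg hbound hZ (hlt k hk.1 hk.2.1)
  rw [Finset.prod_image hinj] at hmain
  have hprod : ∏ m ∈ S, ‖(e k - e m) / (1 - (starRingEnd ℂ) (e m) * e k)‖ ≤ (1 / 5) ^ S.card := by
    rw [← Finset.prod_const]
    refine Finset.prod_le_prod (fun m _ => norm_nonneg _) fun m hm => ?_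
    obtain ⟨h1, h2, _⟩ := hS m hm
    have hv := vrange hM h1 h2
    have hvk := vrange hM hk.1 hk.2.1
    exact factor hvk.1 hvk.2 hv.1 hv.2
  have hB : 0 ≤ B := (abs_nonneg _).trans (hp 0 0)
  have hgk : ‖g (e k)‖ ≤ (((I : ℝ) + 1) * ((J : ℝ) + 1)) * B * F ^ J * (1 / 5) ^ S.card := by
    refine hmain.trans ?_
    gcongr
  have hk0 : (0 : ℝ) < k := by linarith [hk.1]
  rw [hval k hk.1 hk.2.2, norm_mul, norm_inv, norm_pow, Complex.norm_natCast,
    Complex.norm_intCast] at hgk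
  have h5 : |((∑ i ∈ Finset.range (I + 1), ∑ j ∈ Finset.range (J + 1),
        p i j * (k : ℤ) ^ i * (ν k : ℤ) ^ j : ℤ) : ℝ)| ≤
      (k : ℝ) ^ I * ((((I : ℝ) + 1) * ((J : ℝ) + 1)) * B * F ^ J * (1 / 5) ^ S.card) := by
    rw [inv_mul_le_iff₀ (by positivity)] at hgk
    exact hgk
  calc _ ≤ _ := h5
    _ ≤ (11 / 10 * M) ^ I * ((((I : ℝ) + 1) * ((J : ℝ) + 1)) * B * F ^ J * (1 / 5) ^ S.card) := by
        gcongr
        exact hk.2.1
    _ = _ := by ring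

theorem logX {x d n f : ℝ} (hx : 0 < x) (hd : 0 < d) (hn : 0 < n) (hf : 0 < f) (I J : ℕ) :
    Real.log (x ^ I * (d * (d * (x ^ I * n ^ J)) * f ^ J)) =
      2 * I * Real.log x + 2 * Real.log d + J * (Real.log n + Real.log f) := by
  have h1 : x ^ I * (d * (d * (x ^ I * n ^ J)) * f ^ J) =
      (x ^ I * x ^ I) * (d * d) * ((n ^ J) * (f ^ J)) := by ring
  have hxI : x ^ I ≠ 0 := by positivity
  have hnJ : n ^ J ≠ 0 := by positivity
  have hfJ : f ^ J ≠ 0 := by positivity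
  rw [h1, Real.log_mul (mul_ne_zero (mul_ne_zero hxI hxI) (mul_ne_zero hd.ne' hd.ne'))
    (mul_ne_zero hnJ hfJ), Real.log_mul (mul_ne_zero hxI hxI) (mul_ne_zero hd.ne' hd.ne'),
    Real.log_mul hxI hxI, Real.log_mul hd.ne' hd.ne', Real.log_mul hnJ hfJ, Real.log_pow,
    Real.log_pow, Real.log_pow]
  ring

end ExtrapA

open ExtrapA in
theorem extrap (B : BlaschkeSt) : ExtrapSt := by
  intro M F N₁ I J S ν f hM hI hJ hF hN hS hf1 hf2 hnum
  classical
  have hM1 : 1 ≤ 11 / 10 * M := by linarith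
  set D : ℝ := ((I : ℝ) + 1) * ((J : ℝ) + 1) with hD
  set Q : ℝ := (11 / 10 * M) ^ I * N₁ ^ J with hQ
  have hQ1 : 1 ≤ Q := one_le_mul_of_one_le_of_one_le (one_le_pow₀ hM1) (one_le_pow₀ hN)
  have hD1 : 1 ≤ D := by
    have h1 : (0 : ℝ) ≤ I := Nat.cast_nonneg _
    have h2 : (0 : ℝ) ≤ J := Nat.cast_nonneg _
    nlinarith [mul_nonneg h1 h2]
  set n0 : ℕ := (I + 1) * (J + 1) / 2 with hn0
  have hbd : ∀ m ∈ S, ∀ i ≤ I, ∀ j ≤ J, (m : ℝ) ^ i * (ν m : ℝ) ^ j ≤ Q := by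
    intro m hm i hi j hj
    obtain ⟨h1, h2, h3, _⟩ := hS m hm
    have h4 : (m : ℝ) ^ i ≤ (11 / 10 * M) ^ I := by
      calc (m : ℝ) ^ i ≤ (11 / 10 * M) ^ i := by gcongr
        _ ≤ _ := pow_le_pow_right₀ hM1 hi
    have h5 : (ν m : ℝ) ^ j ≤ N₁ ^ J := by
      calc (ν m : ℝ) ^ j ≤ N₁ ^ j := by gcongr
        _ ≤ _ := pow_le_pow_right₀ hN hj
    rw [hQ]
    gcongr
  by_cases hcard : S.card ≤ n0
  · obtain ⟨p, h1, _, h3⟩ := exists_poly I J S ν Q hQ1 (by omega) hbd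
    exact ⟨p, h1, h3⟩
  · obtain ⟨S0, hS0, hS0c⟩ := Finset.exists_subset_card_eq (not_le.1 hcard).le
    obtain ⟨p, h1, h2, h3⟩ := exists_poly I J S0 ν Q hQ1 (by omega)
      (fun m hm => hbd m (hS0 hm))
    refine ⟨p, h1, fun k hk => ?_⟩
    have hk' := hS k hk
    have hsm := small B hM hF hf1 hf2 (S := S0)
      (fun m hm => ⟨(hS m (hS0 hm)).1, (hS m (hS0 hm)).2.1, (hS m (hS0 hm)).2.2.2⟩) p _ h2 h3
      (k := k) ⟨hk'.1, hk'.2.1, hk'.2.2.2⟩
    rw [hS0c] at hsm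
    have hX : (11 / 10 * M) ^ I * (D * (D * Q) * F ^ J) < 5 ^ n0 := by
      have hpos : 0 < (11 / 10 * M) ^ I * (D * (D * Q) * F ^ J) := by positivity
      rw [← Real.log_lt_log_iff hpos (by positivity), Real.log_pow]
      have hlog := logX (show 0 < 11 / 10 * M by positivity) (show 0 < D by positivity)
        (show 0 < N₁ by positivity) (show 0 < F by positivity) I J
      rw [← hQ] at hlog
      rw [hlog]
      refine hnum.trans_le ?_
      have h6 : D - 1 ≤ 2 * (n0 : ℝ) := by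
        have : (I + 1) * (J + 1) ≤ 2 * n0 + 1 := by omega
        have h7 : (((I + 1) * (J + 1) : ℕ) : ℝ) ≤ ((2 * n0 + 1 : ℕ) : ℝ) := by exact_mod_cast this
        push_cast at h7
        linarith
      have h8 := log5
      have h9 : (0 : ℝ) ≤ n0 := Nat.cast_nonneg _
      nlinarith
    have hlt1 : |((∑ i ∈ Finset.range (I + 1), ∑ j ∈ Finset.range (J + 1),
        p i j * (k : ℤ) ^ i * (ν k : ℤ) ^ j : ℤ) : ℝ)| < 1 := by
      refine hsm.trans_lt ?_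
      calc (11 / 10 * M) ^ I * (D * (D * Q) * F ^ J) * (1 / 5) ^ n0
          < 5 ^ n0 * (1 / 5) ^ n0 := by gcongr
        _ = 1 := by rw [← mul_pow]; norm_num
    rw [← Int.cast_abs] at hlt1
    have h10 : |∑ i ∈ Finset.range (I + 1), ∑ j ∈ Finset.range (J + 1),
        p i j * (k : ℤ) ^ i * (ν k : ℤ) ^ j| < 1 := by exact_mod_cast hlt1
    exact Int.abs_lt_one_iff.1 h10

end Pool.Agent.H86.SM
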