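import Pool.Agent.H86.SM.St

/-! # An exact analytic function through finitely many solutions -/

namespace Pool.Agent.H86.SM

open Metric Set

namespace InterpA

/-- Lagrange interpolation as an explicit function. -/
noncomputable def lag (S : Finset ℕ) (ε : ℕ → ℂ) (s : ℂ) : ℂ :=
  ∑ m ∈ S, ε m * ∏ k ∈ S.erase m, (s - (k : ℂ)⁻¹) / ((m : ℂ)⁻¹ - (k : ℂ)⁻¹)

theorem lag_diff (S : Finset ℕ) (ε : ℕ → ℂ) : Differentiable ℂ (lag S ε) := by
  unfold lag
  intro s
  apply DifferentiableAt.fun_sum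
  intro m _
  apply DifferentiableAt.const_mul
  apply DifferentiableAt.fun_finsetProd
  intro k _
  exact ((differentiableAt_id).sub_const _).div_const _

theorem inv_inj {m k : ℕ} (h : m ≠ k) : (m : ℂ)⁻¹ - (k : ℂ)⁻¹ ≠ 0 := by
  intro h0
  have h1 : (m : ℂ)⁻¹ = (k : ℂ)⁻¹ := sub_eq_zero.mp h0
  have h2 : (m : ℂ) = (k : ℂ) := inv_injective h1
  exact h (by exact_mod_cast h2)

theorem lag_eval (S : Finset ℕ) (ε : ℕ → ℂ) (m : ℕ) (hm : m ∈ S) :
    lag S ε ((m : ℂ)⁻¹) = ε m := by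
  unfold lag
  rw [Finset.sum_eq_single m]
  · have : ∏ k ∈ S.erase m, ((m : ℂ)⁻¹ - (k : ℂ)⁻¹) / ((m : ℂ)⁻¹ - (k : ℂ)⁻¹) = 1 := by
      apply Finset.prod_eq_one
      intro k hk
      exact div_self (inv_inj (fun h => (Finset.mem_erase.mp hk).1 h.symm))
    rw [this, mul_one]
  · intro b _ hbm
    have : ∏ k ∈ S.erase b, ((m : ℂ)⁻¹ - (k : ℂ)⁻¹) / ((b : ℂ)⁻¹ - (k : ℂ)⁻¹) = 0 := by
      apply Finset.prod_eq_zero (i := m)
      · exact Finset.mem_erase.mpr ⟨fun h => hbm h.symm, hm⟩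
      · rw [sub_self, zero_div]
    rw [this, mul_zero]
  · intro h
    exact absurd hm h

theorem lag_bound (S : Finset ℕ) (ε : ℕ → ℂ) (s : ℂ) (E B : ℝ) (hE : 0 ≤ E) (hB : 1 ≤ B)
    (hε : ∀ m ∈ S, ‖ε m‖ ≤ E)
    (h : ∀ m ∈ S, ∀ k ∈ S, m ≠ k → ‖(s - (k : ℂ)⁻¹) / ((m : ℂ)⁻¹ - (k : ℂ)⁻¹)‖ ≤ B) :
    ‖lag S ε s‖ ≤ S.card * (E * B ^ S.card) := by
  unfold lag
  refine (norm_sum_le _ _).trans ?_
  rw [← nsmul_eq_mul]
  apply Finset.sum_le_card_nsmul
  intro m hm
  rw [norm_mul, norm_prod]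
  have h1 : ∏ k ∈ S.erase m, ‖(s - (k : ℂ)⁻¹) / ((m : ℂ)⁻¹ - (k : ℂ)⁻¹)‖ ≤ B ^ S.card := by
    calc ∏ k ∈ S.erase m, ‖(s - (k : ℂ)⁻¹) / ((m : ℂ)⁻¹ - (k : ℂ)⁻¹)‖
        ≤ ∏ k ∈ S.erase m, B := by
          apply Finset.prod_le_prod
          · intro k _; exact norm_nonneg _
          · intro k hk
            have := Finset.mem_erase.mp hk
            exact h m hm k this.2 (fun e => this.1 e.symm)
      _ = B ^ (S.erase m).card := by rw [Finset.prod_const]
      _ ≤ B ^ S.card := pow_le_pow_right₀ hB (Finset.card_le_card (Finset.erase_subset _ _))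
  exact mul_le_mul (hε m hm) h1 (Finset.prod_nonneg (fun k _ => norm_nonneg _)) hE

end InterpA

open InterpA

theorem interp (A : ArithSt) (W : IterSt) : InterpSt := by
  intro t K M R S ν ht hK hM hL hR hS hKR hnum
  have hM0 : 0 < M := by linarith
  have hR0 : 0 < R := lt_of_lt_of_le (by positivity) hR
  have htpos : (0 : ℝ) < t := by exact_mod_cast (by omega : 0 < t)
  have hLpos : 0 < Real.log t := by linarith
  obtain ⟨w, hwd, hwr, hws⟩ := W t K ht hK
  set L := Real.log t with hLdef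
  set c0 : ℂ := (((R + 1 / (2 * M) : ℝ)) : ℂ) with hc0
  have hK1 : (1 : ℝ) ≤ K := by exact_mod_cast hK
  have h2M : (0 : ℝ) < 1 / (2 * M) := by positivity
  -- the closed disc
  have hre : ∀ s ∈ closedBall c0 R, 1 / (2 * M) ≤ s.re := by
    intro s hs
    have h1 : ‖s - c0‖ ≤ R := by rw [mem_closedBall, dist_eq_norm] at hs; exact hs
    have h2 : |(s - c0).re| ≤ ‖s - c0‖ := Complex.abs_re_le_norm _
    have h3 : (s - c0).re = s.re - (R + 1 / (2 * M)) := by
      rw [hc0, Complex.sub_re, Complex.ofReal_re]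
    rw [h3] at h2
    have h4 := (abs_le.mp h2).1
    linarith
  have hnorm : ∀ s ∈ closedBall c0 R, ‖s‖ ≤ 2 * R + 1 / (2 * M) := by
    intro s hs
    have h1 : ‖s - c0‖ ≤ R := by rw [mem_closedBall, dist_eq_norm] at hs; exact hs
    have h2 : ‖c0‖ = R + 1 / (2 * M) := by
      rw [hc0, Complex.norm_real, Real.norm_eq_abs, abs_of_nonneg (by positivity)]
    have h3 : ‖s‖ ≤ ‖s - c0‖ + ‖c0‖ := by
      have := norm_add_le (s - c0) c0
      rwa [sub_add_cancel] at this
    linarith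
  have hsub : closedBall c0 R ⊆ Om t K := by
    intro s hs
    refine ⟨?_, ?_⟩
    · have h1 := hre s hs
      have h2 : 15 / 2 ≤ L * (1 / (2 * M)) := by
        rw [mul_one_div, div_le_div_iff₀ (by norm_num) (by positivity)]
        linarith
      have h3 : L * (1 / (2 * M)) ≤ L * s.re := mul_le_mul_of_nonneg_left h1 hLpos.le
      linarith
    · have h1 := hnorm s hs
      have h2 : 2 * ((K : ℝ) + 1) * ‖s‖ ≤ 2 * ((K : ℝ) + 1) * (2 * R + 1 / (2 * M)) :=
        mul_le_mul_of_nonneg_left h1 (by positivity)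
      linarith
  -- the points
  have hpt : ∀ m ∈ S, ((m : ℂ)⁻¹) ∈ closedBall c0 R := by
    intro m hm
    obtain ⟨h1, h2, -, -⟩ := hS m hm
    have hm0 : (0 : ℝ) < m := by linarith
    rw [mem_closedBall, dist_eq_norm]
    have e : (m : ℂ)⁻¹ - c0 = (((m : ℝ)⁻¹ - (R + 1 / (2 * M)) : ℝ) : ℂ) := by
      rw [hc0]; push_cast; ring
    rw [e, Complex.norm_real, Real.norm_eq_abs, abs_le]
    have h3 : (m : ℝ)⁻¹ ≤ 1 / M := by
      rw [inv_eq_one_div]; exact one_div_le_one_div_of_le hM0 h1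
    have h4 : 1 / (2 * M) ≤ (m : ℝ)⁻¹ := by
      rw [inv_eq_one_div]; exact one_div_le_one_div_of_le hm0 (by linarith)
    constructor <;> linarith
  -- the errors
  set ε : ℕ → ℂ := fun m => ((ν m : ℕ) : ℂ) - Complex.exp (w ((m : ℂ)⁻¹)) with hεdef
  set E : ℝ := 2 * (11 / 10 * M * Real.exp (L / M)) * (1 / 3) ^ K with hE
  have hE0 : 0 ≤ E := by positivity
  have hεb : ∀ m ∈ S, ‖ε m‖ ≤ E := by
    intro m hm
    obtain ⟨h1, h2, h3, h4⟩ := hS m hm
    have hm0 : (0 : ℝ) < m := by linarith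
    have hm1 : 1 ≤ m := by
      have : (0 : ℕ) < m := by exact_mod_cast hm0
      omega
    have hν0 : (0 : ℝ) < (ν m : ℝ) := by
      have : 0 < ν m := by omega
      exact_mod_cast this
    have h5 := hws m (ν m) hm1 h3 h4 (hsub (hpt m hm))
    set d : ℂ := w ((m : ℂ)⁻¹) - ((Real.log (ν m) : ℝ) : ℂ) with hd
    have h6 : Complex.exp (w ((m : ℂ)⁻¹)) = ((ν m : ℕ) : ℂ) * Complex.exp d := by
      have : w ((m : ℂ)⁻¹) = ((Real.log (ν m) : ℝ) : ℂ) + d := by rw [hd]; ring
      rw [this, Complex.exp_add, ← Complex.ofReal_exp, Real.exp_log hν0]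
      simp
    have h7 : ε m = -(((ν m : ℕ) : ℂ) * (Complex.exp d - 1)) := by
      rw [hεdef]; simp only []; rw [h6]; ring
    have h13 : ((1 : ℝ) / 3) ^ K ≤ 1 := pow_le_one₀ (by norm_num) (by norm_num)
    have h8 : ‖Complex.exp d - 1‖ ≤ 2 * ‖d‖ := Complex.norm_exp_sub_one_le (h5.trans h13)
    have h9 : (ν m : ℝ) ≤ 11 / 10 * M * Real.exp (L / M) := by
      have h10 := A.low (ν m) m hm1 h3
      rw [h4] at h10
      have h11 : Real.log ((ν m : ℝ) / m) ≤ L / M := by
        have : Real.log ((ν m : ℝ) / m) ≤ L / m := by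
          rw [le_div_iff₀ hm0]; linarith
        exact this.trans (div_le_div_of_nonneg_left hLpos.le hM0 h1)
      have h12 : (ν m : ℝ) / m ≤ Real.exp (L / M) := by
        rw [← Real.exp_log (div_pos hν0 hm0)]
        exact Real.exp_le_exp.mpr h11
      rw [div_le_iff₀ hm0] at h12
      calc (ν m : ℝ) ≤ Real.exp (L / M) * m := h12
        _ ≤ Real.exp (L / M) * (11 / 10 * M) := mul_le_mul_of_nonneg_left h2 (Real.exp_pos _).le
        _ = _ := by ring
    rw [h7, norm_neg, norm_mul, Complex.norm_natCast]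
    calc (ν m : ℝ) * ‖Complex.exp d - 1‖
        ≤ (11 / 10 * M * Real.exp (L / M)) * (2 * (1 / 3) ^ K) := by
          apply mul_le_mul h9 _ (norm_nonneg _) (by positivity)
          linarith
      _ = E := by rw [hE]; ring
  -- the bound of the correction
  set B : ℝ := 4 * R * M ^ 2 with hB
  have hB1 : 1 ≤ B := by
    have h1 : 1 ≤ R * M := by rwa [div_le_iff₀ hM0] at hR
    have h2 : B = 4 * (R * M) * M := by rw [hB]; ring
    rw [h2]
    have h3 : 4 * 1 * 2 ≤ 4 * (R * M) * M :=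
      mul_le_mul (by linarith) hM (by norm_num) (by positivity)
    linarith
  have hfac : ∀ s ∈ closedBall c0 R, ∀ m ∈ S, ∀ k ∈ S, m ≠ k →
      ‖(s - (k : ℂ)⁻¹) / ((m : ℂ)⁻¹ - (k : ℂ)⁻¹)‖ ≤ B := by
    intro s hs m hm k hk hmk
    have h1 : ‖s - (k : ℂ)⁻¹‖ ≤ 2 * R := by
      have := dist_triangle_right s ((k : ℂ)⁻¹) c0
      rw [dist_eq_norm] at this
      have h2 := mem_closedBall.mp hs
      have h3 := mem_closedBall.mp (hpt k hk)
      linarith
    obtain ⟨hm1, hm2, -, -⟩ := hS m hm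
    obtain ⟨hk1, hk2, -, -⟩ := hS k hk
    have hm0 : (0 : ℝ) < m := by linarith
    have hk0 : (0 : ℝ) < k := by linarith
    have h4 : 1 / (121 / 100 * M ^ 2) ≤ ‖(m : ℂ)⁻¹ - (k : ℂ)⁻¹‖ := by
      have e : (m : ℂ)⁻¹ - (k : ℂ)⁻¹ = ((((k : ℝ) - m) / ((m : ℝ) * k) : ℝ) : ℂ) := by
        have hmc : (m : ℂ) ≠ 0 := by exact_mod_cast hm0.ne'
        have hkc : (k : ℂ) ≠ 0 := by exact_mod_cast hk0.ne'
        push_cast
        field_simp
      rw [e, Complex.norm_real, Real.norm_eq_abs, abs_div, abs_of_pos (mul_pos hm0 hk0)]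
      have h5 : 1 ≤ |(k : ℝ) - m| := by
        have h6 : ((k : ℤ) - (m : ℤ)) ≠ 0 := by
          intro h; apply hmk; omega
        have h7 : (1 : ℤ) ≤ |(k : ℤ) - (m : ℤ)| := Int.one_le_abs h6
        have h8 : ((1 : ℤ) : ℝ) ≤ ((|(k : ℤ) - (m : ℤ)| : ℤ) : ℝ) := by exact_mod_cast h7
        push_cast at h8
        exact h8
      have h9 : (m : ℝ) * k ≤ 121 / 100 * M ^ 2 := by
        calc (m : ℝ) * k ≤ (11 / 10 * M) * (11 / 10 * M) :=
              mul_le_mul hm2 hk2 hk0.le (by positivity)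
          _ = _ := by ring
      rw [div_le_div_iff₀ (by positivity) (mul_pos hm0 hk0)]
      calc 1 * ((m : ℝ) * k) = (m : ℝ) * k := by ring
        _ ≤ 121 / 100 * M ^ 2 := h9
        _ ≤ |(k : ℝ) - m| * (121 / 100 * M ^ 2) := by
          have : 0 ≤ 121 / 100 * M ^ 2 := by positivity
          nlinarith
    have h10 : 0 < 1 / (121 / 100 * M ^ 2) := by positivity
    rw [norm_div, div_le_iff₀ (lt_of_lt_of_le h10 h4)]
    calc ‖s - (k : ℂ)⁻¹‖ ≤ 2 * R := h1
      _ ≤ B * (1 / (121 / 100 * M ^ 2)) := by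
        rw [hB, mul_one_div, le_div_iff₀ (by positivity)]
        have : 0 < R * M ^ 2 := by positivity
        nlinarith
      _ ≤ B * ‖(m : ℂ)⁻¹ - (k : ℂ)⁻¹‖ := mul_le_mul_of_nonneg_left h4 (by positivity)
  -- the numerical hypothesis
  have hnum' : B ^ S.card * (4 * ((S.card : ℝ) + 1) * M) * Real.exp (L / M) ≤ 3 ^ K := by
    have hB0 : 0 < B := by linarith
    have hX : (0 : ℝ) < 4 * ((S.card : ℝ) + 1) * M := by positivity
    have h1 : Real.log (B ^ S.card * (4 * ((S.card : ℝ) + 1) * M) * Real.exp (L / M)) ≤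
        Real.log (3 ^ K) := by
      rw [Real.log_mul (by positivity) (Real.exp_ne_zero _), Real.log_mul (by positivity) hX.ne',
        Real.log_pow, Real.log_exp, Real.log_pow]
      exact hnum
    exact (Real.log_le_log_iff (by positivity) (by positivity)).mp h1
  have hlag : ∀ s ∈ closedBall c0 R, ‖lag S ε s‖ ≤ 1 := by
    intro s hs
    have h1 := lag_bound S ε s E B hE0 hB1 hεb (fun m hm k hk h => hfac s hs m hm k hk h)
    refine h1.trans ?_
    have h3K : (0 : ℝ) < 3 ^ K := by positivity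
    have h2 : (1 / 3 : ℝ) ^ K = (3 ^ K)⁻¹ := by rw [one_div, inv_pow]
    have hc : (0 : ℝ) ≤ (S.card : ℝ) := Nat.cast_nonneg _
    rw [hE, h2]
    have e : (S.card : ℝ) * (2 * (11 / 10 * M * Real.exp (L / M)) * (3 ^ K)⁻¹ * B ^ S.card) =
        (22 / 10 * (B ^ S.card * (S.card : ℝ) * M * Real.exp (L / M))) / 3 ^ K := by
      field_simp; ring
    rw [e, div_le_one h3K]
    have hP : 0 ≤ B ^ S.card * M * Real.exp (L / M) := by positivity
    have h5 : B ^ S.card * (S.card : ℝ) * M * Real.exp (L / M) =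
      (S.card : ℝ) * (B ^ S.card * M * Real.exp (L / M)) := by ring
    have h6 : B ^ S.card * (4 * ((S.card : ℝ) + 1) * M) * Real.exp (L / M) =
      4 * ((S.card : ℝ) + 1) * (B ^ S.card * M * Real.exp (L / M)) := by ring
    rw [h5]
    rw [h6] at hnum'
    nlinarith [mul_nonneg hc hP]
  refine ⟨fun s => Complex.exp (w s) + lag S ε s, ?_, ?_, ?_⟩
  · have h1 : DifferentiableOn ℂ (fun s => Complex.exp (w s) + lag S ε s) (Om t K) :=
      (hwd.cexp).add (lag_diff S ε).differentiableOn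
    exact h1.diffContOnCl_ball hsub
  · intro s hs
    have hsO := hsub hs
    have h1 := hwr s hsO
    have h2 := hre s hs
    have h3 := hlag s hs
    have hs0 : 0 < ‖s‖ := by
      have := Complex.abs_re_le_norm s
      have h4 : s.re ≤ |s.re| := le_abs_self _
      linarith
    have hs1 : 4 * ‖s‖ ≤ 1 := by
      have h5 := hsO.2
      have : 2 * (1 + 1) * ‖s‖ ≤ 2 * ((K : ℝ) + 1) * ‖s‖ :=
        mul_le_mul_of_nonneg_right (by linarith) hs0.le
      linarith
    have hlog4 : Real.log 4 ≤ Real.log (1 / ‖s‖) := by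
      apply Real.log_le_log (by norm_num)
      rw [le_div_iff₀ hs0]; linarith
    have hlogM : Real.log (1 / ‖s‖) ≤ Real.log (2 * M) := by
      apply Real.log_le_log (by positivity)
      rw [div_le_iff₀ hs0]
      have h5 : 1 / (2 * M) ≤ ‖s‖ := h2.trans ((le_abs_self _).trans (Complex.abs_re_le_norm s))
      rw [div_le_iff₀ (by positivity)] at h5
      linarith
    have hLs : 15 / 2 ≤ L * s.re := by
      have h4 : 15 / 2 ≤ L * (1 / (2 * M)) := by
        rw [mul_one_div, div_le_div_iff₀ (by norm_num) (by positivity)]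
        linarith
      have h5 : L * (1 / (2 * M)) ≤ L * s.re := mul_le_mul_of_nonneg_left h2 hLpos.le
      linarith
    obtain ⟨ha, hb⟩ := abs_le.mp h1
    have hlog4' : 0 ≤ Real.log 4 := Real.log_nonneg (by norm_num)
    -- the size of exp w
    set X : ℝ := ‖Complex.exp (w s)‖ with hX
    have hXe : X = Real.exp (w s).re := by rw [hX, Complex.norm_exp]
    have hlogX : Real.log X = (w s).re := by rw [hXe, Real.log_exp]
    have hX8 : 8 ≤ X := by
      have h5 : 5 / 2 + Real.log 4 ≤ (w s).re := by linarith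
      have h6 : Real.exp (1 + Real.log 4) ≤ X := by
        rw [hXe]; exact Real.exp_le_exp.mpr (by linarith)
      rw [Real.exp_add, Real.exp_log (by norm_num)] at h6
      have h7 : (2 : ℝ) ≤ Real.exp 1 := by
        have := Real.add_one_le_exp (1 : ℝ); linarith
      linarith
    have hX0 : 0 < X := by linarith
    set Y : ℝ := ‖Complex.exp (w s) + lag S ε s‖ with hY
    have hYl : X - 1 ≤ Y := by
      have := norm_sub_le (Complex.exp (w s) + lag S ε s) (lag S ε s)
      rw [add_sub_cancel_right] at this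
      linarith
    have hYu : Y ≤ X + 1 := by
      have := norm_add_le (Complex.exp (w s)) (lag S ε s)
      linarith
    have hY0 : 0 < Y := by linarith
    refine ⟨?_, ?_⟩
    · intro h0
      have : Y = 0 := by rw [hY]; simp only [] at h0; rw [h0, norm_zero]
      linarith
    · have hup : Real.log Y ≤ Real.log X + 1 / 8 := by
        have h5 : Real.log (Y / X) ≤ Y / X - 1 := Real.log_le_sub_one_of_pos (by positivity)
        rw [Real.log_div hY0.ne' hX0.ne'] at h5
        have h6 : Y / X - 1 ≤ 1 / 8 := by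
          rw [sub_le_iff_le_add, div_le_iff₀ hX0]; linarith
        linarith
      have hlo : Real.log X ≤ Real.log Y + 1 / 7 := by
        have h5 : Real.log (X / Y) ≤ X / Y - 1 := Real.log_le_sub_one_of_pos (by positivity)
        rw [Real.log_div hX0.ne' hY0.ne'] at h5
        have h6 : X / Y - 1 ≤ 1 / 7 := by
          rw [sub_le_iff_le_add, div_le_iff₀ hY0]; linarith
        linarith
      rw [hlogX] at hup hlo
      rw [abs_le]
      constructor <;> linarith
  · intro m hm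
    show Complex.exp (w ((m : ℂ)⁻¹)) + lag S ε ((m : ℂ)⁻¹) = ((ν m : ℕ) : ℂ)
    rw [lag_eval S ε m hm]
    simp only [hεdef]
    ring

end Pool.Agent.H86.SM
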