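import Pool.Agent.H86.SM.St

/-! # The iteration -/

namespace Pool.Agent.H86.SM

open Metric Set

namespace IterA

/-- the iterates -/
noncomputable def Wn (K : ℕ) (L0 : ℂ → ℂ) : ℕ → ℂ → ℂ
  | 0 => L0
  | j + 1 => fun s => L0 s + Psi K s (Wn K L0 j s)

theorem sig_diff (k : ℕ) : Differentiable ℂ (sig k) := by
  unfold sig
  fun_prop

theorem Psi_diff (K : ℕ) {W : ℂ → ℂ} {U : Set ℂ} (hU : ∀ s ∈ U, s ≠ 0)
    (hW : DifferentiableOn ℂ W U) : DifferentiableOn ℂ (fun s => Psi K s (W s)) U := by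
  unfold Psi
  refine differentiableOn_id.mul ?_
  refine DifferentiableOn.fun_sum fun k _ => ?_
  refine DifferentiableOn.div ?_ ?_ ?_
  · exact (sig_diff (k + 1)).comp_differentiableOn (differentiableOn_id.inv hU)
  · exact (differentiableOn_const _).mul ((hW.const_mul _).cexp)
  · intro s _
    refine mul_ne_zero ?_ (Complex.exp_ne_zero _)
    exact Nat.cast_add_one_ne_zero k

theorem Wn_diff (K : ℕ) {L0 : ℂ → ℂ} {U : Set ℂ} (hU : ∀ s ∈ U, s ≠ 0)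
    (hL : DifferentiableOn ℂ L0 U) (j : ℕ) : DifferentiableOn ℂ (Wn K L0 j) U := by
  induction j with
  | zero => exact hL
  | succ j ih => exact hL.add (Psi_diff K hU ih)

theorem log8 : Real.log 8 ≤ 5 / 2 := by
  have h : Real.log 8 = 3 * Real.log 2 := by
    rw [show (8 : ℝ) = 2 ^ 3 by norm_num, Real.log_pow]
    norm_num
  have := Real.log_two_lt_d9
  rw [h]
  linarith

/-- facts on the domain -/
theorem om_facts {t K : ℕ} (ht : 2 ≤ t) (hK : 1 ≤ K) {s : ℂ} (hs : s ∈ Om t K) :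
    0 < s.re ∧ s ≠ 0 ∧ 0 < (s⁻¹).re ∧ 1 ≤ ‖s⁻¹‖ := by
  obtain ⟨h1, h2⟩ := hs
  have hlog : 0 < Real.log t := Real.log_pos (by exact_mod_cast ht)
  have hre : 0 < s.re := by
    by_contra h
    have := mul_nonpos_of_nonneg_of_nonpos hlog.le (not_lt.1 h)
    linarith
  have hs0 : s ≠ 0 := by
    rintro rfl
    simp at hre
  refine ⟨hre, hs0, ?_, ?_⟩
  · rw [Complex.inv_re]
    have : 0 < Complex.normSq s := Complex.normSq_pos.2 hs0
    positivity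
  · rw [norm_inv]
    have hn : 0 < ‖s‖ := norm_pos_iff.2 hs0
    rw [one_le_inv₀ hn]
    have hK' : (1 : ℝ) ≤ K := by exact_mod_cast hK
    nlinarith

/-- the leading term -/
noncomputable def L0 (t : ℕ) (lam : ℂ → ℂ) (s : ℂ) : ℂ :=
  ((Real.log t : ℝ) : ℂ) * s + s * lam s⁻¹

theorem L0_re {t K : ℕ} {lam : ℂ → ℂ} (hl : IsLam lam) (ht : 2 ≤ t) (hK : 1 ≤ K) {s : ℂ}
    (hs : s ∈ Om t K) :
    |(L0 t lam s).re - Real.log t * s.re - Real.log (1 / ‖s‖)| ≤ 4 := by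
  obtain ⟨h1, h2, h3, h4⟩ := om_facts ht hK hs
  have h5 := hl.2.2 s⁻¹ h3 h4
  have h6 : (L0 t lam s).re - Real.log t * s.re - Real.log (1 / ‖s‖) =
      (lam s⁻¹ / s⁻¹ - Complex.log s⁻¹).re := by
    unfold L0
    rw [Complex.add_re, Complex.re_ofReal_mul, Complex.sub_re, Complex.log_re, norm_inv, one_div,
      div_inv_eq_mul, mul_comm (lam s⁻¹) s]
    ring
  rw [h6]
  exact (Complex.abs_re_le_norm _).trans h5

theorem L0_diff {t K : ℕ} {lam : ℂ → ℂ} (hl : IsLam lam) (ht : 2 ≤ t) (hK : 1 ≤ K) :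
    DifferentiableOn ℂ (L0 t lam) (Om t K) := by
  unfold L0
  refine ((differentiableOn_const _).mul differentiableOn_id).add (differentiableOn_id.mul ?_)
  refine hl.1.comp (differentiableOn_id.inv fun s hs => (om_facts ht hK hs).2.1) ?_
  intro s hs
  exact (om_facts ht hK hs).2.2.1

theorem re_of_close {t K : ℕ} {lam : ℂ → ℂ} (hl : IsLam lam) (ht : 2 ≤ t) (hK : 1 ≤ K) {s w : ℂ}
    (hs : s ∈ Om t K) (hw : ‖w - L0 t lam s‖ ≤ 1 / 7) :
    Real.log 8 + Real.log (1 / ‖s‖) ≤ w.re := by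
  have h1 := abs_le.1 (L0_re hl ht hK hs)
  have h2 := abs_le.1 ((Complex.abs_re_le_norm _).trans hw)
  rw [Complex.sub_re] at h2
  have h3 := hs.1
  have h4 := log8
  linarith [h1.1, h2.1]

theorem Wn_close {t K : ℕ} {lam : ℂ → ℂ} (hl : IsLam lam) (P : PsiSt) (ht : 2 ≤ t) (hK : 1 ≤ K)
    {s : ℂ} (hs : s ∈ Om t K) (j : ℕ) : ‖Wn K (L0 t lam) j s - L0 t lam s‖ ≤ 1 / 7 := by
  induction j with
  | zero =>
    simp only [Wn, sub_self, norm_zero]
    norm_num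
  | succ j ih =>
    have h1 := re_of_close hl ht hK hs ih
    have h2 := (P K s _ _ (om_facts ht hK hs).2.1 hs.2 h1 h1).1
    simp only [Wn, add_sub_cancel_left]
    exact h2

theorem err {m n : ℕ} (K : ℕ) (hm : 1 ≤ m) (hq : 8 * (m : ℝ) ≤ n) :
    |∑ i ∈ Finset.range m, Real.log (1 - (i : ℝ) / n) + ∑ k ∈ Finset.range K,
      (∑ i ∈ Finset.range m, (i : ℝ) ^ (k + 1)) / (((k : ℝ) + 1) * (n : ℝ) ^ (k + 1))| ≤
      m * ((1 / 8) ^ K / 7) := by
  have hm' : (1 : ℝ) ≤ m := by exact_mod_cast hm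
  have hn : (0 : ℝ) < n := by linarith
  have h1 : ∑ i ∈ Finset.range m, Real.log (1 - (i : ℝ) / n) + ∑ k ∈ Finset.range K,
      (∑ i ∈ Finset.range m, (i : ℝ) ^ (k + 1)) / (((k : ℝ) + 1) * (n : ℝ) ^ (k + 1)) =
      ∑ i ∈ Finset.range m, ((∑ k ∈ Finset.range K, ((i : ℝ) / n) ^ (k + 1) / ((k : ℝ) + 1)) +
        Real.log (1 - (i : ℝ) / n)) := by
    rw [Finset.sum_add_distrib, Finset.sum_comm, add_comm]
    congr 1
    refine Finset.sum_congr rfl fun k _ => ?_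
    rw [Finset.sum_div]
    refine Finset.sum_congr rfl fun i _ => ?_
    rw [div_pow, div_div, mul_comm]
  rw [h1]
  have h2 : ∀ i ∈ Finset.range m,
      |(∑ k ∈ Finset.range K, ((i : ℝ) / n) ^ (k + 1) / ((k : ℝ) + 1)) +
        Real.log (1 - (i : ℝ) / n)| ≤ (1 / 8) ^ K / 7 := by
    intro i hi
    have hi' : (i : ℝ) ≤ m := by exact_mod_cast (Finset.mem_range.1 hi).le
    have hi0 : (0 : ℝ) ≤ (i : ℝ) / n := by positivity
    have hx : (i : ℝ) / n ≤ 1 / 8 := by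
      rw [div_le_iff₀ hn]
      linarith
    have h3 := Real.abs_log_sub_add_sum_range_le (x := (i : ℝ) / n)
      (by rw [abs_of_nonneg hi0]; linarith) K
    rw [abs_of_nonneg hi0] at h3
    refine h3.trans ?_
    rw [div_le_iff₀ (by linarith)]
    have h4 : ((i : ℝ) / n) ^ (K + 1) ≤ (1 / 8) ^ (K + 1) := by gcongr
    have h5 : (0 : ℝ) < (1 / 8) ^ K := by positivity
    rw [pow_succ (1 / 8 : ℝ)] at h4
    nlinarith
  calc _ ≤ ∑ i ∈ Finset.range m, |(∑ k ∈ Finset.range K, ((i : ℝ) / n) ^ (k + 1) / ((k : ℝ) + 1)) +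
        Real.log (1 - (i : ℝ) / n)| := Finset.abs_sum_le_sum_abs _ _
    _ ≤ ∑ i ∈ Finset.range m, ((1 / 8) ^ K / 7 : ℝ) := Finset.sum_le_sum h2
    _ = m * ((1 / 8) ^ K / 7) := by rw [Finset.sum_const, Finset.card_range, nsmul_eq_mul]

theorem Psi_at (G : SigSt) (K : ℕ) {m n : ℕ} (hn : 1 ≤ n) :
    Psi K ((m : ℂ)⁻¹) ((Real.log n : ℝ) : ℂ) =
      (((m : ℝ)⁻¹ * ∑ k ∈ Finset.range K,
        (∑ i ∈ Finset.range m, (i : ℝ) ^ (k + 1)) / (((k : ℝ) + 1) * (n : ℝ) ^ (k + 1)) : ℝ) : ℂ) := by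
  unfold Psi
  rw [inv_inv]
  push_cast
  congr 1
  refine Finset.sum_congr rfl fun k _ => ?_
  rw [G.nat]
  have hn0 : (n : ℂ) ≠ 0 := by
    have : n ≠ 0 := by omega
    exact_mod_cast this
  have h1 : Complex.exp (((k : ℂ) + 1) * Complex.log n) = (n : ℂ) ^ (k + 1) := by
    have : ((k : ℂ) + 1) = ((k + 1 : ℕ) : ℂ) := by push_cast; rfl
    rw [this, Complex.exp_nat_mul, Complex.exp_log hn0]
  rw [h1]

theorem inv_facts {t K : ℕ} (A : ArithSt) (ht : 2 ≤ t) {m n : ℕ} (hm : 1 ≤ m) (hmn : m ≤ n)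
    (hc : n.choose m = t) (hs : ((m : ℂ)⁻¹) ∈ Om t K) :
    8 * (m : ℝ) ≤ n ∧ Real.log 8 + Real.log (1 / ‖((m : ℂ)⁻¹)‖) ≤ Real.log n := by
  have hm0 : (0 : ℝ) < m := by exact_mod_cast hm
  have hn0 : (0 : ℝ) < n := by
    have : 0 < n := by omega
    exact_mod_cast this
  have h1 : 36 / 5 < Real.log t * ((m : ℂ)⁻¹).re := hs.1
  have h2 : ((m : ℂ)⁻¹).re = (m : ℝ)⁻¹ := by
    rw [← Complex.ofReal_natCast, ← Complex.ofReal_inv, Complex.ofReal_re]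
  rw [h2] at h1
  have h3 := A.up n m hm hmn
  rw [hc] at h3
  have h4 : Real.log t * (m : ℝ)⁻¹ ≤ 1 + Real.log (n / m) := by
    rw [← div_eq_mul_inv, div_le_iff₀ hm0]
    linarith
  have h5 : Real.log 8 ≤ Real.log (n / m) := by linarith [log8]
  have h6 : (8 : ℝ) ≤ n / m := (Real.log_le_log_iff (by norm_num) (by positivity)).1 h5
  refine ⟨(le_div_iff₀ hm0).1 h6, ?_⟩
  rw [norm_inv, Complex.norm_natCast, one_div, inv_inv]
  rw [Real.log_div hn0.ne' hm0.ne'] at h5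
  linarith

theorem fix {t K : ℕ} {lam : ℂ → ℂ} (hl : IsLam lam) (A : ArithSt) (G : SigSt) (ht : 2 ≤ t)
    {m n : ℕ} (hm : 1 ≤ m) (hmn : m ≤ n)
    (hc : n.choose m = t) (hs : ((m : ℂ)⁻¹) ∈ Om t K) :
    ‖L0 t lam ((m : ℂ)⁻¹) + Psi K ((m : ℂ)⁻¹) ((Real.log n : ℝ) : ℂ) - ((Real.log n : ℝ) : ℂ)‖ ≤
      (1 / 8) ^ K / 7 := by
  have hm0 : (0 : ℝ) < m := by exact_mod_cast hm
  have hq := (inv_facts A ht hm hmn hc hs).1
  have h1 := A.exact n m hm hmn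
  rw [hc] at h1
  have h2 : L0 t lam ((m : ℂ)⁻¹) =
      (((m : ℝ)⁻¹ * Real.log t + (m : ℝ)⁻¹ * Real.log (m.factorial) : ℝ) : ℂ) := by
    unfold L0
    rw [inv_inv, hl.2.1 m hm]
    simp only [Complex.ofReal_add, Complex.ofReal_mul, Complex.ofReal_inv, Complex.ofReal_natCast]
    ring
  rw [h2, Psi_at G K (by omega), ← Complex.ofReal_add, ← Complex.ofReal_sub, Complex.norm_real,
    Real.norm_eq_abs]
  have h3 := err K hm hq
  have h4 : (m : ℝ)⁻¹ * Real.log t + (m : ℝ)⁻¹ * Real.log (m.factorial) +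
      (m : ℝ)⁻¹ * ∑ k ∈ Finset.range K,
        (∑ i ∈ Finset.range m, (i : ℝ) ^ (k + 1)) / (((k : ℝ) + 1) * (n : ℝ) ^ (k + 1)) -
      Real.log n = (m : ℝ)⁻¹ * (∑ i ∈ Finset.range m, Real.log (1 - (i : ℝ) / n) +
        ∑ k ∈ Finset.range K,
        (∑ i ∈ Finset.range m, (i : ℝ) ^ (k + 1)) / (((k : ℝ) + 1) * (n : ℝ) ^ (k + 1))) := by
    rw [h1]
    field_simp
    ring
  rw [h4, abs_mul, abs_of_pos (inv_pos.2 hm0), inv_mul_le_iff₀ hm0]
  exact h3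

theorem conv {t K : ℕ} {lam : ℂ → ℂ} (hl : IsLam lam) (A : ArithSt) (G : SigSt) (P : PsiSt)
    (ht : 2 ≤ t) (hK : 1 ≤ K)
    {m n : ℕ} (hm : 1 ≤ m) (hmn : m ≤ n)
    (hc : n.choose m = t) (hs : ((m : ℂ)⁻¹) ∈ Om t K) (j : ℕ) :
    ‖Wn K (L0 t lam) j ((m : ℂ)⁻¹) - ((Real.log n : ℝ) : ℂ)‖ ≤
      1 / 7 * (1 / 7) ^ j + 1 / 6 * (1 / 8) ^ K := by
  have hfix := fix hl A G ht hm hmn hc hs
  have hw := (inv_facts A ht hm hmn hc hs).2
  have hs0 := (om_facts ht hK hs).2.1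
  set s : ℂ := (m : ℂ)⁻¹ with hsdef
  set w : ℂ := ((Real.log n : ℝ) : ℂ) with hwdef
  have hwre : Real.log 8 + Real.log (1 / ‖s‖) ≤ w.re := by
    rw [hwdef, Complex.ofReal_re]
    exact hw
  have h8 : (0 : ℝ) ≤ (1 / 8) ^ K := by positivity
  induction j with
  | zero =>
    have h1 := (P K s w w hs0 hs.2 hwre hwre).1
    have h2 : Wn K (L0 t lam) 0 s - w = (L0 t lam s + Psi K s w - w) - Psi K s w := by
      simp only [Wn]
      ring
    rw [h2]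
    refine (norm_sub_le _ _).trans ?_
    rw [pow_zero]
    linarith
  | succ j ih =>
    have h3 := re_of_close hl ht hK hs (Wn_close hl P ht hK hs j)
    have h1 := (P K s _ w hs0 hs.2 h3 hwre).2
    have h2 : Wn K (L0 t lam) (j + 1) s - w =
        (L0 t lam s + Psi K s w - w) + (Psi K s (Wn K (L0 t lam) j s) - Psi K s w) := by
      simp only [Wn]
      ring
    rw [h2]
    refine (norm_add_le _ _).trans ?_
    rw [pow_succ]
    linarith

end IterA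

open IterA in
theorem iter (A : ArithSt) (G : SigSt) (L : LamSt) (P : PsiSt) : IterSt := by
  obtain ⟨lam, hl⟩ := L
  intro t K ht hK
  refine ⟨Wn K (L0 t lam) K, ?_, ?_, ?_⟩
  · exact Wn_diff K (fun s hs => (om_facts ht hK hs).2.1) (L0_diff hl ht hK) K
  · intro s hs
    have h1 := abs_le.1 (L0_re hl ht hK hs)
    have h2 := abs_le.1 ((Complex.abs_re_le_norm _).trans (Wn_close hl P ht hK hs K))
    rw [Complex.sub_re] at h2
    rw [abs_le]
    constructor <;> linarith [h1.1, h1.2, h2.1, h2.2]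
  · intro m n hm hmn hc hs
    refine (conv hl A G P ht hK hm hmn hc hs K).trans ?_
    have h1 : (1 / 7 : ℝ) ^ K ≤ (1 / 3) ^ K := by gcongr; norm_num
    have h2 : (1 / 8 : ℝ) ^ K ≤ (1 / 3) ^ K := by gcongr; norm_num
    have h3 : (0 : ℝ) ≤ (1 / 3) ^ K := by positivity
    linarith

end Pool.Agent.H86.SM
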