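import Pool.Agent.H86.SM.St

/-! # A holomorphic logarithm of the Gamma function in the right half plane -/

namespace Pool.Agent.H86.SM

open Metric Set Filter Topology

namespace LamA

theorem one_le_norm_one_add {y : ℂ} (hy : 0 ≤ y.re) {u : ℝ} (hu : 0 ≤ u) :
    1 ≤ ‖1 + (u : ℂ) * y‖ := by
  have h1 : (1 + (u : ℂ) * y).re = 1 + u * y.re := by simp
  calc (1 : ℝ) ≤ 1 + u * y.re := by nlinarith [mul_nonneg hu hy]
    _ = (1 + (u : ℂ) * y).re := h1.symm
    _ ≤ ‖1 + (u : ℂ) * y‖ := Complex.re_le_norm _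

theorem slit_one_add {y : ℂ} (hy : 0 ≤ y.re) {u : ℝ} (hu : 0 ≤ u) :
    1 + (u : ℂ) * y ∈ Complex.slitPlane := by
  left
  have h1 : (1 + (u : ℂ) * y).re = 1 + u * y.re := by simp
  rw [h1]
  nlinarith [mul_nonneg hu hy]

theorem hasDeriv_log {y : ℂ} (hy : 0 ≤ y.re) {u : ℝ} (hu : 0 ≤ u) :
    HasDerivAt (fun u : ℝ => Complex.log (1 + (u : ℂ) * y)) (y / (1 + (u : ℂ) * y)) u := by
  have h1 : HasDerivAt (fun u : ℝ => 1 + (u : ℂ) * y) y u := by
    have h2 : HasDerivAt (fun u : ℝ => (u : ℂ)) 1 u := Complex.ofRealCLM.hasDerivAt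
    simpa using (h2.mul_const y).const_add 1
  exact h1.clog_real (slit_one_add hy hu)

theorem norm_log_one_add_le {y : ℂ} (hy : 0 ≤ y.re) : ‖Complex.log (1 + y)‖ ≤ ‖y‖ := by
  have h := norm_image_sub_le_of_norm_deriv_le_segment' (a := (0 : ℝ)) (b := 1)
    (f := fun u : ℝ => Complex.log (1 + (u : ℂ) * y)) (C := ‖y‖)
    (f' := fun u : ℝ => y / (1 + (u : ℂ) * y))
    (fun u hu => (hasDeriv_log hy hu.1).hasDerivWithinAt)
    (fun u hu => by
      rw [norm_div]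
      exact div_le_self (norm_nonneg _) (one_le_norm_one_add hy hu.1))
    1 (by simp)
  simpa using h

theorem norm_log_one_add_sub_le {y : ℂ} (hy : 0 ≤ y.re) :
    ‖Complex.log (1 + y) - y‖ ≤ ‖y‖ ^ 2 / 2 := by
  have hd : ∀ u : ℝ, 0 ≤ u → HasDerivAt (fun u : ℝ => Complex.log (1 + (u : ℂ) * y) - (u : ℂ) * y)
      (y / (1 + (u : ℂ) * y) - y) u := fun u hu => by
    have h2 : HasDerivAt (fun u : ℝ => (u : ℂ)) 1 u := Complex.ofRealCLM.hasDerivAt
    have h3 : HasDerivAt (fun u : ℝ => (u : ℂ) * y) y u := by simpa using h2.mul_const y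
    exact (hasDeriv_log hy hu).sub h3
  have h := image_norm_le_of_norm_deriv_right_le_deriv_boundary' (a := (0 : ℝ)) (b := 1)
    (f := fun u : ℝ => Complex.log (1 + (u : ℂ) * y) - (u : ℂ) * y)
    (f' := fun u : ℝ => y / (1 + (u : ℂ) * y) - y)
    (B := fun u => ‖y‖ ^ 2 * u ^ 2 / 2) (B' := fun u => ‖y‖ ^ 2 * u)
    (fun u hu => (hd u hu.1).continuousAt.continuousWithinAt)
    (fun u hu => (hd u hu.1).hasDerivWithinAt)
    (by simp)
    (by fun_prop)
    (fun u hu => by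
      have : HasDerivAt (fun u : ℝ => ‖y‖ ^ 2 * u ^ 2 / 2) (‖y‖ ^ 2 * u) u := by
        have := ((hasDerivAt_pow 2 u).const_mul (‖y‖ ^ 2)).div_const 2
        refine this.congr_deriv ?_
        push_cast
        ring
      exact this.hasDerivWithinAt)
    (fun u hu => by
      have hne : 1 + (u : ℂ) * y ≠ 0 := Complex.slitPlane_ne_zero (slit_one_add hy hu.1)
      have e : y / (1 + (u : ℂ) * y) - y = -((u : ℂ) * y ^ 2) / (1 + (u : ℂ) * y) := by
        rw [div_sub' hne]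
        congr 1
        ring
      rw [e, norm_div, norm_neg, norm_mul, norm_pow, Complex.norm_real, Real.norm_eq_abs,
        abs_of_nonneg hu.1]
      refine (div_le_self (by have := hu.1; positivity) (one_le_norm_one_add hy hu.1)).trans ?_
      rw [mul_comm])
    (show (1 : ℝ) ∈ Icc 0 1 by simp)
  simpa using h

/-- `(x+1) log(1+1/x)` -/
noncomputable def eta (x : ℂ) : ℂ := (x + 1) * Complex.log (1 + x⁻¹)

theorem inv_re_nonneg {x : ℂ} (hx : 0 < x.re) : 0 ≤ (x⁻¹).re := by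
  rw [Complex.inv_re]
  exact div_nonneg hx.le (Complex.normSq_nonneg _)

theorem eta_hasDeriv {x : ℂ} (hx : 0 < x.re) :
    HasDerivAt eta (Complex.log (1 + x⁻¹) - x⁻¹) x := by
  have hx0 : x ≠ 0 := fun h => by rw [h] at hx; simp at hx
  have hsl : 1 + x⁻¹ ∈ Complex.slitPlane := by
    have := slit_one_add (inv_re_nonneg hx) (zero_le_one' ℝ)
    simpa using this
  have hne : 1 + x⁻¹ ≠ 0 := Complex.slitPlane_ne_zero hsl
  have h1 : HasDerivAt (fun x : ℂ => 1 + x⁻¹) (-(x ^ 2)⁻¹) x :=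
    (hasDerivAt_inv hx0).const_add 1
  have h2 := h1.clog hsl
  have h3 : HasDerivAt (fun x : ℂ => x + 1) 1 x := (hasDerivAt_id x).add_const 1
  have h4 := h3.mul h2
  refine HasDerivAt.congr_deriv (f' := _) (show HasDerivAt eta _ x from h4) ?_
  have hx1 : x + 1 ≠ 0 := by
    intro h
    apply hne
    have : 1 + x⁻¹ = (x + 1) / x := by field_simp
    rw [this, h, zero_div]
  have e : 1 + x⁻¹ = (x + 1) / x := by field_simp
  rw [one_mul]
  have e2 : (x + 1) * (-(x ^ 2)⁻¹ / (1 + x⁻¹)) = - x⁻¹ := by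
    rw [e]
    field_simp
  rw [e2]
  ring

theorem eta_deriv_norm {x : ℂ} (hx : 0 < x.re) :
    ‖Complex.log (1 + x⁻¹) - x⁻¹‖ ≤ 1 / (2 * x.re ^ 2) := by
  refine (norm_log_one_add_sub_le (inv_re_nonneg hx)).trans ?_
  have h1 : x.re ≤ ‖x‖ := Complex.re_le_norm x
  rw [norm_inv, inv_pow, div_eq_mul_inv, ← mul_inv, one_div]
  apply inv_anti₀ (by positivity)
  have : x.re ^ 2 ≤ ‖x‖ ^ 2 := pow_le_pow_left₀ hx.le h1 2
  linarith

theorem eta_sub_le {z : ℂ} (hz : 0 ≤ z.re) {k : ℝ} (hk : 0 < k) :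
    ‖eta (k + z) - eta k‖ ≤ ‖z‖ / (2 * k ^ 2) := by
  have hre : ∀ u : ℝ, 0 ≤ u → k ≤ ((k : ℂ) + (u : ℂ) * z).re := fun u hu => by
    have : ((k : ℂ) + (u : ℂ) * z).re = k + u * z.re := by simp
    rw [this]
    nlinarith [mul_nonneg hu hz]
  have h := norm_image_sub_le_of_norm_deriv_le_segment' (a := (0 : ℝ)) (b := 1)
    (f := fun u : ℝ => eta ((k : ℂ) + (u : ℂ) * z)) (C := ‖z‖ / (2 * k ^ 2))
    (f' := fun u : ℝ => (Complex.log (1 + ((k : ℂ) + (u : ℂ) * z)⁻¹) - ((k : ℂ) + (u : ℂ) * z)⁻¹)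
      * z)
    (fun u hu => by
      have h1 : HasDerivAt (fun u : ℝ => (k : ℂ) + (u : ℂ) * z) z u := by
        have h2 : HasDerivAt (fun u : ℝ => (u : ℂ)) 1 u := Complex.ofRealCLM.hasDerivAt
        simpa using (h2.mul_const z).const_add (k : ℂ)
      have h3 := eta_hasDeriv (x := (k : ℂ) + (u : ℂ) * z) (lt_of_lt_of_le hk (hre u hu.1))
      exact (HasDerivAt.comp u h3 h1).hasDerivWithinAt)
    (fun u hu => by
      rw [norm_mul]
      have h4 := eta_deriv_norm (x := (k : ℂ) + (u : ℂ) * z) (lt_of_lt_of_le hk (hre u hu.1))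
      have h5 : 1 / (2 * ((k : ℂ) + (u : ℂ) * z).re ^ 2) ≤ 1 / (2 * k ^ 2) := by
        apply one_div_le_one_div_of_le (by positivity)
        have := pow_le_pow_left₀ hk.le (hre u hu.1) 2
        linarith
      calc _ ≤ 1 / (2 * k ^ 2) * ‖z‖ :=
            mul_le_mul_of_nonneg_right (h4.trans h5) (norm_nonneg _)
        _ = ‖z‖ / (2 * k ^ 2) := by ring)
    1 (by simp)
  simpa using h

/-- the terms of the series -/
noncomputable def F (k : ℕ) (z : ℂ) : ℂ := eta (((k + 1 : ℕ) : ℂ) + z) - eta ((k + 1 : ℕ) : ℂ)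

theorem F_le (k : ℕ) {z : ℂ} (hz : 0 ≤ z.re) :
    ‖F k z‖ ≤ ‖z‖ * (1 / (2 * ((k : ℝ) + 1) ^ 2)) := by
  have h := eta_sub_le hz (k := ((k + 1 : ℕ) : ℝ)) (by positivity)
  unfold F
  push_cast at h ⊢
  refine h.trans (le_of_eq ?_)
  ring

theorem sum_sq : Summable (fun k : ℕ => 1 / (2 * ((k : ℝ) + 1) ^ 2)) ∧
    ∑' k : ℕ, 1 / (2 * ((k : ℝ) + 1) ^ 2) ≤ 1 := by
  have h1 := hasSum_zeta_two
  have h2 : HasSum (fun k : ℕ => 1 / (((k + 1 : ℕ) : ℝ)) ^ 2) (Real.pi ^ 2 / 6) := by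
    have := (hasSum_nat_add_iff' 1).2 h1
    simpa using this
  have h3 := h2.mul_left (1 / 2)
  have h4 : (fun k : ℕ => 1 / 2 * (1 / (((k + 1 : ℕ) : ℝ)) ^ 2)) =
      fun k : ℕ => 1 / (2 * ((k : ℝ) + 1) ^ 2) := by
    funext k
    push_cast
    field_simp
  rw [h4] at h3
  refine ⟨h3.summable, ?_⟩
  rw [h3.tsum_eq]
  have := Real.pi_lt_d2
  have h5 := Real.pi_pos
  nlinarith

theorem F_summable {z : ℂ} (hz : 0 ≤ z.re) : Summable (fun k => F k z) :=
  Summable.of_norm_bounded (sum_sq.1.mul_left ‖z‖) fun k => F_le k hz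

/-- the correction -/
noncomputable def h (z : ℂ) : ℂ := ∑' k : ℕ, F k z

theorem h_le {z : ℂ} (hz : 0 ≤ z.re) : ‖h z‖ ≤ ‖z‖ := by
  unfold h
  refine (tsum_of_norm_bounded (sum_sq.1.hasSum.mul_left ‖z‖) fun k => F_le k hz).trans ?_
  have := mul_le_mul_of_nonneg_left sum_sq.2 (norm_nonneg z)
  linarith

theorem F_diff (k : ℕ) {z : ℂ} (hz : 0 < z.re) : DifferentiableAt ℂ (F k) z := by
  have h1 : 0 < (((k + 1 : ℕ) : ℂ) + z).re := by
    have : (((k + 1 : ℕ) : ℂ) + z).re = ((k + 1 : ℕ) : ℝ) + z.re := by simp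
    rw [this]; positivity
  have h2 : DifferentiableAt ℂ (fun z : ℂ => ((k + 1 : ℕ) : ℂ) + z) z := by fun_prop
  unfold F
  exact (DifferentiableAt.comp z (eta_hasDeriv h1).differentiableAt h2).sub_const _

theorem h_diff : DifferentiableOn ℂ h {z | 0 < z.re} := by
  intro z hz
  have hz' : 0 < z.re := hz
  have hopen : IsOpen ({z : ℂ | 0 < z.re} ∩ ball 0 (‖z‖ + 1)) :=
    (isOpen_lt continuous_const Complex.continuous_re).inter isOpen_ball
  have h1 : DifferentiableOn ℂ h ({z : ℂ | 0 < z.re} ∩ ball 0 (‖z‖ + 1)) := by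
    unfold h
    refine Complex.differentiableOn_tsum_of_summable_norm (sum_sq.1.mul_left (‖z‖ + 1))
      (fun k w hw => (F_diff k hw.1).differentiableWithinAt) hopen (fun k w hw => ?_)
    refine (F_le k (le_of_lt hw.1)).trans ?_
    have : ‖w‖ ≤ ‖z‖ + 1 := by
      have := hw.2
      rw [mem_ball_zero_iff] at this
      exact this.le
    exact mul_le_mul_of_nonneg_right this (by positivity)
  have h2 : z ∈ ({z : ℂ | 0 < z.re} ∩ ball 0 (‖z‖ + 1)) := ⟨hz, by simp⟩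
  exact ((h1 z h2).differentiableAt (hopen.mem_nhds h2)).differentiableWithinAt

theorem eta_nat_sub_one (n : ℕ) : ‖eta ((n + 1 : ℕ) : ℂ) - 1‖ ≤ 2 * (1 / ((n : ℝ) + 1)) := by
  have hre : 0 < (((n + 1 : ℕ) : ℂ)).re := by rw [Complex.natCast_re]; positivity
  have hx0 : ((n + 1 : ℕ) : ℂ) ≠ 0 := by exact_mod_cast Nat.succ_ne_zero n
  have h1 := norm_log_one_add_sub_le (inv_re_nonneg hre)
  set x : ℂ := ((n + 1 : ℕ) : ℂ) with hx
  have hxn : ‖x‖ = (n : ℝ) + 1 := by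
    rw [hx, Complex.norm_natCast]; push_cast; rfl
  have e : eta x - 1 = (x + 1) * (Complex.log (1 + x⁻¹) - x⁻¹) + x⁻¹ := by
    unfold eta
    field_simp
    ring
  have hn : (0 : ℝ) < (n : ℝ) + 1 := by positivity
  rw [e]
  calc _ ≤ ‖(x + 1) * (Complex.log (1 + x⁻¹) - x⁻¹)‖ + ‖x⁻¹‖ := norm_add_le _ _
    _ ≤ (((n : ℝ) + 1) + 1) * (‖x⁻¹‖ ^ 2 / 2) + ‖x⁻¹‖ := by
        rw [norm_mul]
        have h2 : ‖x + 1‖ ≤ ((n : ℝ) + 1) + 1 := by
          refine (norm_add_le _ _).trans ?_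
          rw [hxn]; simp
        have := mul_le_mul h2 h1 (norm_nonneg _) (by positivity)
        linarith
    _ ≤ 2 * (1 / ((n : ℝ) + 1)) := by
        rw [norm_inv, hxn]
        have h3 : (((n : ℝ) + 1) + 1) * (((n : ℝ) + 1)⁻¹ ^ 2 / 2) ≤ ((n : ℝ) + 1)⁻¹ := by
          have h4 : ((n : ℝ) + 1) + 1 ≤ 2 * ((n : ℝ) + 1) := by linarith [n.cast_nonneg (α := ℝ)]
          calc _ ≤ 2 * ((n : ℝ) + 1) * (((n : ℝ) + 1)⁻¹ ^ 2 / 2) :=
                mul_le_mul_of_nonneg_right h4 (by positivity)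
            _ = ((n : ℝ) + 1)⁻¹ := by field_simp
        rw [one_div]
        linarith

theorem eta_tendsto : Tendsto (fun n : ℕ => eta ((n + 1 : ℕ) : ℂ)) atTop (𝓝 1) := by
  rw [tendsto_iff_norm_sub_tendsto_zero]
  refine squeeze_zero (fun n => norm_nonneg _) eta_nat_sub_one ?_
  have := (tendsto_one_div_add_atTop_nhds_zero_nat (𝕜 := ℝ)).const_mul 2
  simpa using this

theorem h_succ (m : ℕ) : h ((m + 1 : ℕ) : ℂ) - h ((m : ℕ) : ℂ) = 1 - eta ((m + 1 : ℕ) : ℂ) := by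
  have hm1 : 0 ≤ (((m + 1 : ℕ) : ℂ)).re := by rw [Complex.natCast_re]; positivity
  have hm0 : 0 ≤ (((m : ℕ) : ℂ)).re := by rw [Complex.natCast_re]; positivity
  have s1 := F_summable hm1
  have s0 := F_summable hm0
  have e : h ((m + 1 : ℕ) : ℂ) - h ((m : ℕ) : ℂ) =
      ∑' k : ℕ, (F k ((m + 1 : ℕ) : ℂ) - F k ((m : ℕ) : ℂ)) := by
    unfold h
    rw [s1.tsum_sub s0]
  rw [e]
  have hs := (s1.sub s0).hasSum.tendsto_sum_nat
  have hterm : ∀ k : ℕ, F k ((m + 1 : ℕ) : ℂ) - F k ((m : ℕ) : ℂ) =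
      eta (((k + 1) + m + 1 : ℕ) : ℂ) - eta ((k + m + 1 : ℕ) : ℂ) := by
    intro k
    unfold F
    have e1 : ((k + 1 : ℕ) : ℂ) + ((m + 1 : ℕ) : ℂ) = (((k + 1) + m + 1 : ℕ) : ℂ) := by
      push_cast; ring
    have e2 : ((k + 1 : ℕ) : ℂ) + ((m : ℕ) : ℂ) = ((k + m + 1 : ℕ) : ℂ) := by
      push_cast; ring
    rw [e1, e2]
    ring
  have hpart : ∀ N : ℕ, ∑ k ∈ Finset.range N, (F k ((m + 1 : ℕ) : ℂ) - F k ((m : ℕ) : ℂ)) =
      eta ((N + m + 1 : ℕ) : ℂ) - eta ((m + 1 : ℕ) : ℂ) := by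
    intro N
    rw [Finset.sum_congr rfl fun k _ => hterm k]
    rw [Finset.sum_range_sub (fun k => eta ((k + m + 1 : ℕ) : ℂ)) N]
    simp
  have ht : Tendsto (fun N : ℕ => ∑ k ∈ Finset.range N,
      (F k ((m + 1 : ℕ) : ℂ) - F k ((m : ℕ) : ℂ))) atTop (𝓝 (1 - eta ((m + 1 : ℕ) : ℂ))) := by
    simp_rw [hpart]
    have h1 : Tendsto (fun N : ℕ => eta ((N + m + 1 : ℕ) : ℂ)) atTop (𝓝 1) :=
      eta_tendsto.comp (tendsto_add_atTop_nat m)
    exact h1.sub_const _
  exact tendsto_nhds_unique hs ht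

/-- the function -/
noncomputable def lam (z : ℂ) : ℂ := (1 + z) * Complex.log (1 + z) - z + h z

theorem h_zero : h 0 = 0 := by
  unfold h
  have : ∀ k : ℕ, F k 0 = 0 := fun k => by unfold F; simp
  simp [this]

theorem lam_nat (m : ℕ) : lam (m : ℂ) = ((Real.log (m.factorial) : ℝ) : ℂ) := by
  induction m with
  | zero =>
    unfold lam
    simp [h_zero]
  | succ m ih =>
    have h1 := h_succ m
    have h2 : lam ((m + 1 : ℕ) : ℂ) = lam (m : ℂ) + Complex.log ((m + 1 : ℕ) : ℂ) := by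
      unfold lam
      have h3 : h ((m + 1 : ℕ) : ℂ) = h ((m : ℕ) : ℂ) + 1 - eta ((m + 1 : ℕ) : ℂ) := by
        linear_combination h1
      rw [h3]
      unfold eta
      have h4 : Complex.log (1 + (((m + 1 : ℕ) : ℂ))⁻¹) =
          Complex.log (1 + ((m + 1 : ℕ) : ℂ)) - Complex.log ((m + 1 : ℕ) : ℂ) := by
        have e1 : (1 : ℂ) + (((m + 1 : ℕ) : ℂ))⁻¹ = (((m + 2 : ℝ) / (m + 1) : ℝ) : ℂ) := by
          have : ((m : ℂ) + 1) ≠ 0 := by exact_mod_cast Nat.succ_ne_zero m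
          push_cast
          field_simp
          ring
        have e2 : (1 : ℂ) + ((m + 1 : ℕ) : ℂ) = ((m + 2 : ℝ) : ℂ) := by push_cast; ring
        have e3 : ((m + 1 : ℕ) : ℂ) = ((m + 1 : ℝ) : ℂ) := by push_cast; ring
        rw [e1, e2, e3, ← Complex.ofReal_log (by positivity), ← Complex.ofReal_log (by positivity),
          ← Complex.ofReal_log (by positivity), Real.log_div (by positivity) (by positivity)]
        push_cast
        ring
      rw [h4]
      have e5 : (1 : ℂ) + (m : ℂ) = ((m + 1 : ℕ) : ℂ) := by push_cast; ring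
      rw [e5]
      push_cast
      ring
    rw [h2, ih, Nat.factorial_succ]
    have h6 : Complex.log ((m + 1 : ℕ) : ℂ) = ((Real.log ((m + 1 : ℕ) : ℝ) : ℝ) : ℂ) := by
      rw [Complex.ofReal_log (by positivity)]
      push_cast
      rfl
    rw [h6, Nat.cast_mul, Real.log_mul (by positivity) (by positivity)]
    push_cast
    ring

theorem log_add_sub {z : ℂ} (hz : 0 < z.re) :
    ‖Complex.log (1 + z) - Complex.log z‖ ≤ 1 / ‖z‖ := by
  have hz0 : 0 < ‖z‖ := norm_pos_iff.2 (fun h => by rw [h] at hz; simp at hz)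
  have hnorm : ∀ u : ℝ, 0 ≤ u → ‖z‖ ≤ ‖(u : ℂ) + z‖ := fun u hu => by
    rw [← abs_of_nonneg (norm_nonneg z), ← abs_of_nonneg (norm_nonneg ((u : ℂ) + z)), ← sq_le_sq,
      ← Complex.normSq_eq_norm_sq, ← Complex.normSq_eq_norm_sq, Complex.normSq_apply,
      Complex.normSq_apply]
    simp only [Complex.add_re, Complex.add_im, Complex.ofReal_re, Complex.ofReal_im]
    nlinarith [mul_nonneg hu hz.le]
  have hk := norm_image_sub_le_of_norm_deriv_le_segment' (a := (0 : ℝ)) (b := 1)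
    (f := fun u : ℝ => Complex.log ((u : ℂ) + z)) (C := 1 / ‖z‖)
    (f' := fun u : ℝ => 1 / ((u : ℂ) + z))
    (fun u hu => by
      have h2 : HasDerivAt (fun u : ℝ => (u : ℂ) + z) 1 u :=
        (Complex.ofRealCLM.hasDerivAt (x := u)).add_const z
      have hsl : (u : ℂ) + z ∈ Complex.slitPlane := by
        left
        simp only [Complex.add_re, Complex.ofReal_re]
        have := hu.1
        linarith
      exact (h2.clog_real hsl).hasDerivWithinAt)
    (fun u hu => by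
      rw [norm_div, norm_one]
      exact one_div_le_one_div_of_le hz0 (hnorm u hu.1))
    1 (by simp)
  simpa using hk

theorem lam_bound {z : ℂ} (hz : 0 < z.re) (h1 : 1 ≤ ‖z‖) :
    ‖lam z / z - Complex.log z‖ ≤ 4 := by
  have hz0 : z ≠ 0 := fun h => by rw [h] at hz; simp at hz
  have hzn : 0 < ‖z‖ := norm_pos_iff.2 hz0
  have e : lam z / z - Complex.log z = (Complex.log (1 + z) - Complex.log z) +
      Complex.log (1 + z) / z - 1 + h z / z := by
    unfold lam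
    field_simp
    ring
  rw [e]
  have a1 : ‖Complex.log (1 + z) - Complex.log z‖ ≤ 1 := by
    refine (log_add_sub hz).trans ?_
    rw [div_le_one hzn]
    exact h1
  have a2 : ‖Complex.log (1 + z) / z‖ ≤ 1 := by
    rw [norm_div, div_le_one hzn]
    exact norm_log_one_add_le hz.le
  have a3 : ‖h z / z‖ ≤ 1 := by
    rw [norm_div, div_le_one hzn]
    exact h_le hz.le
  calc _ ≤ ‖(Complex.log (1 + z) - Complex.log z) + Complex.log (1 + z) / z - 1‖ + ‖h z / z‖ :=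
        norm_add_le _ _
    _ ≤ (‖(Complex.log (1 + z) - Complex.log z) + Complex.log (1 + z) / z‖ + ‖(1 : ℂ)‖)
        + ‖h z / z‖ := by gcongr; exact norm_sub_le _ _
    _ ≤ ((‖Complex.log (1 + z) - Complex.log z‖ + ‖Complex.log (1 + z) / z‖) + ‖(1 : ℂ)‖)
        + ‖h z / z‖ := by gcongr; exact norm_add_le _ _
    _ ≤ 4 := by
        rw [norm_one]
        linarith

theorem lam_diff : DifferentiableOn ℂ lam {z | 0 < z.re} := by
  intro z hz
  have hz' : 0 < z.re := hz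
  have h1 := h_diff z hz
  have hsl : 1 + z ∈ Complex.slitPlane := by
    left
    simp only [Complex.add_re, Complex.one_re]
    linarith
  have h2 : DifferentiableAt ℂ (fun z : ℂ => (1 + z) * Complex.log (1 + z) - z) z := by
    have h3 : DifferentiableAt ℂ (fun z : ℂ => 1 + z) z := by fun_prop
    exact (h3.mul (h3.clog hsl)).sub differentiableAt_id
  exact h2.differentiableWithinAt.add h1

end LamA

theorem lamSt : LamSt :=
  ⟨LamA.lam, LamA.lam_diff, fun m _ => LamA.lam_nat m, fun _ hz h1 => LamA.lam_bound hz h1⟩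

end Pool.Agent.H86.SM
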