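import Pool.Agent.H86.SM.St

/-! # The correction term is small and a contraction -/

namespace Pool.Agent.H86.SM

open Metric Set

namespace PsiA

theorem norm_exp_le {Z : ℝ} (hZ : 0 < Z) (k : ℕ) {w : ℂ} (hw : Real.log 8 + Real.log Z ≤ w.re) :
    ‖Complex.exp (-(((k : ℂ) + 1) * w))‖ ≤ (1 / (8 * Z)) ^ (k + 1) := by
  rw [Complex.norm_exp]
  have h1 : (-(((k : ℂ) + 1) * w)).re = ((k + 1 : ℕ) : ℝ) * (-w.re) := by
    simp
  rw [h1, Real.exp_nat_mul]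
  apply pow_le_pow_left₀ (Real.exp_pos _).le
  have h2 : Real.exp (-w.re) ≤ Real.exp (-(Real.log 8 + Real.log Z)) :=
    Real.exp_le_exp.2 (by linarith)
  refine h2.trans (le_of_eq ?_)
  rw [Real.exp_neg, Real.exp_add, Real.exp_log (by norm_num), Real.exp_log hZ, one_div]

theorem exp_lip {Z : ℝ} (hZ : 0 < Z) (k : ℕ) {w w' : ℂ} (hw : Real.log 8 + Real.log Z ≤ w.re)
    (hw' : Real.log 8 + Real.log Z ≤ w'.re) :
    ‖Complex.exp (-(((k : ℂ) + 1) * w)) - Complex.exp (-(((k : ℂ) + 1) * w'))‖ ≤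
      ((k : ℝ) + 1) * (1 / (8 * Z)) ^ (k + 1) * ‖w - w'‖ := by
  refine Convex.norm_image_sub_le_of_norm_hasDerivWithin_le
    (f := fun w : ℂ => Complex.exp (-(((k : ℂ) + 1) * w)))
    (f' := fun w : ℂ => Complex.exp (-(((k : ℂ) + 1) * w)) * (-((k : ℂ) + 1)))
    (s := {w : ℂ | Real.log 8 + Real.log Z ≤ w.re}) (fun x _ => ?_) (fun x hx => ?_)
    (convex_halfSpace_re_ge _) hw' hw
  · have h1 : HasDerivAt (fun w : ℂ => -(((k : ℂ) + 1) * w)) (-((k : ℂ) + 1)) x := by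
      have := ((hasDerivAt_id x).const_mul ((k : ℂ) + 1)).neg
      rw [mul_one] at this
      exact this
    exact h1.cexp.hasDerivWithinAt
  · rw [norm_mul, norm_neg]
    have h2 : ‖(k : ℂ) + 1‖ = (k : ℝ) + 1 := by
      have : ((k : ℂ) + 1) = ((k + 1 : ℕ) : ℂ) := by push_cast; rfl
      rw [this, Complex.norm_natCast]
      push_cast; rfl
    rw [h2, mul_comm]
    exact mul_le_mul_of_nonneg_left (norm_exp_le hZ k hx) (by positivity)

theorem geom (K : ℕ) : ∑ k ∈ Finset.range K, (1 / 8 : ℝ) ^ (k + 1) ≤ 1 / 7 := by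
  have h : ∀ K : ℕ, ∑ k ∈ Finset.range K, (1 / 8 : ℝ) ^ (k + 1) = 1 / 7 - 1 / 7 * (1 / 8) ^ K := by
    intro K
    induction K with
    | zero => simp
    | succ K ih =>
      rw [Finset.sum_range_succ, ih]
      ring
  rw [h]
  have : (0 : ℝ) ≤ 1 / 7 * (1 / 8) ^ K := by positivity
  linarith

/-- the coefficient of the `k`-th exponential -/
noncomputable def co (s : ℂ) (k : ℕ) : ℂ := s * (sig (k + 1) s⁻¹ / ((k : ℂ) + 1))

theorem Psi_eq (K : ℕ) (s w : ℂ) :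
    Psi K s w = ∑ k ∈ Finset.range K, co s k * Complex.exp (-(((k : ℂ) + 1) * w)) := by
  unfold Psi co
  rw [Finset.mul_sum]
  refine Finset.sum_congr rfl fun k _ => ?_
  rw [Complex.exp_neg]
  have h1 : Complex.exp (((k : ℂ) + 1) * w) ≠ 0 := Complex.exp_ne_zero _
  have h2 : (k : ℂ) + 1 ≠ 0 := by exact_mod_cast Nat.succ_ne_zero k
  field_simp

theorem co_le (G : SigSt) {K : ℕ} {s : ℂ} (hs : s ≠ 0) (hK : 2 * ((K : ℝ) + 1) * ‖s‖ < 1) {k : ℕ}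
    (hk : k < K) : ‖co s k‖ * (((k : ℝ) + 1) * (1 / (8 * (1 / ‖s‖))) ^ (k + 1)) ≤
      (1 / 8 : ℝ) ^ (k + 1) := by
  have hs0 : 0 < ‖s‖ := norm_pos_iff.2 hs
  have hkK : (k : ℝ) + 1 ≤ K := by exact_mod_cast hk
  have hb := G.bound (k + 1) s⁻¹ (by
    rw [norm_inv, le_inv_comm₀ (by positivity) hs0]
    push_cast
    have h1 : 2 * ((k : ℝ) + 1 + 1) ≤ 2 * ((K : ℝ) + 1) := by linarith
    have h2 : 2 * ((k : ℝ) + 1 + 1) * ‖s‖ ≤ 1 := by
      have := mul_le_mul_of_nonneg_right h1 hs0.le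
      linarith
    rw [le_inv_comm₀ hs0 (by positivity), ← one_div, le_div_iff₀ hs0]
    exact h2)
  have hk1 : ‖(k : ℂ) + 1‖ = (k : ℝ) + 1 := by
    have : ((k : ℂ) + 1) = ((k + 1 : ℕ) : ℂ) := by push_cast; rfl
    rw [this, Complex.norm_natCast]
    push_cast; rfl
  unfold co
  rw [norm_mul, norm_div, hk1]
  have e1 : ‖s‖ * (‖sig (k + 1) s⁻¹‖ / ((k : ℝ) + 1)) *
      (((k : ℝ) + 1) * (1 / (8 * (1 / ‖s‖))) ^ (k + 1)) =
      ‖sig (k + 1) s⁻¹‖ * (‖s‖ * (‖s‖ / 8) ^ (k + 1)) := by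
    have : (1 / (8 * (1 / ‖s‖))) = ‖s‖ / 8 := by field_simp
    rw [this]
    field_simp
  rw [e1]
  have e2 : 2 * ‖s⁻¹‖ ^ (k + 1 + 1) / ((((k + 1 : ℕ) : ℝ)) + 1) * (‖s‖ * (‖s‖ / 8) ^ (k + 1)) =
      2 / ((((k + 1 : ℕ) : ℝ)) + 1) * (1 / 8) ^ (k + 1) := by
    have h3 : ‖s⁻¹‖ ^ (k + 1 + 1) * (‖s‖ * (‖s‖ / 8) ^ (k + 1)) = (1 / 8) ^ (k + 1) := by
      rw [norm_inv, div_pow, one_div, inv_pow, inv_pow, pow_succ ‖s‖ (k + 1)]
      field_simp
    calc _ = 2 / ((((k + 1 : ℕ) : ℝ)) + 1) * (‖s⁻¹‖ ^ (k + 1 + 1) *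
          (‖s‖ * (‖s‖ / 8) ^ (k + 1))) := by ring
      _ = _ := by rw [h3]
  refine (mul_le_mul_of_nonneg_right hb (by positivity)).trans ?_
  rw [e2]
  have h4 : 2 / ((((k + 1 : ℕ) : ℝ)) + 1) ≤ 1 := by
    rw [div_le_one (by positivity)]
    push_cast
    linarith [k.cast_nonneg (α := ℝ)]
  have h5 := mul_le_mul_of_nonneg_right h4 (show (0 : ℝ) ≤ (1 / 8) ^ (k + 1) by positivity)
  linarith

end PsiA

open PsiA in
theorem psiSt (G : SigSt) : PsiSt := by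
  intro K s w w' hs hK hw hw'
  have hs0 : 0 < ‖s‖ := norm_pos_iff.2 hs
  have hZ : 0 < 1 / ‖s‖ := by positivity
  constructor
  · rw [Psi_eq]
    refine (norm_sum_le _ _).trans ?_
    refine (Finset.sum_le_sum fun k hk => ?_).trans (geom K)
    have hk' := Finset.mem_range.1 hk
    rw [norm_mul]
    refine le_trans ?_ (co_le G hs hK hk')
    apply mul_le_mul_of_nonneg_left _ (norm_nonneg _)
    refine (norm_exp_le hZ k hw).trans ?_
    have h1 : (0 : ℝ) ≤ (1 / (8 * (1 / ‖s‖))) ^ (k + 1) := by positivity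
    nlinarith [mul_nonneg (k.cast_nonneg (α := ℝ)) h1]
  · rw [Psi_eq, Psi_eq, ← Finset.sum_sub_distrib]
    refine (norm_sum_le _ _).trans ?_
    have h2 : ∀ k ∈ Finset.range K, ‖co s k * Complex.exp (-(((k : ℂ) + 1) * w)) -
        co s k * Complex.exp (-(((k : ℂ) + 1) * w'))‖ ≤ (1 / 8 : ℝ) ^ (k + 1) * ‖w - w'‖ := by
      intro k hk
      have hk' := Finset.mem_range.1 hk
      rw [← mul_sub, norm_mul]
      calc _ ≤ ‖co s k‖ * (((k : ℝ) + 1) * (1 / (8 * (1 / ‖s‖))) ^ (k + 1) * ‖w - w'‖) :=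
            mul_le_mul_of_nonneg_left (exp_lip hZ k hw hw') (norm_nonneg _)
        _ = ‖co s k‖ * (((k : ℝ) + 1) * (1 / (8 * (1 / ‖s‖))) ^ (k + 1)) * ‖w - w'‖ := by ring
        _ ≤ _ := mul_le_mul_of_nonneg_right (co_le G hs hK hk') (norm_nonneg _)
    refine (Finset.sum_le_sum h2).trans ?_
    rw [← Finset.sum_mul]
    exact mul_le_mul_of_nonneg_right (geom K) (norm_nonneg _)

end Pool.Agent.H86.SM
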