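import Pool.Agent.H86.SM.St

/-! # Faulhaber's polynomials: values and a bound for complex arguments -/

namespace Pool.Agent.H86.SM

open Metric Set

namespace SigA

open Nat in
/-- `∑_{k<n} 1/(n+1-k)! ≤ 1 - 2^(-n)` -/
theorem fact_sum (n : ℕ) :
    ∑ k ∈ Finset.range n, (1 : ℚ) / ((n + 1 - k)! : ℚ) ≤ 1 - (1 / 2) ^ n := by
  have h1 : ∑ k ∈ Finset.range n, (1 : ℚ) / ((n + 1 - k)! : ℚ) =
      ∑ j ∈ Finset.range n, (1 : ℚ) / ((j + 2)! : ℚ) := by
    rw [← Finset.sum_range_reflect]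
    refine Finset.sum_congr rfl fun k hk => ?_
    have hk' := Finset.mem_range.1 hk
    congr 3
    omega
  rw [h1]
  clear h1
  induction n with
  | zero => simp
  | succ n ih =>
    rw [Finset.sum_range_succ]
    have h2 : (1 : ℚ) / ((n + 2)! : ℚ) ≤ (1 / 2) ^ (n + 1) := by
      rw [one_div_pow]
      apply one_div_le_one_div_of_le (by positivity)
      have : 2 ^ (n + 1) ≤ (n + 2)! := by
        clear ih
        induction n with
        | zero => decide
        | succ n ih =>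
          rw [Nat.factorial_succ, pow_succ]
          nlinarith [ih, Nat.factorial_pos (n + 2)]
      exact_mod_cast this
    have h3 : (1 / 2 : ℚ) ^ n = 2 * (1 / 2) ^ (n + 1) := by rw [pow_succ]; ring
    linarith

open Nat in
theorem abs_bernoulli_le (n : ℕ) : |bernoulli n| ≤ (n ! : ℚ) := by
  induction n using Nat.strong_induction_on with
  | _ n ih =>
    rcases Nat.eq_zero_or_pos n with hn | hn
    · subst hn; simp
    · have h1 := sum_bernoulli (n + 1)
      rw [if_neg (by omega), Finset.sum_range_succ] at h1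
      have hc : ((n + 1).choose n : ℚ) = (n : ℚ) + 1 := by
        rw [Nat.choose_succ_self_right]; push_cast; rfl
      rw [hc] at h1
      have h2 : ((n : ℚ) + 1) * bernoulli n =
          -∑ k ∈ Finset.range n, ((n + 1).choose k : ℚ) * bernoulli k := by linarith
      have h3 : ((n : ℚ) + 1) * |bernoulli n| ≤ ((n : ℚ) + 1) * (n ! : ℚ) := by
        calc ((n : ℚ) + 1) * |bernoulli n| = |((n : ℚ) + 1) * bernoulli n| := by
              rw [abs_mul, abs_of_pos (by positivity : (0 : ℚ) < (n : ℚ) + 1)]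
          _ = |∑ k ∈ Finset.range n, ((n + 1).choose k : ℚ) * bernoulli k| := by
              rw [h2, abs_neg]
          _ ≤ ∑ k ∈ Finset.range n, |((n + 1).choose k : ℚ) * bernoulli k| :=
              Finset.abs_sum_le_sum_abs _ _
          _ ≤ ∑ k ∈ Finset.range n, ((n + 1)! : ℚ) * (1 / ((n + 1 - k)! : ℚ)) := by
              refine Finset.sum_le_sum fun k hk => ?_
              have hk' := Finset.mem_range.1 hk
              rw [abs_mul, Nat.abs_cast]
              have h4 := mul_le_mul_of_nonneg_left (ih k hk')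
                (show (0 : ℚ) ≤ ((n + 1).choose k : ℚ) by positivity)
              refine h4.trans (le_of_eq ?_)
              have h5 := Nat.choose_mul_factorial_mul_factorial (show k ≤ n + 1 by omega)
              have h6 : (0 : ℚ) < ((n + 1 - k)! : ℚ) := by positivity
              rw [mul_one_div, eq_div_iff h6.ne']
              exact_mod_cast h5
          _ = ((n + 1)! : ℚ) * ∑ k ∈ Finset.range n, (1 / ((n + 1 - k)! : ℚ)) := by
              rw [Finset.mul_sum]
          _ ≤ ((n + 1)! : ℚ) * 1 := by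
              apply mul_le_mul_of_nonneg_left _ (by positivity)
              have := fact_sum n
              have h7 : (0 : ℚ) ≤ (1 / 2) ^ n := by positivity
              linarith
          _ = ((n : ℚ) + 1) * (n ! : ℚ) := by
              rw [mul_one, Nat.factorial_succ]; push_cast; ring
      exact le_of_mul_le_mul_left h3 (by positivity)

open Nat in
theorem norm_bernoulli_le (i : ℕ) : ‖((bernoulli i : ℚ) : ℂ)‖ ≤ (i ! : ℝ) := by
  have h := abs_bernoulli_le i
  have h1 : ((|bernoulli i| : ℚ) : ℝ) ≤ (((i ! : ℕ) : ℚ) : ℝ) := by exact_mod_cast h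
  have h2 : ‖((bernoulli i : ℚ) : ℂ)‖ = ((|bernoulli i| : ℚ) : ℝ) := by
    have : ((bernoulli i : ℚ) : ℂ) = (((bernoulli i : ℚ) : ℝ) : ℂ) := by push_cast; rfl
    rw [this, Complex.norm_real, Real.norm_eq_abs]
    push_cast
    rfl
  rw [h2]
  exact_mod_cast h1

theorem nat (k m : ℕ) : sig k (m : ℂ) = ∑ i ∈ Finset.range m, (i : ℂ) ^ k := by
  have h := _root_.sum_range_pow m k
  have h1 : ((∑ i ∈ Finset.range m, (i : ℚ) ^ k : ℚ) : ℂ) =
      ((∑ i ∈ Finset.range (k + 1), bernoulli i * ((k + 1).choose i) * (m : ℚ) ^ (k + 1 - i) /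
        (k + 1) : ℚ) : ℂ) := by rw [h]
  unfold sig
  push_cast at h1
  exact h1.symm

open Nat in
theorem bound (k : ℕ) (z : ℂ) (hz : 2 * ((k : ℝ) + 1) ≤ ‖z‖) :
    ‖sig k z‖ ≤ 2 * ‖z‖ ^ (k + 1) / ((k : ℝ) + 1) := by
  have hk : (0 : ℝ) < (k : ℝ) + 1 := by positivity
  have hz0 : 0 < ‖z‖ := by linarith
  have hk1 : ‖(k : ℂ) + 1‖ = (k : ℝ) + 1 := by
    have : ((k : ℂ) + 1) = ((k + 1 : ℕ) : ℂ) := by push_cast; rfl
    rw [this, Complex.norm_natCast]
    push_cast; rfl
  unfold sig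
  refine (norm_sum_le _ _).trans ?_
  have h1 : ∀ i ∈ Finset.range (k + 1),
      ‖((bernoulli i : ℚ) : ℂ) * ((k + 1).choose i : ℂ) * z ^ (k + 1 - i) / ((k : ℂ) + 1)‖ ≤
        ‖z‖ ^ (k + 1) / ((k : ℝ) + 1) * (1 / 2) ^ i := by
    intro i hi
    have hi' := Finset.mem_range.1 hi
    rw [norm_div, norm_mul, norm_mul, norm_pow, hk1, Complex.norm_natCast]
    have h2 : (i ! : ℝ) * ((k + 1).choose i : ℝ) ≤ ((k : ℝ) + 1) ^ i := by
      have h3 : (k + 1).descFactorial i ≤ (k + 1) ^ i := Nat.descFactorial_le_pow _ _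
      rw [Nat.descFactorial_eq_factorial_mul_choose] at h3
      exact_mod_cast h3
    have h4 : ‖((bernoulli i : ℚ) : ℂ)‖ * ((k + 1).choose i : ℝ) ≤ ((k : ℝ) + 1) ^ i :=
      (mul_le_mul_of_nonneg_right (norm_bernoulli_le i) (by positivity)).trans h2
    have h5 : ((k : ℝ) + 1) ^ i * ‖z‖ ^ (k + 1 - i) ≤ ‖z‖ ^ (k + 1) * (1 / 2) ^ i := by
      have h6 : ((k : ℝ) + 1) ^ i ≤ (‖z‖ * (1 / 2)) ^ i :=
        pow_le_pow_left₀ hk.le (by linarith) i
      calc _ ≤ (‖z‖ * (1 / 2)) ^ i * ‖z‖ ^ (k + 1 - i) :=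
            mul_le_mul_of_nonneg_right h6 (by positivity)
        _ = (‖z‖ ^ i * ‖z‖ ^ (k + 1 - i)) * (1 / 2) ^ i := by rw [mul_pow]; ring
        _ = ‖z‖ ^ (k + 1) * (1 / 2) ^ i := by
            rw [← pow_add]; congr 2; omega
    calc _ ≤ ((k : ℝ) + 1) ^ i * ‖z‖ ^ (k + 1 - i) / ((k : ℝ) + 1) := by
          apply div_le_div_of_nonneg_right _ hk.le
          exact mul_le_mul_of_nonneg_right h4 (by positivity)
      _ ≤ ‖z‖ ^ (k + 1) * (1 / 2) ^ i / ((k : ℝ) + 1) :=
          div_le_div_of_nonneg_right h5 hk.le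
      _ = _ := by ring
  refine (Finset.sum_le_sum h1).trans ?_
  rw [← Finset.mul_sum]
  have h7 : ∀ n : ℕ, ∑ i ∈ Finset.range n, (1 / 2 : ℝ) ^ i = 2 - 2 * (1 / 2) ^ n := by
    intro n
    induction n with
    | zero => simp
    | succ n ih => rw [Finset.sum_range_succ, ih]; ring
  rw [h7]
  have h8 : (0 : ℝ) ≤ (1 / 2) ^ (k + 1) := by positivity
  calc ‖z‖ ^ (k + 1) / ((k : ℝ) + 1) * (2 - 2 * (1 / 2) ^ (k + 1)) ≤
      ‖z‖ ^ (k + 1) / ((k : ℝ) + 1) * 2 := by
        apply mul_le_mul_of_nonneg_left _ (by positivity)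
        linarith
    _ = _ := by ring

end SigA

theorem sigSt : SigSt := ⟨SigA.nat, SigA.bound⟩

end Pool.Agent.H86.SM
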