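import Pool.Agent.H86.SM.St

/-! # A polynomial is not small on a small disc -/

namespace Pool.Agent.H86.SM

open Metric Set

namespace SubDiscA

theorem iteratedDeriv_poly (P : Polynomial ℂ) (k : ℕ) :
    iteratedDeriv k (fun z => P.eval z) = fun z => (Polynomial.derivative^[k] P).eval z := by
  induction k generalizing P with
  | zero => simp
  | succ n ih =>
    rw [iteratedDeriv_succ']
    have h : deriv (fun z => P.eval z) = fun z => P.derivative.eval z := by
      funext z; exact P.deriv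
    rw [h, ih, Function.iterate_succ_apply]

/-- Cauchy's estimate for the coefficients of a polynomial. -/
theorem coeff_bound (P : Polynomial ℂ) (r B : ℝ) (hr : 0 < r)
    (hB : ∀ z ∈ sphere (0 : ℂ) r, ‖P.eval z‖ ≤ B) (k : ℕ) : ‖P.coeff k‖ * r ^ k ≤ B := by
  have h := Complex.norm_iteratedDeriv_le_of_forall_mem_sphere_norm_le k hr
    (f := fun z => P.eval z) (P.differentiable.diffContOnCl) hB
  rw [iteratedDeriv_poly] at h
  have h0 : (Polynomial.derivative^[k] P).eval 0 = (k.factorial : ℂ) * P.coeff k := by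
    rw [← Polynomial.coeff_zero_eq_eval_zero, Polynomial.coeff_iterate_derivative]
    simp [Nat.descFactorial_self]
  simp only [h0, norm_mul, Complex.norm_natCast] at h
  have hk : (0 : ℝ) < k.factorial := by exact_mod_cast k.factorial_pos
  have hrk : 0 < r ^ k := pow_pos hr k
  rw [mul_div_assoc] at h
  have h2 := le_of_mul_le_mul_left h hk
  rwa [le_div_iff₀ hrk] at h2

end SubDiscA

theorem subDisc : SubDiscSt := by
  intro I Q a r x v hI hr hr2 hx hv ha
  obtain ⟨w, hw, hmax⟩ := (isCompact_closedBall x r).exists_isMaxOn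
    (nonempty_closedBall.2 hr.le) (f := fun z => ‖Q.eval z‖) (Q.continuous.norm.continuousOn)
  refine ⟨w, hw, ?_⟩
  set P := Polynomial.taylor x Q with hP
  set B := ‖Q.eval w‖ with hBdef
  have hPe : ∀ y, P.eval y = Q.eval (y + x) := fun y => Polynomial.taylor_eval x Q y
  have hB : ∀ z ∈ sphere (0 : ℂ) r, ‖P.eval z‖ ≤ B := by
    intro z hz
    rw [hPe]
    apply hmax
    rw [mem_closedBall, dist_eq_norm]
    rw [mem_sphere, dist_zero_right] at hz
    rw [add_sub_cancel_right, hz]
  have hB0 : 0 ≤ B := norm_nonneg _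
  have hdeg : P.natDegree < I + 1 := by
    rw [hP, Polynomial.natDegree_taylor]; omega
  have hev : Q.eval v = ∑ k ∈ Finset.range (I + 1), P.coeff k * (v - x) ^ k := by
    have := hPe (v - x)
    rw [sub_add_cancel] at this
    rw [← this, Polynomial.eval_eq_sum_range' hdeg]
  have hvx : ‖v - x‖ ≤ 2 := by
    calc ‖v - x‖ ≤ ‖v‖ + ‖x‖ := norm_sub_le _ _
      _ ≤ 2 := by linarith
  have hterm : ∀ k ∈ Finset.range (I + 1), ‖P.coeff k * (v - x) ^ k‖ ≤ B * (2 / r) ^ I := by
    intro k hk
    rw [Finset.mem_range] at hk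
    have h1 := SubDiscA.coeff_bound P r B hr hB k
    have hrk : 0 < r ^ k := pow_pos hr k
    rw [norm_mul, norm_pow]
    have h2 : ‖P.coeff k‖ ≤ B / r ^ k := by rwa [le_div_iff₀ hrk]
    calc ‖P.coeff k‖ * ‖v - x‖ ^ k ≤ (B / r ^ k) * 2 ^ k := by gcongr
      _ = B * (2 / r) ^ k := by rw [div_pow]; ring
      _ ≤ B * (2 / r) ^ I := by
        apply mul_le_mul_of_nonneg_left _ hB0
        apply pow_le_pow_right₀ _ (by omega)
        rw [le_div_iff₀ hr]; linarith
  have hsum : ‖Q.eval v‖ ≤ ((I : ℝ) + 1) * (B * (2 / r) ^ I) := by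
    rw [hev]
    refine (norm_sum_le _ _).trans ((Finset.sum_le_sum hterm).trans ?_)
    rw [Finset.sum_const, Finset.card_range, nsmul_eq_mul]
    push_cast
    exact le_rfl
  have hI1 : (0 : ℝ) < (I : ℝ) + 1 := by positivity
  have hmul : (2 / r) ^ I * (r / 2) ^ I = 1 := by
    rw [← mul_pow]
    have : 2 / r * (r / 2) = 1 := by field_simp
    rw [this, one_pow]
  have hrI : 0 < (r / 2) ^ I := by positivity
  rw [div_le_iff₀ hI1]
  calc a * (r / 2) ^ I ≤ (((I : ℝ) + 1) * (B * (2 / r) ^ I)) * (r / 2) ^ I :=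
        mul_le_mul_of_nonneg_right (ha.trans hsum) hrI.le
    _ = B * ((I : ℝ) + 1) * ((2 / r) ^ I * (r / 2) ^ I) := by ring
    _ = B * ((I : ℝ) + 1) := by rw [hmul, mul_one]

end Pool.Agent.H86.SM
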