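import Pool.Agent.H86.SM.St

/-! # Tropical pigeonhole principle -/

namespace Pool.Agent.H86.SM

namespace TropA

/-- the largest maximizer -/
theorem exists_largest (s : Finset ℕ) (hs : s.Nonempty) (f : ℕ → ℝ) :
    ∃ j ∈ s, (∀ i ∈ s, f i ≤ f j) ∧ ∀ i ∈ s, f i = f j → i ≤ j := by
  classical
  obtain ⟨m, hm, hmax⟩ := s.exists_max_image f hs
  have hne : (s.filter (fun i => f i = f m)).Nonempty := ⟨m, by simp [hm]⟩
  have hmem := Finset.max'_mem _ hne
  rw [Finset.mem_filter] at hmem
  refine ⟨_, hmem.1, fun i hi => ?_, fun i hi he => ?_⟩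
  · rw [hmem.2]; exact hmax i hi
  · apply Finset.le_max'
    rw [Finset.mem_filter]
    exact ⟨hi, he.trans hmem.2⟩

end TropA

theorem trop : TropSt := by
  intro J s a x₀ h T hs hJ hh hT
  have key : ∀ i : ℕ, ∃ j ∈ s,
      (∀ k ∈ s, a k + k * T * (x₀ + i * h) ≤ a j + j * T * (x₀ + i * h)) ∧
      ∀ k ∈ s, a k + k * T * (x₀ + i * h) = a j + j * T * (x₀ + i * h) → k ≤ j :=
    fun i => TropA.exists_largest s hs (fun k => a k + k * T * (x₀ + i * h))
  choose g hg1 hg2 hg3 using key
  have hmono : ∀ i, g i ≤ g (i + 1) := by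
    intro i
    by_contra hlt
    rw [not_le] at hlt
    have h1 := hg2 i (g (i + 1)) (hg1 (i + 1))
    have h2 := hg2 (i + 1) (g i) (hg1 i)
    have hlt' : (g (i + 1) : ℝ) < g i := by exact_mod_cast hlt
    have h3 : 0 < ((g i : ℝ) - g (i + 1)) * (T * h) := by
      apply mul_pos (by linarith) (mul_pos hT hh)
    push_cast at h2
    nlinarith
  by_contra hcon
  have hstrict : ∀ i ≤ J, g i < g (i + 1) := by
    intro i hi
    rcases (hmono i).lt_or_eq with h' | h'
    · exact h'
    · exfalso
      apply hcon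
      refine ⟨i, hi, g i, hg1 i, fun j hj => ⟨hg2 i j hj, ?_⟩⟩
      have h2 := hg2 (i + 1) j hj
      rw [← h'] at h2
      push_cast at h2
      exact h2
  have hall : ∀ i ≤ J + 1, i ≤ g i := by
    intro i
    induction i with
    | zero => intro _; omega
    | succ n ih =>
      intro hn
      have h1 := ih (by omega)
      have h2 := hstrict n (by omega)
      omega
  have h1 := hall (J + 1) le_rfl
  have h2 := hJ _ (hg1 (J + 1))
  omega

end Pool.Agent.H86.SM
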