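import Pool.Agent.H86.SM.ZeroA

/-! # Singmaster: the zero estimate -/

set_option autoImplicit false

namespace Pool.Agent.H86.SM

open Metric Set

open ZeroA in
theorem zero (B : BlaschkeSt) (D : SubDiscSt) (P : TropSt) : ZeroSt := by
  intro I J V T δ f Q Z hJ hV hδ hT hf hfv hQd hQ hZ
  classical
  have hJ1 : (1 : ℝ) ≤ J := by exact_mod_cast hJ
  have hI0 : (0 : ℝ) ≤ I := Nat.cast_nonneg I
  set N : ℝ := (J : ℝ) + 1 with hN
  have hN2 : 2 ≤ N := by linarith
  have hN0 : 0 < N := by linarith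
  set Λ : ℝ := Real.log (16 * N) with hΛ
  have hΛ1 : 1 ≤ Λ := by
    rw [hΛ, Real.le_log_iff_exp_le (by linarith)]
    have := Real.exp_one_lt_d9
    linarith
  have hTV : V + ((I : ℝ) + 1) * Λ ≤ T / (8 * N) := by
    rw [le_div_iff₀ (by linarith)]
    linarith
  have hIΛ : 1 ≤ ((I : ℝ) + 1) * Λ := by nlinarith
  have hTN : 1 ≤ T / (8 * N) := by linarith
  have hT0 : 0 < T := by
    by_contra hc
    have : T / (8 * N) ≤ 0 := div_nonpos_of_nonpos_of_nonneg (not_lt.1 hc) (by linarith)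
    linarith
  have hT16 : T / (8 * N) ≤ T / 16 := by
    apply div_le_div_of_nonneg_left hT0.le (by norm_num)
    linarith
  rcases Z.eq_empty_or_nonempty with hZe | ⟨z0, hz0⟩
  · subst hZe
    simp only [Finset.card_empty, Nat.cast_zero, zero_mul]
    positivity
  -- the maxima
  choose b vb hvb hvbe hb hbpos using fun j => exists_max (Q j)
  set s : Finset ℕ := (Finset.range (J + 1)).filter (fun j => Q j ≠ 0) with hs
  have hsne : s.Nonempty := by
    obtain ⟨j, hj, hjQ⟩ := hQ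
    exact ⟨j, Finset.mem_filter.2 ⟨Finset.mem_range.2 (by omega), hjQ⟩⟩
  have hsJ : ∀ j ∈ s, j ≤ J := fun j hj => by
    have := Finset.mem_range.1 (Finset.mem_filter.1 hj).1
    omega
  have hsb : ∀ j ∈ s, 0 < b j := fun j hj => hbpos j (Finset.mem_filter.1 hj).2
  set a : ℕ → ℝ := fun j => Real.log (b j) with ha
  obtain ⟨i, hi, j0, hj0, hdom⟩ := P J s a (-1 / 2) (1 / N) T hsne hsJ (by positivity) hT0
  set h : ℝ := 1 / N with hh
  have hh0 : 0 < h := by positivity
  set x1 : ℝ := -1 / 2 + i * h with hx1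
  have hiN : (i : ℝ) * h ≤ 1 - h := by
    have hi' : (i : ℝ) ≤ J := by exact_mod_cast hi
    have : (i : ℝ) * h ≤ J * h := mul_le_mul_of_nonneg_right hi' hh0.le
    have e : (J : ℝ) * h = 1 - h := by
      rw [hh]
      field_simp
      linarith
    linarith
  have hi0 : 0 ≤ (i : ℝ) * h := by positivity
  have hlin : ∀ j ∈ s, ∀ x : ℝ, h / 4 ≤ x - x1 → h / 4 ≤ x1 + h - x →
      a j + j * T * x + |(j : ℝ) - j0| * T * (h / 4) ≤ a j0 + j0 * T * x := by
    intro j hj x hxa hxb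
    obtain ⟨d1, d2⟩ := hdom j hj
    refine lin _ _ _ _ T x1 h x hT0 d1 ?_ hxa hxb
    have e : -1 / 2 + ((i : ℝ) + 1) * h = x1 + h := by rw [hx1]; ring
    rw [e] at d2
    exact d2
  -- the point w
  obtain ⟨w, hw, hwQ⟩ := D I (Q j0) (b j0) (h / 4) ((x1 + h / 2 : ℝ) : ℂ) (vb j0) (hQd j0)
    (by positivity) (by rw [hh, div_le_iff₀ (by norm_num), div_le_iff₀ hN0]; linarith)
    (by
      rw [Complex.norm_real, Real.norm_eq_abs, abs_le]
      constructor <;> rw [hx1] <;> linarith)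
    (mem_closedBall_zero_iff.1 (hvb j0)) (hvbe j0).ge
  rw [mem_closedBall, dist_eq_norm] at hw
  have hwre : |w.re - (x1 + h / 2)| ≤ h / 4 := by
    have := Complex.abs_re_le_norm (w - ((x1 + h / 2 : ℝ) : ℂ))
    rw [Complex.sub_re, Complex.ofReal_re] at this
    linarith
  have hwn : ‖w‖ ≤ 1 / 2 := by
    have h1 : ‖w‖ ≤ ‖w - ((x1 + h / 2 : ℝ) : ℂ)‖ + ‖((x1 + h / 2 : ℝ) : ℂ)‖ := by
      have := norm_add_le (w - ((x1 + h / 2 : ℝ) : ℂ)) ((x1 + h / 2 : ℝ) : ℂ)
      rwa [sub_add_cancel] at this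
    have h2 : ‖((x1 + h / 2 : ℝ) : ℂ)‖ ≤ 1 / 2 - h / 2 := by
      rw [Complex.norm_real, Real.norm_eq_abs, abs_le]
      constructor <;> rw [hx1] <;> linarith
    linarith
  obtain ⟨hwr1, hwr2⟩ := abs_le.1 hwre
  have hw1 : w ∈ closedBall (0 : ℂ) 1 := mem_closedBall_zero_iff.2 (by linarith)
  obtain ⟨hfw0, hfw⟩ := hfv w hw1
  set y : ℝ := Real.log ‖f w‖ with hy
  have hfwpos : 0 < ‖f w‖ := norm_pos_iff.2 hfw0
  obtain ⟨hfw1, hfw2⟩ := abs_le.1 hfw
  have hlw : ∀ j ∈ s, a j + j * T * w.re + |(j : ℝ) - j0| * T * (h / 4) ≤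
      a j0 + j0 * T * w.re := fun j hj => hlin j hj w.re (by linarith) (by linarith)
  -- the exponential form
  have hexp : ∀ j ∈ s, ∀ v : ℂ, f v ≠ 0 → b j * ‖f v‖ ^ j =
      Real.exp (a j + j * Real.log ‖f v‖) := by
    intro j hj v hv
    rw [Real.exp_add, ha, Real.exp_log (hsb j hj), Real.exp_nat_mul,
      Real.exp_log (norm_pos_iff.2 hv)]
  set E0 : ℝ := a j0 + j0 * y with hE0
  -- numerics
  set q : ℝ := (h / 4 / 2) ^ I / ((I : ℝ) + 1) with hq
  set e1 : ℝ := Real.exp (-(((I : ℝ) + 1) * Λ)) with he1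
  have he1pos : 0 < e1 := Real.exp_pos _
  have he1le : e1 ≤ 1 := by
    rw [he1, Real.exp_le_one_iff]
    linarith
  have he1eq : e1 * (16 * N) ^ (I + 1) = 1 := by
    have : (16 * N) ^ (I + 1) = Real.exp (((I : ℝ) + 1) * Λ) := by
      have := Real.exp_nat_mul Λ (I + 1)
      rw [hΛ, Real.exp_log (by linarith)] at this
      rw [← this]
      push_cast
      rfl
    rw [this, he1, ← Real.exp_add]
    simp
  have hpw : (h / 4 / 2) ^ I * (16 * N) ^ (I + 1) = 2 ^ I * (16 * N) := by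
    rw [pow_succ, ← mul_assoc, ← mul_pow]
    congr 2
    rw [hh]
    field_simp
    norm_num
  have h2I : (I : ℝ) + 1 ≤ 2 ^ I := by
    have := @Nat.lt_two_pow_self I
    exact_mod_cast this
  have hc1 : N * e1 ≤ q / 2 := by
    have hp : 0 < (16 * N) ^ (I + 1) := by positivity
    have h1 : N * e1 * (16 * N) ^ (I + 1) ≤ q / 2 * (16 * N) ^ (I + 1) := by
      have e2 : N * e1 * (16 * N) ^ (I + 1) = N := by rw [mul_assoc, he1eq, mul_one]
      have e3 : q / 2 * (16 * N) ^ (I + 1) = 2 ^ I * (16 * N) / (2 * ((I : ℝ) + 1)) := by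
        rw [hq, ← hpw]
        field_simp
      rw [e2, e3, le_div_iff₀ (by positivity)]
      have : N * ((I : ℝ) + 1) ≤ N * 2 ^ I := mul_le_mul_of_nonneg_left h2I hN0.le
      have h3 : 0 ≤ N * 2 ^ I := by positivity
      linarith
    exact le_of_mul_le_mul_right h1 hp
  -- the other terms at w
  have hother : ∀ j ∈ Finset.range (J + 1), j ≠ j0 →
      ‖(Q j).eval w * f w ^ j‖ ≤ Real.exp E0 * e1 ^ 2 := by
    intro j hj hjj
    by_cases hQj : Q j = 0
    · rw [hQj]
      simp only [Polynomial.eval_zero, zero_mul, norm_zero]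
      positivity
    have hjs : j ∈ s := Finset.mem_filter.2 ⟨hj, hQj⟩
    have h1 : ‖(Q j).eval w * f w ^ j‖ ≤ b j * ‖f w‖ ^ j := by
      rw [norm_mul, norm_pow]
      exact mul_le_mul_of_nonneg_right (hb j w hw1) (by positivity)
    rw [hexp j hjs w hfw0] at h1
    refine h1.trans ?_
    rw [he1, ← Real.exp_nat_mul, ← Real.exp_add, Real.exp_le_exp]
    have h2 := hlw j hjs
    have h3 : ((j : ℝ) - j0) * (y - T * w.re) ≤ |(j : ℝ) - j0| * V := by
      calc ((j : ℝ) - j0) * (y - T * w.re) ≤ |((j : ℝ) - j0) * (y - T * w.re)| := le_abs_self _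
        _ = |(j : ℝ) - j0| * |y - T * w.re| := abs_mul _ _
        _ ≤ _ := mul_le_mul_of_nonneg_left hfw (abs_nonneg _)
    have h4 : (1 : ℝ) ≤ |(j : ℝ) - j0| := by
      have : (1 : ℤ) ≤ |(j : ℤ) - j0| := Int.one_le_abs (by omega)
      exact_mod_cast this
    have h5 : 2 * V + 2 * (((I : ℝ) + 1) * Λ) ≤ T * (h / 4) := by
      have e : T * (h / 4) = 2 * (T / (8 * N)) := by
        rw [hh]
        field_simp
        ring
      rw [e]
      linarith
    have h6 : |(j : ℝ) - j0| * (V + 2 * (((I : ℝ) + 1) * Λ)) ≤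
        |(j : ℝ) - j0| * (T * (h / 4) - V) :=
      mul_le_mul_of_nonneg_left (by linarith) (abs_nonneg _)
    have h7 : 2 * (((I : ℝ) + 1) * Λ) ≤ |(j : ℝ) - j0| * (V + 2 * (((I : ℝ) + 1) * Λ)) := by
      have : 1 * (V + 2 * (((I : ℝ) + 1) * Λ)) ≤
          |(j : ℝ) - j0| * (V + 2 * (((I : ℝ) + 1) * Λ)) :=
        mul_le_mul_of_nonneg_right h4 (by linarith)
      linarith
    rw [hE0]
    push_cast
    linarith [h2, h3, h6, h7]
  -- lower bound at w
  set G : ℂ → ℂ := fun v => ∑ j ∈ Finset.range (J + 1), (Q j).eval v * f v ^ j with hG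
  have hj0r : j0 ∈ Finset.range (J + 1) := (Finset.mem_filter.1 hj0).1
  have hlow : Real.exp E0 * (N * e1) ≤ ‖G w‖ := by
    have hsplit : G w = (Q j0).eval w * f w ^ j0 +
        ∑ j ∈ (Finset.range (J + 1)).erase j0, (Q j).eval w * f w ^ j := by
      rw [hG]
      exact (Finset.add_sum_erase _ _ hj0r).symm
    have hmain : Real.exp E0 * q ≤ ‖(Q j0).eval w * f w ^ j0‖ := by
      rw [norm_mul, norm_pow, hE0, ← hexp j0 hj0 w hfw0]
      have : b j0 * q * ‖f w‖ ^ j0 ≤ ‖(Q j0).eval w‖ * ‖f w‖ ^ j0 := by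
        apply mul_le_mul_of_nonneg_right _ (by positivity)
        have e : b j0 * q = b j0 * (h / 4 / 2) ^ I / ((I : ℝ) + 1) := by rw [hq]; ring
        rw [e]
        exact hwQ
      linarith
    have hrest : ‖∑ j ∈ (Finset.range (J + 1)).erase j0, (Q j).eval w * f w ^ j‖ ≤
        J * (Real.exp E0 * e1 ^ 2) := by
      refine (norm_sum_le _ _).trans ?_
      refine (Finset.sum_le_card_nsmul _ _ (Real.exp E0 * e1 ^ 2) ?_).trans ?_
      · intro j hj
        exact hother j (Finset.mem_of_mem_erase hj) (Finset.ne_of_mem_erase hj)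
      · rw [Finset.card_erase_of_mem hj0r, Finset.card_range, nsmul_eq_mul]
        simp
    have hj2 : (J : ℝ) * (Real.exp E0 * e1 ^ 2) ≤ Real.exp E0 * (q / 2) := by
      have h1 : (J : ℝ) * e1 ^ 2 ≤ N * e1 := by
        have h0 : e1 ^ 2 ≤ e1 := by
          rw [sq]
          exact mul_le_of_le_one_left he1pos.le he1le
        have h2 : (J : ℝ) * e1 ^ 2 ≤ J * e1 := mul_le_mul_of_nonneg_left h0 (by linarith)
        exact h2.trans (mul_le_mul_of_nonneg_right (by linarith) he1pos.le)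
      have := mul_le_mul_of_nonneg_left (h1.trans hc1) (Real.exp_pos E0).le
      linarith
    have hfin : Real.exp E0 * (N * e1) ≤ Real.exp E0 * (q / 2) :=
      mul_le_mul_of_nonneg_left hc1 (Real.exp_pos E0).le
    have htri := norm_sub_norm_le ((Q j0).eval w * f w ^ j0)
      (-(∑ j ∈ (Finset.range (J + 1)).erase j0, (Q j).eval w * f w ^ j))
    rw [sub_neg_eq_add, ← hsplit, norm_neg] at htri
    linarith
  -- upper bound on the disc
  set A : ℝ := Real.exp E0 * (N * Real.exp (3 / 2 * (J * T) + 2 * (J * V))) with hA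
  have hup : ∀ v ∈ closedBall (0 : ℂ) 1, ‖G v‖ ≤ A := by
    intro v hv
    obtain ⟨hfv0, hfvv⟩ := hfv v hv
    obtain ⟨hfv1, hfv2⟩ := abs_le.1 hfvv
    have hvre : |v.re| ≤ 1 := (Complex.abs_re_le_norm v).trans (mem_closedBall_zero_iff.1 hv)
    obtain ⟨hvr1, hvr2⟩ := abs_le.1 hvre
    have hwre' : |w.re| ≤ 1 / 2 := (Complex.abs_re_le_norm w).trans hwn
    obtain ⟨hwr3, hwr4⟩ := abs_le.1 hwre'
    have hterm : ∀ j ∈ Finset.range (J + 1), ‖(Q j).eval v * f v ^ j‖ ≤
        Real.exp E0 * Real.exp (3 / 2 * (J * T) + 2 * (J * V)) := by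
      intro j hj
      by_cases hQj : Q j = 0
      · rw [hQj]
        simp only [Polynomial.eval_zero, zero_mul, norm_zero]
        positivity
      have hjs : j ∈ s := Finset.mem_filter.2 ⟨hj, hQj⟩
      have h1 : ‖(Q j).eval v * f v ^ j‖ ≤ b j * ‖f v‖ ^ j := by
        rw [norm_mul, norm_pow]
        exact mul_le_mul_of_nonneg_right (hb j v hv) (by positivity)
      rw [hexp j hjs v hfv0] at h1
      refine h1.trans ?_
      rw [← Real.exp_add, Real.exp_le_exp, hE0]
      have hjJ : (j : ℝ) ≤ J := by exact_mod_cast hsJ j hjs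
      have hj0J : (j0 : ℝ) ≤ J := by exact_mod_cast hsJ j0 hj0
      have hjn : (0 : ℝ) ≤ j := Nat.cast_nonneg j
      have hj0n : (0 : ℝ) ≤ j0 := Nat.cast_nonneg j0
      have h2 : a j + j * T * w.re ≤ a j0 + j0 * T * w.re := by
        have := hlw j hjs
        have h3 : 0 ≤ |(j : ℝ) - j0| * T * (h / 4) := by positivity
        linarith
      -- bounds of the products
      have h4 : (j : ℝ) * (Real.log ‖f v‖ - T * v.re) ≤ J * V := by
        calc (j : ℝ) * (Real.log ‖f v‖ - T * v.re) ≤ j * V :=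
              mul_le_mul_of_nonneg_left hfv2 hjn
          _ ≤ J * V := mul_le_mul_of_nonneg_right hjJ hV
      have h5 : (j0 : ℝ) * (T * w.re - y) ≤ J * V := by
        calc (j0 : ℝ) * (T * w.re - y) ≤ j0 * V :=
              mul_le_mul_of_nonneg_left (by linarith) hj0n
          _ ≤ J * V := mul_le_mul_of_nonneg_right hj0J hV
      have h6 : (j : ℝ) * T * (v.re - w.re) ≤ 3 / 2 * (J * T) := by
        have h7 : v.re - w.re ≤ 3 / 2 := by linarith
        calc (j : ℝ) * T * (v.re - w.re) ≤ j * T * (3 / 2) :=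
              mul_le_mul_of_nonneg_left h7 (by positivity)
          _ = (3 / 2) * (j * T) := by ring
          _ ≤ 3 / 2 * (J * T) := by
            have := mul_le_mul_of_nonneg_right hjJ hT0.le
            linarith
      linarith [h2, h4, h5, h6]
    rw [hG]
    refine (norm_sum_le _ _).trans ?_
    refine (Finset.sum_le_card_nsmul _ _ _ hterm).trans ?_
    rw [Finset.card_range, nsmul_eq_mul, hA, hN]
    push_cast
    apply le_of_eq
    ring
  -- G is holomorphic
  have hGd : DiffContOnCl ℂ G (ball 0 1) := by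
    constructor
    · intro v hv
      rw [hG]
      have hfd := hf.differentiableOn v hv
      apply DifferentiableWithinAt.fun_sum
      intro j _
      exact ((Q j).differentiable.differentiableAt.differentiableWithinAt).mul (hfd.pow j)
    · rw [hG]
      apply continuousOn_finsetSum
      intro j _
      exact ((Q j).continuous.continuousOn).mul (hf.continuousOn.pow j)
  have hbl := B G A Z w hGd (fun v hv => hup v (sphere_subset_closedBall hv))
    (fun c hc => ⟨by linarith [(hZ c hc).1], (hZ c hc).2⟩) (by linarith)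
  have hprod : ∏ c ∈ Z, ‖(w - c) / (1 - (starRingEnd ℂ) c * w)‖ ≤
      Real.exp (-(δ / 6)) ^ Z.card := by
    rw [← Finset.prod_const]
    exact Finset.prod_le_prod (fun c _ => norm_nonneg _)
      (fun c hc => factor w c δ hδ hwn (hZ c hc).1)
  have hA0 : 0 ≤ A := by rw [hA]; positivity
  have hfinal : Real.exp E0 * (N * e1) ≤ A * Real.exp (-(δ / 6)) ^ Z.card :=
    hlow.trans (hbl.trans (mul_le_mul_of_nonneg_left hprod hA0))
  rw [hA, ← Real.exp_nat_mul, mul_assoc, mul_assoc, ← Real.exp_add] at hfinal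
  have h1 := le_of_mul_le_mul_left hfinal (Real.exp_pos E0)
  have h2 := le_of_mul_le_mul_left h1 hN0
  rw [he1, Real.exp_le_exp] at h2
  have h3 : (J : ℝ) * V + (J : ℝ) * (((I : ℝ) + 1) * Λ) ≤ J * (T / 16) := by
    have := mul_le_mul_of_nonneg_left (hTV.trans hT16) (show (0 : ℝ) ≤ J by linarith)
    linarith
  have h4 : ((I : ℝ) + 1) * Λ ≤ (J : ℝ) * (((I : ℝ) + 1) * Λ) := by
    have := mul_le_mul_of_nonneg_right hJ1 (show (0 : ℝ) ≤ ((I : ℝ) + 1) * Λ by linarith)
    linarith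
  have h5 : 0 ≤ (J : ℝ) * V := by positivity
  have h6 : 0 ≤ (J : ℝ) * T := by positivity
  linarith [h2, h3, h4, h5, h6]

end Pool.Agent.H86.SM
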