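import Pool.Agent.H86.SM.Arith
import Pool.Agent.H86.SM.Sig
import Pool.Agent.H86.SM.Lam
import Pool.Agent.H86.SM.Psi
import Pool.Agent.H86.SM.Iter
import Pool.Agent.H86.SM.Interp
import Pool.Agent.H86.SM.Blaschke
import Pool.Agent.H86.SM.SubDisc
import Pool.Agent.H86.SM.Trop
import Pool.Agent.H86.SM.Zero
import Pool.Agent.H86.SM.Extrap
import Pool.Agent.H86.SM.Core

/-! # Singmaster's problem: the core statement -/

namespace Pool.Agent.H86.SM

theorem core_final : CoreSt :=
  core arith (interp arith (iter arith sigSt lamSt (psiSt sigSt))) (zero blaschke subDisc trop)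
    (extrap blaschke)

end Pool.Agent.H86.SM
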