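import Pool.Agent.H86.SM.St

/-! # Singmaster: positions in the triangle and solutions -/

namespace Pool.Agent.H86.SM

open Set

namespace CountA

theorem succ_le_choose (m j : ℕ) (hj : 1 ≤ j) : m + 1 ≤ (m + j).choose j := by
  have h1 : (m + j).choose m = (m + j).choose j := Nat.choose_symm_add
  have h2 : (m + 1).choose m ≤ (m + j).choose m := Nat.choose_le_choose m (by omega)
  rw [Nat.choose_succ_self_right] at h2
  omega

/-- the two coordinates of a position are bounded -/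
theorem bounds {t n k : ℕ} (ht : 2 ≤ t) (hk : k ≤ n) (h : n.choose k = t) :
    1 ≤ k ∧ 1 ≤ n - k ∧ n - k + 1 ≤ t ∧ k + 1 ≤ t := by
  have h1 : 1 ≤ k := by
    rcases Nat.eq_zero_or_pos k with h0 | h0
    · subst h0; rw [Nat.choose_zero_right] at h; omega
    · exact h0
  have h2 : 1 ≤ n - k := by
    rcases Nat.eq_zero_or_pos (n - k) with h0 | h0
    · have : k = n := by omega
      subst this; rw [Nat.choose_self] at h; omega
    · exact h0
  refine ⟨h1, h2, ?_, ?_⟩
  · have := succ_le_choose (n - k) k h1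
    rw [Nat.sub_add_cancel hk, h] at this
    exact this
  · have := succ_le_choose k (n - k) h2
    rw [Nat.add_sub_cancel' hk, Nat.choose_symm hk, h] at this
    exact this

theorem lt_choose {m n n' : ℕ} (hm : 1 ≤ m) (hn : n < n') (h0 : n.choose m ≠ 0) :
    n.choose m < n'.choose m := by
  obtain ⟨m', rfl⟩ : ∃ m', m = m' + 1 := ⟨m - 1, by omega⟩
  have hle : m' + 1 ≤ n := by
    by_contra hcon
    exact h0 (Nat.choose_eq_zero_of_lt (by omega))
  have h1 : (n + 1).choose (m' + 1) ≤ n'.choose (m' + 1) := Nat.choose_le_choose _ hn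
  have h2 := Nat.choose_succ_succ n m'
  have h3 : 0 < n.choose m' := Nat.choose_pos (by omega)
  simp only [Nat.succ_eq_add_one] at h2
  omega

theorem uniq {m n n' : ℕ} (hm : 1 ≤ m) (h : n.choose m = n'.choose m) (h0 : n.choose m ≠ 0) :
    n = n' := by
  rcases lt_trichotomy n n' with hl | hl | hl
  · have := lt_choose hm hl h0; omega
  · exact hl
  · have := lt_choose hm hl (by omega); omega

open Classical in
/-- the row of a solution -/
noncomputable def nu (t m : ℕ) : ℕ :=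
  if h : ∃ n : ℕ, 2 * m ≤ n ∧ n.choose m = t then h.choose else 0

theorem nu_eq {t m n : ℕ} (ht : 2 ≤ t) (hm : 1 ≤ m) (hn : 2 * m ≤ n) (h : n.choose m = t) :
    nu t m = n := by
  have hex : ∃ n : ℕ, 2 * m ≤ n ∧ n.choose m = t := ⟨n, hn, h⟩
  unfold nu
  rw [dif_pos hex]
  have h2 := hex.choose_spec.2
  exact uniq hm (h2.trans h.symm) (by omega)

theorem finite_pos (t : ℕ) (ht : 2 ≤ t) :
    {p : ℕ × ℕ | p.2 ≤ p.1 ∧ p.1.choose p.2 = t}.Finite := by
  refine Set.Finite.subset ((Finset.range (2 * t)) ×ˢ (Finset.range (2 * t))).finite_toSet ?_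
  rintro ⟨n, k⟩ ⟨h1, h2⟩
  have h3 := bounds ht h1 h2
  simp only [Finset.coe_product, Finset.coe_range, Set.mem_prod, Set.mem_Iio] at h1 ⊢
  omega

theorem finite_sol (t : ℕ) (ht : 2 ≤ t) : (Sol t).Finite := by
  refine Set.Finite.subset (Finset.range t).finite_toSet ?_
  rintro m ⟨h1, n, h2, h3⟩
  have h4 := bounds ht (by omega : m ≤ n) h3
  simp only [Finset.coe_range, Set.mem_Iio]
  omega

/-- a set of positions that is covered by both sides of a set of solutions -/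
theorem card_le_two {t : ℕ} (ht : 2 ≤ t) {P : Set (ℕ × ℕ)} {Q : Set ℕ} (hQ : Q.Finite)
    (hP : ∀ p ∈ P, p.2 ≤ p.1 ∧ p.1.choose p.2 = t ∧ (2 * p.2 ≤ p.1 → p.2 ∈ Q) ∧
      (2 * (p.1 - p.2) ≤ p.1 → p.1 - p.2 ∈ Q)) :
    P.ncard ≤ 2 * Q.ncard := by
  have hsub : P ⊆ ((fun m => (nu t m, m)) '' Q) ∪ ((fun m => (nu t m, nu t m - m)) '' Q) := by
    rintro ⟨n, k⟩ hp
    obtain ⟨h1, h2, h3, h4⟩ := hP _ hp
    simp only at h1 h2 h3 h4
    have hb := bounds ht h1 h2
    rcases Nat.lt_or_ge n (2 * k) with h | h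
    · right
      have h5 : 2 * (n - k) ≤ n := by omega
      refine ⟨n - k, h4 h5, ?_⟩
      have h6 : n.choose (n - k) = t := by rw [Nat.choose_symm h1]; exact h2
      have h7 := nu_eq ht hb.2.1 h5 h6
      simp only [h7, Prod.mk.injEq, true_and]
      omega
    · left
      refine ⟨k, h3 h, ?_⟩
      have h7 := nu_eq ht hb.1 h h2
      simp only [h7]
  calc P.ncard ≤ (((fun m => (nu t m, m)) '' Q)
        ∪ ((fun m => (nu t m, nu t m - m)) '' Q)).ncard :=
        Set.ncard_le_ncard hsub ((hQ.image _).union (hQ.image _))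
    _ ≤ ((fun m => (nu t m, m)) '' Q).ncard + ((fun m => (nu t m, nu t m - m)) '' Q).ncard :=
        Set.ncard_union_le _ _
    _ ≤ Q.ncard + Q.ncard :=
        add_le_add (Set.ncard_image_le hQ) (Set.ncard_image_le hQ)
    _ = 2 * Q.ncard := by ring

/-- a set of positions that is covered by the left side of a set of solutions -/
theorem card_le_one {t : ℕ} (ht : 2 ≤ t) {P : Set (ℕ × ℕ)} {Q : Set ℕ} (hQ : Q.Finite)
    (hP : ∀ p ∈ P, p.2 ≤ p.1 ∧ p.1.choose p.2 = t ∧ 2 * p.2 ≤ p.1 ∧ p.2 ∈ Q) :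
    P.ncard ≤ Q.ncard := by
  have hsub : P ⊆ (fun m => (nu t m, m)) '' Q := by
    rintro ⟨n, k⟩ hp
    obtain ⟨h1, h2, h3, h4⟩ := hP _ hp
    simp only at h1 h2 h3 h4
    have hb := bounds ht h1 h2
    refine ⟨k, h4, ?_⟩
    have h7 := nu_eq ht hb.1 h3 h2
    simp only [h7]
  exact (Set.ncard_le_ncard hsub (hQ.image _)).trans (Set.ncard_image_le hQ)

theorem mem_sol_left {t n k : ℕ} (ht : 2 ≤ t) (h1 : k ≤ n) (h2 : n.choose k = t)
    (h : 2 * k ≤ n) : k ∈ Sol t := ⟨(bounds ht h1 h2).1, n, h, h2⟩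

theorem mem_sol_right {t n k : ℕ} (ht : 2 ≤ t) (h1 : k ≤ n) (h2 : n.choose k = t)
    (h : 2 * (n - k) ≤ n) : n - k ∈ Sol t :=
  ⟨(bounds ht h1 h2).2.1, n, h, by rw [Nat.choose_symm h1]; exact h2⟩

end CountA

theorem count (A : ArithSt) : CountSt := by
  intro t ht
  refine ⟨CountA.finite_pos t ht, CountA.finite_sol t ht, ?_, ?_⟩
  · refine CountA.card_le_two ht (CountA.finite_sol t ht) ?_
    rintro ⟨n, k⟩ ⟨h1, h2⟩
    exact ⟨h1, h2, CountA.mem_sol_left ht h1 h2, CountA.mem_sol_right ht h1 h2⟩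
  · refine CountA.card_le_one ht ((CountA.finite_sol t ht).subset fun m hm => hm.1) ?_
    rintro ⟨n, k⟩ ⟨h1, h2, h3⟩
    simp only at h1 h2 h3
    have hb := CountA.bounds ht h1 h2
    have hh := A.half t n k hb.1 h1 h2 h3
    exact ⟨h1, h2, hh, CountA.mem_sol_left ht h1 h2 hh, h3⟩

end Pool.Agent.H86.SM
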