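import Pool.Agent.H86.SM.St2
import Pool.Agent.H86.SM.Count

/-! # Singmaster: positions at distance at least `M` from both sides of the triangle -/

namespace Pool.Agent.H86.SM

open Set

theorem count2 (_A : ArithSt) : CountSt2 := by
  intro t M ht
  refine CountA.card_le_two ht ((CountA.finite_sol t ht).subset fun m hm => hm.1) ?_
  rintro ⟨n, k⟩ ⟨h1, h2, h3, h4⟩
  simp only at h1 h2 h3 h4
  refine ⟨h1, h2, fun h => ⟨CountA.mem_sol_left ht h1 h2 h, h3⟩,
    fun h => ⟨CountA.mem_sol_right ht h1 h2 h, ?_⟩⟩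
  simp only
  rw [Nat.cast_sub h1]
  exact h4

end Pool.Agent.H86.SM
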