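import Pool.Agent.H86.SM.MainA
import Pool.Agent.H86.SM.CoreF
import Pool.Agent.H86.SM.Count
import Pool.Agent.H3.Sing.Outer3
import Pool.Agent.H43.Sing.Main

/-!
# Singmaster's problem: the final theorem

Modules by: helper3 (Zero in the centre region, Block3, Outer3), helper29 (Outer, Outer2, Loc),
helper32 (Win), helper33 (Zero), helper36 (SubDisc, Trop), helper37 (Jarnik, Arith),
helper43 (centre region), helper53 (Interp), helper64 (Count), helper84 (Jarnik),
helper85 (Extrap, Iter), helper86 (statements, Core, Blaschke, Main), helper91 (Block),
helper97 (Lam, Psi, Sig).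
-/

namespace Pool.Agent.H86.SM

theorem final : MainStA :=
  mainA (outer3 (block3 core_final)) Pool.Agent.H43.Sing.center (count arith)

end Pool.Agent.H86.SM
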