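import Pool.Agent.H86.SM.St2
import Pool.Agent.H86.SM.Outer

/-! # The solutions with `M ≤ m`, `15 m ≤ log t` -/

namespace Pool.Agent.H86.SM

open Finset

namespace Outer2A

lemma geom (n : ℕ) : ∑ k ∈ Finset.range n, ((10 : ℝ) / 11) ^ k ≤ 11 := by
  rw [geom_sum_eq (by norm_num)]
  have h : (0 : ℝ) ≤ (10 / 11 : ℝ) ^ n := by positivity
  rw [div_le_iff_of_neg (by norm_num)]
  nlinarith

end Outer2A

theorem outer2 (B : BlockSt2) : OuterSt2 := by
  intro δ hδ
  set δ' : ℝ := min δ (1 / 4) / 4 with hδ'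
  have hm0 : 0 < min δ (1 / 4) := lt_min hδ (by norm_num)
  have hm1 : min δ (1 / 4) ≤ 1 / 4 := min_le_right _ _
  have hm2 : min δ (1 / 4) ≤ δ := min_le_left _ _
  have hδ'0 : 0 < δ' := by positivity
  have hδ'1 : δ' ≤ 1 / 4 := by rw [hδ']; linarith
  have hδ'2 : 2 * δ' ≤ δ := by rw [hδ']; linarith
  obtain ⟨L₀, hL₀⟩ := B δ' hδ'0 hδ'1
  set L₁ : ℝ := max L₀ 1 with hL₁
  have hL₁0 : L₀ ≤ L₁ := le_max_left _ _
  have hL₁1 : 1 ≤ L₁ := le_max_right _ _
  have hlog2 : 0 < Real.log 2 := Real.log_pos (by norm_num)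
  set c : ℝ := Real.log 2 ^ (1 / 2 + δ) with hc
  have hc0 : 0 < c := Real.rpow_pos_of_pos hlog2 _
  set c' : ℝ := Real.log 2 ^ δ with hc'
  have hc'0 : 0 < c' := Real.rpow_pos_of_pos hlog2 _
  have hb : (1 : ℝ) < 11 / 10 := by norm_num
  set C₁ : ℝ := L₁ / c with hC₁
  have hC₁0 : 0 < C₁ := by positivity
  set C₂ : ℝ := L₁ / c' with hC₂
  have hC₂0 : 0 < C₂ := by positivity
  refine ⟨C₁ + C₂ + 12, ?_⟩
  intro t M S ht hM hS
  set L : ℝ := Real.log t with hL
  have ht' : (2 : ℝ) ≤ t := by exact_mod_cast ht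
  have hL2 : Real.log 2 ≤ L := Real.log_le_log (by norm_num) ht'
  have hLpos : 0 < L := lt_of_lt_of_le hlog2 hL2
  have hMpos : 0 < M := lt_of_lt_of_le one_pos hM
  have hLd0 : 0 < L ^ (1 / 2 + δ) := Real.rpow_pos_of_pos hLpos _
  have hLe0 : 0 < L ^ (1 + δ) / M := div_pos (Real.rpow_pos_of_pos hLpos _) hMpos
  have hmon : ∀ (x y a : ℝ), 0 ≤ a → x ≤ y → x * a ≤ y * a :=
    fun x y a ha h => mul_le_mul_of_nonneg_right h ha
  rcases S.eq_empty_or_nonempty with hemp | hne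
  · subst hemp
    simp only [Finset.card_empty, Nat.cast_zero]
    exact ⟨by positivity, by positivity⟩
  obtain ⟨m₁, hm₁⟩ := hne
  have hML : M ≤ L := by
    have h1 := (hS m₁ hm₁).2.1
    have h2 := (hS m₁ hm₁).2.2
    linarith
  by_cases hcase : L ≤ L₁
  · have h1 : (S.card : ℝ) ≤ L := by
      apply OuterA.card_le_of_le L hLpos.le
      intro m hm
      obtain ⟨h1, h2, h3⟩ := hS m hm
      have hm0 : (0 : ℝ) ≤ m := Nat.cast_nonneg m
      exact ⟨h1.1, by linarith⟩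
    constructor
    · have h2 : c' ≤ L ^ (1 + δ) / M := by
        have h3 : L ^ (1 + δ) = L * L ^ δ := by
          rw [Real.rpow_add hLpos, Real.rpow_one]
        have h4 : c' ≤ L ^ δ := Real.rpow_le_rpow hlog2.le hL2 hδ.le
        rw [le_div_iff₀ hMpos, h3, mul_comm]
        have h5 : 0 ≤ c' := hc'0.le
        nlinarith
      have h3 : L₁ ≤ C₂ * (L ^ (1 + δ) / M) := by
        have : L₁ = C₂ * c' := by rw [hC₂]; field_simp
        calc L₁ = C₂ * c' := this
          _ ≤ C₂ * (L ^ (1 + δ) / M) := mul_le_mul_of_nonneg_left h2 hC₂0.le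
      calc (S.card : ℝ) ≤ L := h1
        _ ≤ L₁ := hcase
        _ ≤ C₂ * (L ^ (1 + δ) / M) := h3
        _ ≤ (C₁ + C₂ + 12) * (L ^ (1 + δ) / M) := hmon _ _ _ hLe0.le (by linarith)
    · have h2 : c ≤ L ^ (1 / 2 + δ) :=
        Real.rpow_le_rpow hlog2.le hL2 (by linarith)
      have h3 : L₁ ≤ C₁ * L ^ (1 / 2 + δ) := by
        have : L₁ = C₁ * c := by rw [hC₁]; field_simp
        calc L₁ = C₁ * c := this
          _ ≤ C₁ * L ^ (1 / 2 + δ) := mul_le_mul_of_nonneg_left h2 hC₁0.le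
      calc (S.card : ℝ) ≤ L := h1
        _ ≤ L₁ := hcase
        _ ≤ C₁ * L ^ (1 / 2 + δ) := h3
        _ ≤ (C₁ + C₂ + 12) * L ^ (1 / 2 + δ) := hmon _ _ _ hLd0.le (by linarith)
  · have hcase' : L₁ < L := not_le.1 hcase
    have hL1 : 1 < L := lt_of_le_of_lt hL₁1 hcase'
    set M₀ : ℝ := L ^ (1 / 2 + δ') with hM₀
    have hM₀pos : 0 < M₀ := Real.rpow_pos_of_pos hLpos _
    have hM₀L : M₀ ≤ L ^ (1 / 2 + δ) :=
      Real.rpow_le_rpow_of_exponent_le hL1.le (by linarith)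
    set M' : ℝ := max M M₀ with hM'
    have hM'M : M ≤ M' := le_max_left _ _
    have hM'M₀ : M₀ ≤ M' := le_max_right _ _
    have hM'pos : 0 < M' := lt_of_lt_of_le hMpos hM'M
    have hM'1 : 1 ≤ M' := le_trans hM hM'M
    -- the small solutions
    set S₀ := S.filter (fun m : ℕ => (m : ℝ) < M₀) with hS₀
    set S₁ := S.filter (fun m : ℕ => ¬ ((m : ℝ) < M₀)) with hS₁
    have hcard : S.card = S₀.card + S₁.card :=
      (Finset.card_filter_add_card_filter_not (s := S) (fun m : ℕ => (m : ℝ) < M₀)).symm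
    have hS₀c : (S₀.card : ℝ) ≤ M₀ := by
      refine OuterA.card_le_of_le M₀ hM₀pos.le S₀ ?_
      intro m hm
      obtain ⟨h1, h2⟩ := Finset.mem_filter.1 hm
      exact ⟨(hS m h1).1.1, h2.le⟩
    have hS₀d : (S₀.card : ℝ) ≤ L ^ (1 + δ) / M := by
      rcases S₀.eq_empty_or_nonempty with hemp | hne
      · rw [hemp]
        simp only [Finset.card_empty, Nat.cast_zero]
        exact hLe0.le
      · obtain ⟨m₂, hm₂⟩ := hne
        obtain ⟨h1, h2⟩ := Finset.mem_filter.1 hm₂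
        have h3 : M ≤ M₀ := le_trans (hS m₂ h1).2.1 h2.le
        have h4 : M₀ * M₀ = L ^ (1 + 2 * δ') := by
          rw [hM₀, ← Real.rpow_add hLpos]
          congr 1
          ring
        have h5 : L ^ (1 + 2 * δ') ≤ L ^ (1 + δ) :=
          Real.rpow_le_rpow_of_exponent_le hL1.le (by linarith)
        rw [le_div_iff₀ hMpos]
        calc (S₀.card : ℝ) * M ≤ M₀ * M₀ :=
              mul_le_mul hS₀c h3 hMpos.le hM₀pos.le
          _ = L ^ (1 + 2 * δ') := h4
          _ ≤ L ^ (1 + δ) := h5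
    -- the blocks
    set kk : ℕ → ℕ := fun m => ⌊Real.logb (11 / 10) ((m : ℝ) / M')⌋₊ with hkk
    set K : ℕ := ⌊Real.logb (11 / 10) L⌋₊ with hK
    have hge : ∀ m ∈ S₁, m ∈ S ∧ M' ≤ (m : ℝ) := by
      intro m hm
      obtain ⟨h1, h2⟩ := Finset.mem_filter.1 hm
      exact ⟨h1, max_le (hS m h1).2.1 (not_lt.1 h2)⟩
    have hmaps : ∀ m ∈ S₁, kk m ∈ Finset.range (K + 1) := by
      intro m hm
      obtain ⟨h1, h2'⟩ := hge m hm
      have h3 := (hS m h1).2.2
      have hm0 : (0 : ℝ) < m := lt_of_lt_of_le hM'pos h2'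
      rw [Finset.mem_range]
      refine Nat.lt_succ_of_le (Nat.floor_le_floor ?_)
      apply Real.logb_le_logb_of_le hb (by positivity)
      rw [div_le_iff₀ hM'pos]
      nlinarith
    set X : ℝ := L ^ (1 + δ') / M' with hX
    have hX0 : 0 < X := div_pos (Real.rpow_pos_of_pos hLpos _) hM'pos
    have hfib : ∀ k ∈ Finset.range (K + 1),
        ((S₁.filter (fun m => kk m = k)).card : ℝ) ≤ X * (10 / 11 : ℝ) ^ k := by
      intro k _
      by_cases hemp : (S₁.filter (fun m => kk m = k)).Nonempty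
      · obtain ⟨m₀, hm₀⟩ := hemp
        set M₂ : ℝ := M' * (11 / 10 : ℝ) ^ k with hM₂
        have hpt : ∀ m ∈ S₁.filter (fun m => kk m = k),
            m ∈ Sol t ∧ M₂ ≤ m ∧ (m : ℝ) ≤ 11 / 10 * M₂ := by
          intro m hm
          obtain ⟨h1, h2⟩ := Finset.mem_filter.1 hm
          obtain ⟨h3, h4⟩ := hge m h1
          have h5 := OuterA.block_of M' m hM'pos h4
          have h6 : ⌊Real.logb (11 / 10) ((m : ℝ) / M')⌋₊ = k := h2
          rw [h6] at h5
          exact ⟨(hS m h3).1, h5.1, h5.2⟩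
        have hM1 : M₀ ≤ M₂ := by
          rw [hM₂]
          exact le_trans hM'M₀ (le_mul_of_one_le_right hM'pos.le (one_le_pow₀ hb.le))
        have hM2 : 15 * M₂ ≤ L := by
          have h1 := (hpt m₀ hm₀).2.1
          have h2 := (hS m₀ (hge m₀ (Finset.mem_filter.1 hm₀).1).1).2.2
          have h3 : 15 * M₂ ≤ 15 * (m₀ : ℝ) := by linarith
          exact le_trans h3 h2
        have h7 := hL₀ t M₂ _ (by linarith) hM1 hM2 hpt
        refine le_trans h7 (le_of_eq ?_)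
        have hp : (10 / 11 : ℝ) ^ k = ((11 / 10 : ℝ) ^ k)⁻¹ := by
          rw [← inv_pow]; norm_num
        rw [hX, hM₂, hp, ← div_eq_mul_inv, div_div]
      · rw [Finset.not_nonempty_iff_eq_empty.1 hemp]
        simp only [Finset.card_empty, Nat.cast_zero]
        positivity
    have hS₁c : (S₁.card : ℝ) ≤ 11 * X := by
      rw [Finset.card_eq_sum_card_fiberwise hmaps]
      push_cast
      refine le_trans (Finset.sum_le_sum hfib) ?_
      rw [← Finset.mul_sum, mul_comm]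
      exact mul_le_mul_of_nonneg_right (Outer2A.geom _) hX0.le
    have hX1 : X ≤ L ^ (1 + δ) / M := by
      have h5 : L ^ (1 + δ') ≤ L ^ (1 + δ) :=
        Real.rpow_le_rpow_of_exponent_le hL1.le (by linarith)
      exact div_le_div₀ (Real.rpow_nonneg hLpos.le _) h5 hMpos hM'M
    have hX2 : X ≤ L ^ (1 / 2 + δ) := by
      have h1 : X ≤ L ^ (1 + δ') / M₀ :=
        div_le_div_of_nonneg_left (Real.rpow_nonneg hLpos.le _) hM₀pos hM'M₀
      have h2 : L ^ (1 + δ') / M₀ = L ^ (1 / 2 : ℝ) := by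
        rw [hM₀, ← Real.rpow_sub hLpos]
        congr 1
        ring
      have h3 : L ^ (1 / 2 : ℝ) ≤ L ^ (1 / 2 + δ) :=
        Real.rpow_le_rpow_of_exponent_le hL1.le (by linarith)
      rw [h2] at h1
      exact le_trans h1 h3
    have hfin : (S.card : ℝ) = S₀.card + S₁.card := by exact_mod_cast hcard
    constructor
    · calc (S.card : ℝ) = S₀.card + S₁.card := hfin
        _ ≤ L ^ (1 + δ) / M + 11 * (L ^ (1 + δ) / M) :=
            add_le_add hS₀d (le_trans hS₁c (mul_le_mul_of_nonneg_left hX1 (by norm_num)))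
        _ = 12 * (L ^ (1 + δ) / M) := by ring
        _ ≤ (C₁ + C₂ + 12) * (L ^ (1 + δ) / M) := hmon _ _ _ hLe0.le (by linarith)
    · calc (S.card : ℝ) = S₀.card + S₁.card := hfin
        _ ≤ L ^ (1 / 2 + δ) + 11 * L ^ (1 / 2 + δ) :=
            add_le_add (le_trans hS₀c hM₀L)
              (le_trans hS₁c (mul_le_mul_of_nonneg_left hX2 (by norm_num)))
        _ = 12 * L ^ (1 / 2 + δ) := by ring
        _ ≤ (C₁ + C₂ + 12) * L ^ (1 / 2 + δ) := hmon _ _ _ hLd0.le (by linarith)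

end Pool.Agent.H86.SM
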