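import Pool.Agent.H86.SM.MainB
import Pool.Agent.H86.SM.CoreF
import Pool.Agent.H86.SM.Block2
import Pool.Agent.H86.SM.Outer2
import Pool.Agent.H86.SM.Count2
import Pool.Agent.H43.Sing.Main

/-!
# Singmaster's problem: the positions away from the edges

Modules by: helper3 (Zero in the centre region), helper29 (Outer, Outer2, Loc),
helper32 (Win), helper33 (Zero), helper36 (SubDisc, Trop), helper37 (Jarnik, Arith),
helper43 (centre region), helper53 (Interp), helper64 (Count), helper84 (Jarnik),
helper85 (Extrap, Iter), helper86 (statements, Core, Blaschke, Main), helper91 (Block),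
helper97 (Lam, Psi, Sig).
-/

namespace Pool.Agent.H86.SM

theorem finalB : MainStB :=
  mainB arith (outer2 (block2 core_final)) Pool.Agent.H43.Sing.center (count arith) (count2 arith)

end Pool.Agent.H86.SM
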