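import Pool.Agent.H86.SM.St
import Pool.Agent.H84.Sing.Jarnik

/-! # The region `log t ≤ c m`: the elementary bound -/

namespace Pool.Agent.H86.SM

theorem jarnik : JarnikSt := by
  intro c hc
  obtain ⟨C, _, hC⟩ := H84.Sing.region_count c hc
  refine ⟨C, fun t S ht hS => hC t ht S fun m hm => ?_⟩
  obtain ⟨⟨h1, h2⟩, h3⟩ := hS m hm
  exact ⟨h1, h3, h2⟩

end Pool.Agent.H86.SM
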