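import Pool.Agent.H86.SM.St

/-! # The final assembly -/

namespace Pool.Agent.H86.SM

open Set

/-- The final theorem. -/
def MainSt : Prop :=
  (∃ C : ℝ, ∀ t : ℕ, 2 ≤ t →
    {p : ℕ × ℕ | p.2 ≤ p.1 ∧ p.1.choose p.2 = t}.Finite ∧
    ({p : ℕ × ℕ | p.2 ≤ p.1 ∧ p.1.choose p.2 = t}.ncard : ℝ) ≤ C * Real.log t ^ (2 / 3 : ℝ)) ∧
  ∀ δ : ℝ, 0 < δ → ∃ C : ℝ, ∀ t : ℕ, 2 ≤ t →
    ({p : ℕ × ℕ | p.2 ≤ p.1 ∧ p.1.choose p.2 = t ∧ 15 * (p.2 : ℝ) ≤ Real.log t}.ncard : ℝ) ≤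
      C * Real.log t ^ (1 / 2 + δ)

theorem main (O : OuterSt) (Jn : JarnikSt) (Cn : CountSt) : MainSt := by
  classical
  constructor
  · obtain ⟨C₁, h1⟩ := O (1 / 6) (by norm_num)
    obtain ⟨C₂, h2⟩ := Jn 15 (by norm_num)
    refine ⟨2 * (C₁ + C₂), fun t ht => ?_⟩
    obtain ⟨hf, hfin, hc, -⟩ := Cn t ht
    refine ⟨hf, ?_⟩
    set A : Finset ℕ := hfin.toFinset with hA
    set S₁ : Finset ℕ := A.filter (fun m => 15 * (m : ℝ) ≤ Real.log t) with hS1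
    set S₂ : Finset ℕ := A.filter (fun m => ¬ 15 * (m : ℝ) ≤ Real.log t) with hS2
    have h3 := h1 t S₁ ht (by
      intro m hm
      rw [hS1, Finset.mem_filter] at hm
      exact ⟨hfin.mem_toFinset.1 hm.1, hm.2⟩)
    have h4 := h2 t S₂ ht (by
      intro m hm
      rw [hS2, Finset.mem_filter] at hm
      exact ⟨hfin.mem_toFinset.1 hm.1, (not_le.1 hm.2).le⟩)
    have h5 : A.card = S₁.card + S₂.card := by
      rw [hS1, hS2, Finset.card_filter_add_card_filter_not]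
    have h6 : (Sol t).ncard = A.card := by
      rw [hA, Set.ncard_eq_toFinset_card _ hfin]
    have h7 : (1 / 2 + 1 / 6 : ℝ) = 2 / 3 := by norm_num
    rw [h7] at h3
    rw [h6, h5] at hc
    have h8 : ({p : ℕ × ℕ | p.2 ≤ p.1 ∧ p.1.choose p.2 = t}.ncard : ℝ) ≤
        2 * ((S₁.card : ℝ) + S₂.card) := by exact_mod_cast hc
    calc _ ≤ 2 * ((S₁.card : ℝ) + S₂.card) := h8
      _ ≤ 2 * (C₁ * Real.log t ^ (2 / 3 : ℝ) + C₂ * Real.log t ^ (2 / 3 : ℝ)) := by linarith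
      _ = _ := by ring
  · intro δ hδ
    obtain ⟨C, h1⟩ := O δ hδ
    refine ⟨C, fun t ht => ?_⟩
    obtain ⟨-, hfin, -, hc⟩ := Cn t ht
    have hfin2 : {m | m ∈ Sol t ∧ 15 * (m : ℝ) ≤ Real.log t}.Finite :=
      hfin.subset fun m hm => hm.1
    have h3 := h1 t hfin2.toFinset ht (by
      intro m hm
      exact hfin2.mem_toFinset.1 hm)
    rw [← Set.ncard_eq_toFinset_card _ hfin2] at h3
    exact le_trans (by exact_mod_cast hc) h3

end Pool.Agent.H86.SM
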