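import Pool.Agent.H86.SM.St2
import Pool.Agent.H3.Sing.Block3

/-! # The final assembly, sharpest form -/

namespace Pool.Agent.H86.SM

open Set

/-- The final theorem, sharpest form. -/
def MainSt3 : Prop := ∀ δ : ℝ, 0 < δ → ∃ C : ℝ, ∀ t : ℕ, 2 ≤ t →
  {p : ℕ × ℕ | p.2 ≤ p.1 ∧ p.1.choose p.2 = t}.Finite ∧
  ({p : ℕ × ℕ | p.2 ≤ p.1 ∧ p.1.choose p.2 = t}.ncard : ℝ) ≤
    C * (Real.log t ^ (1 / 2 : ℝ) * (1 + Real.log (1 + Real.log t)) ^ 3) ∧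
  ∀ M : ℝ, 1 ≤ M →
    ({p : ℕ × ℕ | p.2 ≤ p.1 ∧ p.1.choose p.2 = t ∧ M ≤ p.2 ∧ M ≤ (p.1 : ℝ) - p.2}.ncard : ℝ) ≤
      C * (Real.log t ^ (1 + δ) / M)

theorem main3 (A : ArithSt) (O3 : OuterSt3) (O : OuterSt2) (Ce : CenterSt) (Cn : CountSt)
    (Cn2 : CountSt2) : MainSt3 := by
  classical
  intro δ hδ
  obtain ⟨C₀, h0⟩ := O3
  obtain ⟨C₁, h1⟩ := O δ hδ
  obtain ⟨C₂, h2⟩ := Ce 15 (1 / 2) (by norm_num) (by norm_num)
  obtain ⟨C₃, h3⟩ := Ce 15 δ (by norm_num) hδ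
  refine ⟨2 * (|C₀| + |C₁| + |C₂| + 2 * |C₃|), fun t ht => ?_⟩
  obtain ⟨hf, hfin, hc, -⟩ := Cn t ht
  have ht1 : (1 : ℝ) < t := by exact_mod_cast ht
  have hL : 0 < Real.log t := Real.log_pos ht1
  set L : ℝ := Real.log t with hLdef
  have key : ∀ M : ℝ, 1 ≤ M → ∃ S₁ S₂ : Finset ℕ,
      {m | m ∈ Sol t ∧ M ≤ m}.ncard = S₁.card + S₂.card ∧
      (∀ m ∈ S₁, m ∈ Sol t ∧ M ≤ m ∧ 15 * (m : ℝ) ≤ L) ∧
      (∀ m ∈ S₂, 1 ≤ m ∧ (∃ n : ℕ, 2 * m ≤ n ∧ n.choose m = t) ∧ L ≤ 15 * m) ∧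
      (∀ m ∈ S₂, M ≤ m) := by
    intro M hM
    have hfin2 : {m | m ∈ Sol t ∧ M ≤ m}.Finite := hfin.subset fun m hm => hm.1
    refine ⟨hfin2.toFinset.filter (fun m => 15 * (m : ℝ) ≤ L),
      hfin2.toFinset.filter (fun m => ¬ 15 * (m : ℝ) ≤ L), ?_, ?_, ?_, ?_⟩
    · rw [Finset.card_filter_add_card_filter_not, Set.ncard_eq_toFinset_card _ hfin2]
    · intro m hm
      rw [Finset.mem_filter, hfin2.mem_toFinset] at hm
      exact ⟨hm.1.1, hm.1.2, hm.2⟩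
    · intro m hm
      rw [Finset.mem_filter, hfin2.mem_toFinset] at hm
      exact ⟨hm.1.1.1, hm.1.1.2, (not_le.1 hm.2).le⟩
    · intro m hm
      rw [Finset.mem_filter, hfin2.mem_toFinset] at hm
      exact hm.1.2
  have hsol : {m : ℕ | m ∈ Sol t ∧ (1 : ℝ) ≤ m} = Sol t := by
    ext m
    constructor
    · exact fun h => h.1
    · exact fun h => ⟨h, by exact_mod_cast h.1⟩
  refine ⟨hf, ?_, fun M hM => ?_⟩
  · obtain ⟨S₁, S₂, k1, k2, k3, -⟩ := key 1 le_rfl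
    rw [hsol] at k1
    have a1 := h0 t S₁ ht fun m hm => ⟨(k2 m hm).1, (k2 m hm).2.2⟩
    have a2 := h2 t S₂ ht k3
    rw [← hLdef, mul_assoc] at a1
    rw [← hLdef] at a2
    have hy : 1 ≤ (1 + Real.log (1 + L)) ^ 3 := by
      have := Real.log_nonneg (show (1 : ℝ) ≤ 1 + L by linarith)
      exact one_le_pow₀ (by linarith)
    have hL2 : 0 < L ^ (1 / 2 : ℝ) := Real.rpow_pos_of_pos hL _
    have hX1 : L ^ (1 / 2 : ℝ) ≤ L ^ (1 / 2 : ℝ) * (1 + Real.log (1 + L)) ^ 3 :=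
      le_mul_of_one_le_right hL2.le hy
    set X : ℝ := L ^ (1 / 2 : ℝ) * (1 + Real.log (1 + L)) ^ 3 with hXdef
    have hX : 0 ≤ X := hL2.le.trans hX1
    have a3 : C₀ * X ≤ |C₀| * X := mul_le_mul_of_nonneg_right (le_abs_self _) hX
    have a4 : C₂ * L ^ (1 / 2 : ℝ) ≤ |C₂| * X :=
      (mul_le_mul_of_nonneg_right (le_abs_self _) hL2.le).trans
        (mul_le_mul_of_nonneg_left hX1 (abs_nonneg _))
    have a5 : 0 ≤ |C₃| * X := mul_nonneg (abs_nonneg _) hX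
    have a5' : 0 ≤ |C₁| * X := mul_nonneg (abs_nonneg _) hX
    rw [k1] at hc
    have a6 : ({p : ℕ × ℕ | p.2 ≤ p.1 ∧ p.1.choose p.2 = t}.ncard : ℝ) ≤
        2 * ((S₁.card : ℝ) + S₂.card) := by exact_mod_cast hc
    calc _ ≤ 2 * ((S₁.card : ℝ) + S₂.card) := a6
      _ ≤ 2 * (|C₀| * X + |C₂| * X) := by linarith
      _ ≤ _ := by nlinarith [a5, a5']
  · obtain ⟨S₁, S₂, k1, k2, k3, k4⟩ := key M hM
    have hM0 : 0 < M := by linarith
    have a1 := (h1 t M S₁ ht hM k2).1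
    have a2 := h3 t S₂ ht k3
    set X : ℝ := L ^ (1 + δ) / M with hXdef
    have hX : 0 ≤ X := div_nonneg (Real.rpow_pos_of_pos hL _).le hM0.le
    have a3 : C₁ * X ≤ |C₁| * X := mul_le_mul_of_nonneg_right (le_abs_self _) hX
    have a4 : (S₂.card : ℝ) ≤ 2 * |C₃| * X := by
      rcases S₂.eq_empty_or_nonempty with h | ⟨m, hm⟩
      · rw [h]
        simp only [Finset.card_empty, Nat.cast_zero]
        positivity
      · obtain ⟨b1, ⟨n, b2, b3⟩, -⟩ := k3 m hm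
        have b4 := k4 m hm
        have hm0 : (0 : ℝ) < m := by exact_mod_cast b1
        have b5 := A.low n m b1 (by omega)
        rw [b3] at b5
        have b6 : (2 : ℝ) ≤ (n : ℝ) / m := by
          rw [le_div_iff₀ hm0]
          exact_mod_cast b2
        have b7 : Real.log 2 ≤ Real.log ((n : ℝ) / m) := Real.log_le_log (by norm_num) b6
        have b8 : (1 / 2 : ℝ) ≤ Real.log 2 := by
          have := Real.log_two_gt_d9
          linarith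
        have b9 : M ≤ 2 * L := by nlinarith
        have b10 : L ^ δ ≤ 2 * X := by
          rw [hXdef, Real.rpow_add hL, Real.rpow_one, ← mul_div_assoc, le_div_iff₀ hM0]
          have := Real.rpow_pos_of_pos hL δ
          nlinarith
        calc (S₂.card : ℝ) ≤ C₃ * L ^ δ := a2
          _ ≤ |C₃| * L ^ δ := mul_le_mul_of_nonneg_right (le_abs_self _)
              (Real.rpow_pos_of_pos hL _).le
          _ ≤ |C₃| * (2 * X) := mul_le_mul_of_nonneg_left b10 (abs_nonneg _)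
          _ = _ := by ring
    have hc2 := Cn2 t M ht
    rw [k1] at hc2
    have a6 : ({p : ℕ × ℕ | p.2 ≤ p.1 ∧ p.1.choose p.2 = t ∧ M ≤ p.2 ∧
        M ≤ (p.1 : ℝ) - p.2}.ncard : ℝ) ≤ 2 * ((S₁.card : ℝ) + S₂.card) := by exact_mod_cast hc2
    have a7 : 0 ≤ |C₂| * X := mul_nonneg (abs_nonneg _) hX
    have a8 : 0 ≤ |C₀| * X := mul_nonneg (abs_nonneg _) hX
    calc _ ≤ 2 * ((S₁.card : ℝ) + S₂.card) := a6
      _ ≤ 2 * (|C₁| * X + 2 * |C₃| * X) := by linarith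
      _ ≤ _ := by nlinarith [a7, a8]

end Pool.Agent.H86.SM
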