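import Pool.Agent.H86.SM.St2
import Pool.Agent.H3.Sing.Block3

/-! # The assembly of the bound for the whole count -/

namespace Pool.Agent.H86.SM

open Set

/-- The bound for the number of occurrences of `t` in Pascal's triangle. -/
def MainStA : Prop := ∃ C : ℝ, ∀ t : ℕ, 2 ≤ t →
  {p : ℕ × ℕ | p.2 ≤ p.1 ∧ p.1.choose p.2 = t}.Finite ∧
  ({p : ℕ × ℕ | p.2 ≤ p.1 ∧ p.1.choose p.2 = t}.ncard : ℝ) ≤
    C * (Real.log t ^ (1 / 2 : ℝ) * (1 + Real.log (1 + Real.log t)) ^ 3)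

theorem mainA (O3 : OuterSt3) (Ce : CenterSt) (Cn : CountSt) : MainStA := by
  classical
  obtain ⟨C₀, h0⟩ := O3
  obtain ⟨C₂, h2⟩ := Ce 15 (1 / 2) (by norm_num) (by norm_num)
  refine ⟨2 * (|C₀| + |C₂|), fun t ht => ?_⟩
  obtain ⟨hf, hfin, hc, -⟩ := Cn t ht
  have ht1 : (1 : ℝ) < t := by exact_mod_cast ht
  have hL : 0 < Real.log t := Real.log_pos ht1
  set L : ℝ := Real.log t with hLdef
  obtain ⟨S₁, S₂, k1, k2, k3⟩ : ∃ S₁ S₂ : Finset ℕ,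
      (Sol t).ncard = S₁.card + S₂.card ∧
      (∀ m ∈ S₁, m ∈ Sol t ∧ 15 * (m : ℝ) ≤ L) ∧
      (∀ m ∈ S₂, 1 ≤ m ∧ (∃ n : ℕ, 2 * m ≤ n ∧ n.choose m = t) ∧ L ≤ 15 * m) := by
    refine ⟨hfin.toFinset.filter (fun m => 15 * (m : ℝ) ≤ L),
      hfin.toFinset.filter (fun m => ¬ 15 * (m : ℝ) ≤ L), ?_, ?_, ?_⟩
    · rw [Finset.card_filter_add_card_filter_not, Set.ncard_eq_toFinset_card _ hfin]
    · intro m hm
      rw [Finset.mem_filter, hfin.mem_toFinset] at hm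
      exact ⟨hm.1, hm.2⟩
    · intro m hm
      rw [Finset.mem_filter, hfin.mem_toFinset] at hm
      exact ⟨hm.1.1, hm.1.2, (not_le.1 hm.2).le⟩
  refine ⟨hf, ?_⟩
  have a1 := h0 t S₁ ht fun m hm => ⟨(k2 m hm).1, (k2 m hm).2⟩
  have a2 := h2 t S₂ ht k3
  rw [← hLdef, mul_assoc] at a1
  rw [← hLdef] at a2
  have hy : 1 ≤ (1 + Real.log (1 + L)) ^ 3 := by
    have := Real.log_nonneg (show (1 : ℝ) ≤ 1 + L by linarith)
    exact one_le_pow₀ (by linarith)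
  have hL2 : 0 < L ^ (1 / 2 : ℝ) := Real.rpow_pos_of_pos hL _
  have hX1 : L ^ (1 / 2 : ℝ) ≤ L ^ (1 / 2 : ℝ) * (1 + Real.log (1 + L)) ^ 3 :=
    le_mul_of_one_le_right hL2.le hy
  set X : ℝ := L ^ (1 / 2 : ℝ) * (1 + Real.log (1 + L)) ^ 3 with hXdef
  have hX : 0 ≤ X := hL2.le.trans hX1
  have a3 : C₀ * X ≤ |C₀| * X := mul_le_mul_of_nonneg_right (le_abs_self _) hX
  have a4 : C₂ * L ^ (1 / 2 : ℝ) ≤ |C₂| * X :=
    (mul_le_mul_of_nonneg_right (le_abs_self _) hL2.le).trans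
      (mul_le_mul_of_nonneg_left hX1 (abs_nonneg _))
  rw [k1] at hc
  have a6 : ({p : ℕ × ℕ | p.2 ≤ p.1 ∧ p.1.choose p.2 = t}.ncard : ℝ) ≤
      2 * ((S₁.card : ℝ) + S₂.card) := by exact_mod_cast hc
  calc _ ≤ 2 * ((S₁.card : ℝ) + S₂.card) := a6
    _ ≤ 2 * (|C₀| * X + |C₂| * X) := by linarith
    _ = _ := by ring

end Pool.Agent.H86.SM
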