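import Pool.Agent.H86.SM.St2

/-! # The assembly of the bound for the positions away from the edges -/

namespace Pool.Agent.H86.SM

open Set

/-- The bound for the number of positions `(n, k)` of `t` with `M ≤ k ≤ n - M`. -/
def MainStB : Prop := ∀ δ : ℝ, 0 < δ → ∃ C : ℝ, ∀ t : ℕ, 2 ≤ t → ∀ M : ℝ, 1 ≤ M →
  {p : ℕ × ℕ | p.2 ≤ p.1 ∧ p.1.choose p.2 = t ∧ M ≤ p.2 ∧ M ≤ (p.1 : ℝ) - p.2}.Finite ∧
  ({p : ℕ × ℕ | p.2 ≤ p.1 ∧ p.1.choose p.2 = t ∧ M ≤ p.2 ∧ M ≤ (p.1 : ℝ) - p.2}.ncard : ℝ) ≤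
    C * (Real.log t ^ (1 + δ) / M)

theorem mainB (A : ArithSt) (O : OuterSt2) (Ce : CenterSt) (Cn : CountSt)
    (Cn2 : CountSt2) : MainStB := by
  classical
  intro δ hδ
  obtain ⟨C₁, h1⟩ := O δ hδ
  obtain ⟨C₃, h3⟩ := Ce 15 δ (by norm_num) hδ
  refine ⟨2 * (|C₁| + 2 * |C₃|), fun t ht M hM => ?_⟩
  obtain ⟨hf, hfin, -, -⟩ := Cn t ht
  have ht1 : (1 : ℝ) < t := by exact_mod_cast ht
  have hL : 0 < Real.log t := Real.log_pos ht1
  set L : ℝ := Real.log t with hLdef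
  have hfin2 : {m | m ∈ Sol t ∧ M ≤ m}.Finite := hfin.subset fun m hm => hm.1
  obtain ⟨S₁, S₂, k1, k2, k3, k4⟩ : ∃ S₁ S₂ : Finset ℕ,
      {m | m ∈ Sol t ∧ M ≤ m}.ncard = S₁.card + S₂.card ∧
      (∀ m ∈ S₁, m ∈ Sol t ∧ M ≤ m ∧ 15 * (m : ℝ) ≤ L) ∧
      (∀ m ∈ S₂, 1 ≤ m ∧ (∃ n : ℕ, 2 * m ≤ n ∧ n.choose m = t) ∧ L ≤ 15 * m) ∧
      (∀ m ∈ S₂, M ≤ m) := by
    refine ⟨hfin2.toFinset.filter (fun m => 15 * (m : ℝ) ≤ L),
      hfin2.toFinset.filter (fun m => ¬ 15 * (m : ℝ) ≤ L), ?_, ?_, ?_, ?_⟩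
    · rw [Finset.card_filter_add_card_filter_not, Set.ncard_eq_toFinset_card _ hfin2]
    · intro m hm
      rw [Finset.mem_filter, hfin2.mem_toFinset] at hm
      exact ⟨hm.1.1, hm.1.2, hm.2⟩
    · intro m hm
      rw [Finset.mem_filter, hfin2.mem_toFinset] at hm
      exact ⟨hm.1.1.1, hm.1.1.2, (not_le.1 hm.2).le⟩
    · intro m hm
      rw [Finset.mem_filter, hfin2.mem_toFinset] at hm
      exact hm.1.2
  have hM0 : 0 < M := by linarith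
  refine ⟨hf.subset fun p hp => ⟨hp.1, hp.2.1⟩, ?_⟩
  have a1 := (h1 t M S₁ ht hM k2).1
  have a2 := h3 t S₂ ht k3
  set X : ℝ := L ^ (1 + δ) / M with hXdef
  have hX : 0 ≤ X := div_nonneg (Real.rpow_pos_of_pos hL _).le hM0.le
  have a3 : C₁ * X ≤ |C₁| * X := mul_le_mul_of_nonneg_right (le_abs_self _) hX
  have a4 : (S₂.card : ℝ) ≤ 2 * |C₃| * X := by
    rcases S₂.eq_empty_or_nonempty with h | ⟨m, hm⟩
    · rw [h]
      simp only [Finset.card_empty, Nat.cast_zero]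
      positivity
    · obtain ⟨b1, ⟨n, b2, b3⟩, -⟩ := k3 m hm
      have b4 := k4 m hm
      have hm0 : (0 : ℝ) < m := by exact_mod_cast b1
      have b5 := A.low n m b1 (by omega)
      rw [b3] at b5
      have b6 : (2 : ℝ) ≤ (n : ℝ) / m := by
        rw [le_div_iff₀ hm0]
        exact_mod_cast b2
      have b7 : Real.log 2 ≤ Real.log ((n : ℝ) / m) := Real.log_le_log (by norm_num) b6
      have b8 : (1 / 2 : ℝ) ≤ Real.log 2 := by
        have := Real.log_two_gt_d9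
        linarith
      have b9 : M ≤ 2 * L := by nlinarith
      have b10 : L ^ δ ≤ 2 * X := by
        rw [hXdef, Real.rpow_add hL, Real.rpow_one, ← mul_div_assoc, le_div_iff₀ hM0]
        have := Real.rpow_pos_of_pos hL δ
        nlinarith
      calc (S₂.card : ℝ) ≤ C₃ * L ^ δ := a2
        _ ≤ |C₃| * L ^ δ := mul_le_mul_of_nonneg_right (le_abs_self _)
            (Real.rpow_pos_of_pos hL _).le
        _ ≤ |C₃| * (2 * X) := mul_le_mul_of_nonneg_left b10 (abs_nonneg _)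
        _ = _ := by ring
  have hc2 := Cn2 t M ht
  rw [k1] at hc2
  have a6 : ({p : ℕ × ℕ | p.2 ≤ p.1 ∧ p.1.choose p.2 = t ∧ M ≤ p.2 ∧
      M ≤ (p.1 : ℝ) - p.2}.ncard : ℝ) ≤ 2 * ((S₁.card : ℝ) + S₂.card) := by exact_mod_cast hc2
  calc _ ≤ 2 * ((S₁.card : ℝ) + S₂.card) := a6
    _ ≤ 2 * (|C₁| * X + 2 * |C₃| * X) := by linarith
    _ = _ := by ring

end Pool.Agent.H86.SM
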