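import Mathlib

/-! # Singmaster: definitions and statements of the modules -/

namespace Pool.Agent.H86.SM

open Metric Set

noncomputable section

/-- The solutions of `C(n,m) = t` in the left half of the triangle. -/
def Sol (t : ℕ) : Set ℕ := {m | 1 ≤ m ∧ ∃ n : ℕ, 2 * m ≤ n ∧ n.choose m = t}

/-! ### Arith.lean -/

/-- Elementary bounds for binomial coefficients. -/
structure ArithSt : Prop where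
  low : ∀ n m : ℕ, 1 ≤ m → m ≤ n → (m : ℝ) * Real.log (n / m) ≤ Real.log (n.choose m)
  up : ∀ n m : ℕ, 1 ≤ m → m ≤ n → Real.log (n.choose m) ≤ m * (1 + Real.log (n / m))
  /-- `log C(n,m) = m log n + ∑ log(1 - i/n) - log m!` -/
  exact : ∀ n m : ℕ, 1 ≤ m → m ≤ n → Real.log (n.choose m) =
    m * Real.log n + ∑ i ∈ Finset.range m, Real.log (1 - (i : ℝ) / n) - Real.log (m.factorial)
  /-- a solution with `m ≤ (log t)/15` is in the left half -/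
  half : ∀ t n m : ℕ, 1 ≤ m → m ≤ n → n.choose m = t → 15 * (m : ℝ) ≤ Real.log t → 2 * m ≤ n

/-! ### Sig.lean -/

/-- Faulhaber's polynomial: `sig k m = ∑_{i<m} i^k`. -/
def sig (k : ℕ) (z : ℂ) : ℂ :=
  ∑ i ∈ Finset.range (k + 1),
    ((bernoulli i : ℚ) : ℂ) * ((k + 1).choose i : ℂ) * z ^ (k + 1 - i) / ((k : ℂ) + 1)

structure SigSt : Prop where
  nat : ∀ k m : ℕ, sig k (m : ℂ) = ∑ i ∈ Finset.range m, (i : ℂ) ^ k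
  bound : ∀ (k : ℕ) (z : ℂ), 2 * ((k : ℝ) + 1) ≤ ‖z‖ →
    ‖sig k z‖ ≤ 2 * ‖z‖ ^ (k + 1) / ((k : ℝ) + 1)

/-! ### Lam.lean -/

/-- A holomorphic `log Γ(z+1)` in the right half plane. -/
def IsLam (lam : ℂ → ℂ) : Prop := DifferentiableOn ℂ lam {z | 0 < z.re} ∧
  (∀ m : ℕ, 1 ≤ m → lam (m : ℂ) = ((Real.log (m.factorial) : ℝ) : ℂ)) ∧
  ∀ z : ℂ, 0 < z.re → 1 ≤ ‖z‖ → ‖lam z / z - Complex.log z‖ ≤ 4

def LamSt : Prop := ∃ lam : ℂ → ℂ, IsLam lam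

/-! ### Psi.lean -/

/-- The correction `s ∑_{k ≤ K} sig k (1/s) / (k n^k)`, `n = exp w`. -/
def Psi (K : ℕ) (s w : ℂ) : ℂ :=
  s * ∑ k ∈ Finset.range K, sig (k + 1) s⁻¹ / (((k : ℂ) + 1) * Complex.exp (((k : ℂ) + 1) * w))

/-- `Psi` is small and a contraction in `w` when `|exp w| ≥ 8 |z|`, `z = 1/s`. -/
def PsiSt : Prop := ∀ (K : ℕ) (s w w' : ℂ), s ≠ 0 → 2 * ((K : ℝ) + 1) * ‖s‖ < 1 →
  Real.log 8 + Real.log (1 / ‖s‖) ≤ w.re → Real.log 8 + Real.log (1 / ‖s‖) ≤ w'.re →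
  ‖Psi K s w‖ ≤ 1 / 7 ∧ ‖Psi K s w - Psi K s w'‖ ≤ 1 / 7 * ‖w - w'‖

/-! ### Iter.lean -/

/-- The domain (in the variable `s = 1/z`). -/
def Om (t K : ℕ) : Set ℂ :=
  {s | 36 / 5 < Real.log t * s.re ∧ 2 * ((K : ℝ) + 1) * ‖s‖ < 1}

/-- The approximate analytic solution `n = exp (W (1/m))` of `C(n,m) = t`. -/
def IterSt : Prop := ∀ t K : ℕ, 2 ≤ t → 1 ≤ K → ∃ W : ℂ → ℂ,
  DifferentiableOn ℂ W (Om t K) ∧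
  (∀ s ∈ Om t K, |(W s).re - Real.log t * s.re - Real.log (1 / ‖s‖)| ≤ 5) ∧
  ∀ m n : ℕ, 1 ≤ m → m ≤ n → n.choose m = t → ((m : ℂ)⁻¹) ∈ Om t K →
    ‖W ((m : ℂ)⁻¹) - ((Real.log n : ℝ) : ℂ)‖ ≤ (1 / 3) ^ K

/-! ### Interp.lean -/

/-- An exact analytic function through finitely many solutions on the disc with centre
`R + 1/(2M)` and radius `R`. -/
def InterpSt : Prop := ∀ (t K : ℕ) (M R : ℝ) (S : Finset ℕ) (ν : ℕ → ℕ), 2 ≤ t → 1 ≤ K → 2 ≤ M →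
  15 * M ≤ Real.log t → 1 / M ≤ R →
  (∀ m ∈ S, M ≤ m ∧ (m : ℝ) ≤ 11 / 10 * M ∧ m ≤ ν m ∧ (ν m).choose m = t) →
  2 * ((K : ℝ) + 1) * (2 * R + 1 / (2 * M)) < 1 →
  (S.card : ℝ) * Real.log (4 * R * M ^ 2) + Real.log (4 * ((S.card : ℝ) + 1) * M) +
    Real.log t / M ≤ K * Real.log 3 →
  ∃ f : ℂ → ℂ, DiffContOnCl ℂ f (ball (((R + 1 / (2 * M) : ℝ)) : ℂ) R) ∧
    (∀ s ∈ closedBall (((R + 1 / (2 * M) : ℝ)) : ℂ) R,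
      f s ≠ 0 ∧ |Real.log ‖f s‖ - Real.log t * s.re| ≤ Real.log (2 * M) + 6) ∧
    ∀ m ∈ S, f ((m : ℂ)⁻¹) = ((ν m : ℕ) : ℂ)

/-! ### Blaschke.lean -/

/-- The Blaschke estimate in the unit disc. -/
def BlaschkeSt : Prop := ∀ (g : ℂ → ℂ) (A : ℝ) (Z : Finset ℂ) (z : ℂ),
  DiffContOnCl ℂ g (ball 0 1) → (∀ w ∈ sphere (0 : ℂ) 1, ‖g w‖ ≤ A) →
  (∀ a ∈ Z, ‖a‖ < 1 ∧ g a = 0) → ‖z‖ < 1 →
  ‖g z‖ ≤ A * ∏ a ∈ Z, ‖(z - a) / (1 - (starRingEnd ℂ) a * z)‖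

/-! ### SubDisc.lean -/

/-- A polynomial is not small on a small disc: `a` is a bound from below for its maximum on the
unit disc. -/
def SubDiscSt : Prop := ∀ (I : ℕ) (Q : Polynomial ℂ) (a r : ℝ) (x v : ℂ), Q.natDegree ≤ I →
  0 < r → r ≤ 2 → ‖x‖ ≤ 1 → ‖v‖ ≤ 1 → a ≤ ‖Q.eval v‖ →
  ∃ w ∈ closedBall x r, a * (r / 2) ^ I / ((I : ℝ) + 1) ≤ ‖Q.eval w‖

/-! ### Trop.lean -/

/-- Tropical pigeonhole principle: among the lines `a j + j T x`, `j ∈ s ⊆ {0,…,J}`, one dominates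
all others on one of `J + 1` consecutive intervals. -/
def TropSt : Prop := ∀ (J : ℕ) (s : Finset ℕ) (a : ℕ → ℝ) (x₀ h T : ℝ), s.Nonempty →
  (∀ j ∈ s, j ≤ J) → 0 < h → 0 < T → ∃ i : ℕ, i ≤ J ∧ ∃ j₀ ∈ s, ∀ j ∈ s,
    a j + j * T * (x₀ + i * h) ≤ a j₀ + j₀ * T * (x₀ + i * h) ∧
    a j + j * T * (x₀ + (i + 1) * h) ≤ a j₀ + j₀ * T * (x₀ + (i + 1) * h)

/-! ### Zero.lean -/

/-- The zero estimate for `∑ Q_j f^j` in the unit disc, `|f| = exp(T Re v + O(V))`. -/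
def ZeroSt : Prop := ∀ (I J : ℕ) (V T δ : ℝ) (f : ℂ → ℂ) (Q : ℕ → Polynomial ℂ) (Z : Finset ℂ),
  1 ≤ J → 0 ≤ V → 0 < δ →
  8 * ((J : ℝ) + 1) * (V + ((I : ℝ) + 1) * Real.log (16 * ((J : ℝ) + 1))) ≤ T →
  DiffContOnCl ℂ f (ball 0 1) →
  (∀ v ∈ closedBall (0 : ℂ) 1, f v ≠ 0 ∧ |Real.log ‖f v‖ - T * v.re| ≤ V) →
  (∀ j, (Q j).natDegree ≤ I) → (∃ j ≤ J, Q j ≠ 0) →
  (∀ a ∈ Z, ‖a‖ ≤ 1 - δ ∧ ∑ j ∈ Finset.range (J + 1), (Q j).eval a * f a ^ j = 0) →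
  (Z.card : ℝ) * δ ≤ 12 * J * T

/-! ### Extrap.lean -/

/-- Siegel's lemma and extrapolation: an integer polynomial `P(m,n)` that vanishes at all points
`(m, ν m)`. -/
def ExtrapSt : Prop := ∀ (M F N₁ : ℝ) (I J : ℕ) (S : Finset ℕ) (ν : ℕ → ℕ) (f : ℂ → ℂ), 2 ≤ M →
  1 ≤ I → 1 ≤ J → 1 ≤ F → 1 ≤ N₁ →
  (∀ m ∈ S, M ≤ m ∧ (m : ℝ) ≤ 11 / 10 * M ∧ (ν m : ℝ) ≤ N₁ ∧ f ((m : ℂ)⁻¹) = ((ν m : ℕ) : ℂ)) →
  DiffContOnCl ℂ f (ball (((1 / M : ℝ)) : ℂ) (1 / (2 * M))) →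
  (∀ s ∈ closedBall (((1 / M : ℝ)) : ℂ) (1 / (2 * M)), ‖f s‖ ≤ F) →
  2 * I * Real.log (11 / 10 * M) + 2 * Real.log (((I : ℝ) + 1) * ((J : ℝ) + 1)) +
    J * (Real.log N₁ + Real.log F) < 4 / 5 * (((I : ℝ) + 1) * ((J : ℝ) + 1) - 1) →
  ∃ p : ℕ → ℕ → ℤ, (∃ i ≤ I, ∃ j ≤ J, p i j ≠ 0) ∧ ∀ m ∈ S,
    ∑ i ∈ Finset.range (I + 1), ∑ j ∈ Finset.range (J + 1), p i j * (m : ℤ) ^ i * (ν m : ℤ) ^ j = 0

/-! ### Core.lean -/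

/-- The number of solutions in a block, with explicit parameters. -/
def CoreSt : Prop := ∀ (t I J K : ℕ) (M T : ℝ) (S : Finset ℕ), 2 ≤ t → 1 ≤ K → 1 ≤ I → 1 ≤ J →
  2 ≤ M → 15 * M ≤ Real.log t → (∀ m ∈ S, m ∈ Sol t ∧ M ≤ m ∧ (m : ℝ) ≤ 11 / 10 * M) →
  2 * I * Real.log (11 / 10 * M) + 2 * Real.log (((I : ℝ) + 1) * ((J : ℝ) + 1)) +
    J * (5 / 2 * (Real.log t / M) + 2 * Real.log (2 * M) + 6) <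
      4 / 5 * (((I : ℝ) + 1) * ((J : ℝ) + 1) - 1) →
  8 * ((J : ℝ) + 1) * (Real.log (2 * M) + 6 + ((I : ℝ) + 1) * Real.log (16 * ((J : ℝ) + 1))) ≤ T →
  Real.log t / M ≤ T →
  2 * ((K : ℝ) + 1) * (2 * (T / Real.log t) + 1 / (2 * M)) < 1 →
  (S.card : ℝ) * Real.log (4 * (T / Real.log t) * M ^ 2) + Real.log (4 * ((S.card : ℝ) + 1) * M) +
    Real.log t / M ≤ K * Real.log 3 →
  (S.card : ℝ) ≤ 30 * J * T ^ 2 * M / Real.log t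

/-! ### Block.lean -/

/-- The number of solutions in a block. -/
def BlockSt : Prop := ∀ δ : ℝ, 0 < δ → δ ≤ 1 / 4 → ∃ L₀ : ℝ, ∀ (t : ℕ) (M : ℝ) (S : Finset ℕ),
  L₀ ≤ Real.log t → Real.log t ^ (1 / 2 + δ) ≤ M → 15 * M ≤ Real.log t →
  (∀ m ∈ S, m ∈ Sol t ∧ M ≤ m ∧ (m : ℝ) ≤ 11 / 10 * M) →
  (S.card : ℝ) ≤ Real.log t ^ (1 / 2 : ℝ)

/-! ### Outer.lean -/

/-- The number of solutions with `15 m ≤ log t`. -/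
def OuterSt : Prop := ∀ δ : ℝ, 0 < δ → ∃ C : ℝ, ∀ (t : ℕ) (S : Finset ℕ), 2 ≤ t →
  (∀ m ∈ S, m ∈ Sol t ∧ 15 * (m : ℝ) ≤ Real.log t) →
  (S.card : ℝ) ≤ C * Real.log t ^ (1 / 2 + δ)

/-! ### Jarnik.lean -/

/-- The number of solutions with `log t ≤ c m`. -/
def JarnikSt : Prop := ∀ c : ℝ, 0 < c → ∃ C : ℝ, ∀ (t : ℕ) (S : Finset ℕ), 2 ≤ t →
  (∀ m ∈ S, m ∈ Sol t ∧ Real.log t ≤ c * m) →
  (S.card : ℝ) ≤ C * Real.log t ^ (2 / 3 : ℝ)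

/-! ### Count.lean -/

/-- Positions and solutions. -/
def CountSt : Prop := ∀ t : ℕ, 2 ≤ t →
  {p : ℕ × ℕ | p.2 ≤ p.1 ∧ p.1.choose p.2 = t}.Finite ∧ (Sol t).Finite ∧
  {p : ℕ × ℕ | p.2 ≤ p.1 ∧ p.1.choose p.2 = t}.ncard ≤ 2 * (Sol t).ncard ∧
  {p : ℕ × ℕ | p.2 ≤ p.1 ∧ p.1.choose p.2 = t ∧ 15 * (p.2 : ℝ) ≤ Real.log t}.ncard ≤
    {m | m ∈ Sol t ∧ 15 * (m : ℝ) ≤ Real.log t}.ncard

end

end Pool.Agent.H86.SM
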