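import Pool.Agent.H86.SM.St

/-! # Singmaster: the zero estimate, auxiliary lemmas -/

set_option autoImplicit false

namespace Pool.Agent.H86.SM

open Metric Set

namespace ZeroA

/-- the hyperbolic distance factor -/
lemma factor (v a : ℂ) (δ : ℝ) (hδ : 0 < δ) (hv : ‖v‖ ≤ 1 / 2) (ha : ‖a‖ ≤ 1 - δ) :
    ‖(v - a) / (1 - (starRingEnd ℂ) a * v)‖ ≤ Real.exp (-(δ / 6)) := by
  have hvn := norm_nonneg v
  have han := norm_nonneg a
  have hav : ‖(starRingEnd ℂ) a * v‖ ≤ 1 / 2 := by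
    rw [norm_mul, RCLike.norm_conj]
    nlinarith
  have hY0 : 1 / 2 ≤ ‖1 - (starRingEnd ℂ) a * v‖ := by
    have := norm_sub_norm_le (1 : ℂ) ((starRingEnd ℂ) a * v)
    rw [norm_one] at this
    linarith
  have hY1 : ‖1 - (starRingEnd ℂ) a * v‖ ≤ 3 / 2 := by
    have := norm_sub_le (1 : ℂ) ((starRingEnd ℂ) a * v)
    rw [norm_one] at this
    linarith
  have hid : ‖1 - (starRingEnd ℂ) a * v‖ ^ 2 - ‖v - a‖ ^ 2 = (1 - ‖v‖ ^ 2) * (1 - ‖a‖ ^ 2) := by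
    rw [Complex.sq_norm, Complex.sq_norm, Complex.sq_norm, Complex.sq_norm,
      Complex.normSq_apply, Complex.normSq_apply, Complex.normSq_apply, Complex.normSq_apply]
    simp only [Complex.sub_re, Complex.sub_im, Complex.mul_re, Complex.mul_im, Complex.conj_re,
      Complex.conj_im, Complex.one_re, Complex.one_im]
    ring
  set X := ‖v - a‖ with hX
  set Y := ‖1 - (starRingEnd ℂ) a * v‖ with hY
  have hX0 : 0 ≤ X := norm_nonneg _
  have h1 : 3 / 4 ≤ 1 - ‖v‖ ^ 2 := by nlinarith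
  have h2 : δ ≤ 1 - ‖a‖ ^ 2 := by nlinarith
  have h3 : 3 / 4 * δ ≤ (1 - ‖v‖ ^ 2) * (1 - ‖a‖ ^ 2) := by
    have := mul_le_mul h1 h2 hδ.le (by linarith)
    linarith
  have h4 : δ / 3 * Y ^ 2 ≤ 3 / 4 * δ := by
    have : Y ^ 2 ≤ 9 / 4 := by nlinarith
    nlinarith
  have h5 : X ^ 2 ≤ (1 - δ / 3) * Y ^ 2 := by nlinarith
  have h6 : 1 - δ / 3 ≤ Real.exp (-(δ / 6)) ^ 2 := by
    rw [← Real.exp_nat_mul]
    have := Real.add_one_le_exp (((2 : ℕ) : ℝ) * (-(δ / 6)))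
    push_cast at this ⊢
    linarith
  have h7 : X ^ 2 ≤ (Real.exp (-(δ / 6)) * Y) ^ 2 := by
    rw [mul_pow]
    calc X ^ 2 ≤ (1 - δ / 3) * Y ^ 2 := h5
      _ ≤ _ := mul_le_mul_of_nonneg_right h6 (sq_nonneg _)
  rw [norm_div, div_le_iff₀ (by linarith)]
  exact (pow_le_pow_iff_left₀ hX0 (mul_nonneg (Real.exp_pos _).le (by linarith)) two_ne_zero).1 h7

/-- the maximum of a polynomial on the closed unit disc -/
lemma exists_max (Q : Polynomial ℂ) : ∃ b : ℝ, ∃ v ∈ closedBall (0 : ℂ) 1, ‖Q.eval v‖ = b ∧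
    (∀ w ∈ closedBall (0 : ℂ) 1, ‖Q.eval w‖ ≤ b) ∧ (Q ≠ 0 → 0 < b) := by
  obtain ⟨v, hv, hmax⟩ := (isCompact_closedBall (0 : ℂ) 1).exists_isMaxOn
    ⟨0, mem_closedBall_self zero_le_one⟩ (f := fun w => ‖Q.eval w‖)
    (Q.continuous.norm.continuousOn)
  refine ⟨‖Q.eval v‖, v, hv, rfl, fun w hw => hmax hw, fun hQ => ?_⟩
  by_contra hcon
  have h0 : ‖Q.eval v‖ = 0 := le_antisymm (not_lt.1 hcon) (norm_nonneg _)
  apply hQ
  apply Polynomial.eq_zero_of_infinite_isRoot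
  apply Set.Infinite.mono (s := closedBall (0 : ℂ) 1)
  · intro w hw
    have : ‖Q.eval w‖ ≤ ‖Q.eval v‖ := hmax hw
    rw [h0] at this
    exact norm_le_zero_iff.1 this
  · exact infinite_of_mem_nhds (0 : ℂ) (closedBall_mem_nhds _ zero_lt_one)

/-- linear functions between two points -/
lemma lin (p p0 j j0 T x1 h x : ℝ) (hT : 0 < T)
    (d1 : p + j * T * x1 ≤ p0 + j0 * T * x1)
    (d2 : p + j * T * (x1 + h) ≤ p0 + j0 * T * (x1 + h))
    (hx1 : h / 4 ≤ x - x1) (hx2 : h / 4 ≤ x1 + h - x) :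
    p + j * T * x + |j - j0| * T * (h / 4) ≤ p0 + j0 * T * x := by
  rcases le_total j j0 with hj | hj
  · rw [abs_of_nonpos (by linarith)]
    have := mul_le_mul_of_nonneg_left hx1 (mul_nonneg (sub_nonneg.2 hj) hT.le)
    linarith
  · rw [abs_of_nonneg (by linarith)]
    have := mul_le_mul_of_nonneg_left hx2 (mul_nonneg (sub_nonneg.2 hj) hT.le)
    linarith

end ZeroA

end Pool.Agent.H86.SM
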